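import Pool.Agent.Lib.MP_e0d433_co.Defs

/-!
# MP_e0d433_co: the Hamming code structure

`D` is an ordering of the set `B` of `5 M - 1` letters, `M = 2 ^ a - 1`.  The pairs of adjacent
positions `(i, i+1)` with `i % 5 = 2` or `i % 5 = 0` have weights in an elementary abelian
`2`-group `G` with `M` nonzero elements `X 0, ..., X (M-1)`:
`(5 g + 2, 5 g + 3)` has weight `X g` and `(5 g, 5 g + 1)` has weight `X (g - 1)` (cyclically).
`Phi D` is the sum of the weights of the pairs in ascending order.
-/

namespace Pool.Agent.Lib.MP_e0d433_co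

/-- An enumeration of the nonzero elements of an elementary abelian `2`-group. -/
structure Code (G : Type*) [AddCommGroup G] (M : ℕ) where
  X : ℕ → G
  ix : G → ℕ
  two : ∀ h : G, h + h = 0
  X_ne : ∀ g < M, X g ≠ 0
  ix_X : ∀ g < M, ix (X g) = g
  X_ix : ∀ h : G, h ≠ 0 → X (ix h) = h
  ix_lt : ∀ h : G, h ≠ 0 → ix h < M

/-- Swap the letters at the positions `i`, `i + 1`. -/
def swp {α : Type*} : ℕ → List α → List α
  | 0, b :: c :: l => c :: b :: l
  | i + 1, a :: l => a :: swp i l
  | _, l => l

namespace Code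

variable {G : Type*} [AddCommGroup G] {M : ℕ} (K : Code G M)

/-- The weight of the pair of positions `(i, i + 1)`. -/
def wt (i : ℕ) : G :=
  if i % 5 = 0 then K.X ((i / 5 + M - 1) % M) else if i % 5 = 2 then K.X (i / 5) else 0

variable {α : Type*} [LinearOrder α]

/-- Sum of the weights of the ascending pairs (positions shifted by `i`). -/
def phiAux : ℕ → List α → G
  | i, b :: c :: l => (if b < c then K.wt i else 0) + phiAux (i + 1) (c :: l)
  | _, _ => 0

/-- The syndrome of `D`. -/
def Phi (D : List α) : G := K.phiAux 0 D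

theorem phiAux_cons_cons (i : ℕ) (b c : α) (l : List α) :
    K.phiAux i (b :: c :: l) = (if b < c then K.wt i else 0) + K.phiAux (i + 1) (c :: l) := rfl

theorem wt_zero {i : ℕ} (h0 : i % 5 ≠ 0) (h2 : i % 5 ≠ 2) : K.wt i = 0 := by
  simp [wt, h0, h2]

theorem phiAux_head (i : ℕ) (a b : α) (l : List α) (h : K.wt i = 0) :
    K.phiAux i (a :: l) = K.phiAux i (b :: l) := by
  cases l with
  | nil => rfl
  | cons c l => simp [phiAux_cons_cons, h]

theorem phiAux_swap (i : ℕ) (l₁ l₂ : List α) (b c : α) (hbc : b ≠ c)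
    (h : (i + l₁.length) % 5 = 0 ∨ (i + l₁.length) % 5 = 2) :
    K.phiAux i (l₁ ++ c :: b :: l₂) = K.phiAux i (l₁ ++ b :: c :: l₂) + K.wt (i + l₁.length) := by
  induction l₁ generalizing i with
  | nil =>
    simp only [List.nil_append, List.length_nil, add_zero] at *
    have h1 : K.wt (i + 1) = 0 := K.wt_zero (by omega) (by omega)
    rw [phiAux_cons_cons, phiAux_cons_cons, K.phiAux_head (i + 1) c b l₂ h1]
    rcases lt_or_gt_of_ne hbc with hlt | hgt
    · rw [if_pos hlt, if_neg (not_lt_of_gt hlt)]
      have := K.two (K.wt i)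
      rw [add_right_comm, this]
    · rw [if_pos hgt, if_neg (not_lt_of_gt hgt)]
      abel
  | cons a l₁ ih =>
    have ih' := ih (i + 1) (by simpa [add_assoc, add_comm, add_left_comm] using h)
    cases l₁ with
    | nil =>
      simp only [List.cons_append, List.nil_append, List.length_cons, List.length_nil] at *
      have h1 : K.wt i = 0 := K.wt_zero (by omega) (by omega)
      rw [K.phiAux_cons_cons i a c (b :: l₂), K.phiAux_cons_cons i a b (c :: l₂), ih', h1]
      simp
    | cons a' l₁ =>
      simp only [List.cons_append] at *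
      rw [phiAux_cons_cons, phiAux_cons_cons, ih']
      simp only [List.length_cons, add_assoc]
      congr 3
      ring_nf

theorem phi_swap {l₁ l₂ : List α} {b c : α} (hbc : b ≠ c)
    (h : l₁.length % 5 = 0 ∨ l₁.length % 5 = 2) :
    K.Phi (l₁ ++ c :: b :: l₂) = K.Phi (l₁ ++ b :: c :: l₂) + K.wt l₁.length := by
  have := K.phiAux_swap 0 l₁ l₂ b c hbc (by simpa using h)
  simpa [Phi] using this

variable [DecidableEq G]

/-- The mover, when the runner `y` is in the gap `t` of `D` (with `t` letters of `D` before it). -/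
def inf (y : α) (D : List α) (t : ℕ) : α × Bool :=
  if K.Phi D = 0 then
    (if t % 5 = 0 then (D.getD t y, true)
      else if t % 5 = 4 then (D.getD (t - 1) y, true) else (y, false))
  else
    (if t = 5 * K.ix (K.Phi D) + 4 then (D.getD (t - 1) y, false)
      else if t = 5 * (K.ix (K.Phi D) + 1) % (5 * M) then (D.getD t y, false) else (y, true))

/-- One step of the base machine. -/
def nxt (s : List α × ℕ) : List α × ℕ :=
  if K.Phi s.1 = 0 then
    (if s.2 % 5 = 0 then (swp s.2 s.1, s.2) else (s.1, s.2 - 1))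
  else
    (if s.2 = 5 * K.ix (K.Phi s.1) + 4 then (swp (s.2 - 2) s.1, s.2)
      else (s.1, (s.2 + 1) % (5 * M)))

end Code

end Pool.Agent.Lib.MP_e0d433_co
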