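import Pool.Agent.Lib.MP_e0d433_co.Defs

/-!
# MP_e0d433_co: counting orderings

TASK E.  Prove the statements below (they must stay as they are, add helper lemmas freely).
`perms S` is the finset of all orderings of the finite set `S` (see `Defs.lean`).
-/

namespace Pool.Agent.Lib.MP_e0d433_co

open Finset

variable {α : Type*} [DecidableEq α]

theorem card_perms (S : Finset α) : (perms S).card = S.card.factorial := by
  have h : (Multiset.lists S.val).Nodup := Multiset.lists_nodup_finset S
  rw [perms, Multiset.toFinset_card_of_nodup h]
  have h2 : (S.val : Multiset α) = (S.toList : Multiset α) := (Finset.coe_toList S).symm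
  rw [h2, Multiset.lists_coe, Multiset.coe_card, List.length_permutations, Finset.length_toList]

theorem Count_insertIdx_idxOf_erase {a : α} (l : List α) (h : a ∈ l) :
    (l.erase a).insertIdx (l.idxOf a) a = l := by
  induction l with
  | nil => simp at h
  | cons b l ih =>
    by_cases hb : b = a
    · subst hb
      simp
    · have ha : a ∈ l := by
        rcases List.mem_cons.1 h with h | h
        · exact absurd h.symm hb
        · exact h
      rw [List.erase_cons_tail (by simpa using hb), List.idxOf_cons_ne _ hb,
        List.insertIdx_succ_cons, ih ha]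

theorem Count_idxOf_insertIdx {a : α} (l : List α) (h : a ∉ l) (k : ℕ) (hk : k ≤ l.length) :
    (l.insertIdx k a).idxOf a = k := by
  induction l generalizing k with
  | nil =>
    obtain rfl : k = 0 := by simpa using hk
    simp
  | cons b l ih =>
    have hb : b ≠ a := fun e => h (by simp [e])
    have ha : a ∉ l := fun e => h (by simp [e])
    cases k with
    | zero => simp
    | succ k =>
      rw [List.insertIdx_succ_cons, List.idxOf_cons_ne _ hb, ih ha k (by simpa using hk)]

theorem Count_erase_insertIdx {a : α} (l : List α) (h : a ∉ l) (k : ℕ) (hk : k ≤ l.length) :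
    (l.insertIdx k a).erase a = l := by
  induction l generalizing k with
  | nil =>
    obtain rfl : k = 0 := by simpa using hk
    simp
  | cons b l ih =>
    have hb : b ≠ a := fun e => h (by simp [e])
    have ha : a ∉ l := fun e => h (by simp [e])
    cases k with
    | zero => simp
    | succ k =>
      rw [List.insertIdx_succ_cons, List.erase_cons_tail (by simpa using hb),
        ih ha k (by simpa using hk)]

theorem Count_erase_mem_perms {S : Finset α} {a : α} (ha : a ∉ S) {l : List α}
    (hl : l ∈ perms (insert a S)) : l.erase a ∈ perms S := by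
  rw [mem_perms_iff_coe] at hl ⊢
  rw [← Multiset.coe_erase, hl, ← Finset.erase_val, Finset.erase_insert ha]

theorem Count_insertIdx_mem_perms {S : Finset α} {a : α} (ha : a ∉ S) {l : List α}
    (hl : l ∈ perms S) {k : ℕ} (hk : k ≤ S.card) : l.insertIdx k a ∈ perms (insert a S) := by
  have hk' : k ≤ l.length := by rw [length_of_mem_perms hl]; exact hk
  have hp : (l.insertIdx k a).Perm (a :: l) := List.perm_insertIdx a l hk'
  rw [mem_perms_iff_coe] at hl ⊢
  rw [Multiset.coe_eq_coe.2 hp, ← Multiset.cons_coe, hl, Finset.insert_val_of_notMem ha]

/-- Orderings of `insert a S` are the orderings of `S` with `a` inserted at one of `S.card + 1`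
positions. (Bijection `(k, l) ↦ l.insertIdx k a`, inverse `l ↦ (l.idxOf a, l.erase a)`.) -/
theorem card_perms_insert {S : Finset α} {a : α} (ha : a ∉ S) (P : List α → Prop)
    [DecidablePred P] :
    ((perms (insert a S)).filter P).card =
      ∑ k ∈ range (S.card + 1), ((perms S).filter (fun l => P (l.insertIdx k a))).card := by
  rw [← Finset.card_sigma]
  refine Finset.card_nbij' (fun l => (⟨l.idxOf a, l.erase a⟩ : Σ _ : ℕ, List α))
    (fun x => x.2.insertIdx x.1 a) ?_ ?_ ?_ ?_
  · intro l hl
    have hl' := Finset.mem_filter.1 (Finset.mem_coe.1 hl)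
    have hmem : a ∈ l := (mem_iff_of_mem_perms hl'.1 a).2 (Finset.mem_insert_self a S)
    have hlen : l.length = S.card + 1 := by
      rw [length_of_mem_perms hl'.1, Finset.card_insert_of_notMem ha]
    simp only [Finset.coe_sigma, Set.mem_sigma_iff, Finset.mem_coe, Finset.mem_range,
      Finset.mem_filter]
    refine ⟨?_, Count_erase_mem_perms ha hl'.1, ?_⟩
    · rw [← hlen]
      exact List.idxOf_lt_length_of_mem hmem
    · rw [Count_insertIdx_idxOf_erase l hmem]
      exact hl'.2
  · rintro ⟨k, l⟩ hx
    simp only [Finset.coe_sigma, Set.mem_sigma_iff, Finset.mem_coe, Finset.mem_range,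
      Finset.mem_filter] at hx
    simp only [Finset.coe_filter, Set.mem_setOf_eq]
    exact ⟨Count_insertIdx_mem_perms ha hx.2.1 (by omega), hx.2.2⟩
  · intro l hl
    have hl' := Finset.mem_filter.1 (Finset.mem_coe.1 hl)
    have hmem : a ∈ l := (mem_iff_of_mem_perms hl'.1 a).2 (Finset.mem_insert_self a S)
    exact Count_insertIdx_idxOf_erase l hmem
  · rintro ⟨k, l⟩ hx
    simp only [Finset.coe_sigma, Set.mem_sigma_iff, Finset.mem_coe, Finset.mem_range,
      Finset.mem_filter] at hx
    have hal : a ∉ l := fun h => ha ((mem_iff_of_mem_perms hx.2.1 a).1 h)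
    have hk : k ≤ l.length := by rw [length_of_mem_perms hx.2.1]; omega
    simp only [Count_idxOf_insertIdx l hal k hk, Count_erase_insertIdx l hal k hk]

theorem Count_filter_insertIdx {A : Finset α} {a : α} (ha : a ∉ A) (l : List α) (k : ℕ) :
    (l.insertIdx k a).filter (· ∈ A) = l.filter (· ∈ A) := by
  induction l generalizing k with
  | nil => cases k <;> simp [ha]
  | cons b l ih =>
    cases k with
    | zero => simp [ha]
    | succ k =>
      rw [List.insertIdx_succ_cons, List.filter_cons, List.filter_cons, ih]

theorem Count_union (A : Finset α) (F : List α → Prop) [DecidablePred F] (T : Finset α)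
    (hT : Disjoint A T) :
    ((perms (A ∪ T)).filter (fun l => F (l.filter (· ∈ A)))).card * A.card.factorial =
      (A ∪ T).card.factorial * ((perms A).filter F).card := by
  induction T using Finset.induction_on with
  | empty =>
    have h : (perms (A ∪ ∅)).filter (fun l => F (l.filter (· ∈ A))) = (perms A).filter F := by
      rw [Finset.union_empty]
      refine Finset.filter_congr ?_
      intro l hl
      have : l.filter (· ∈ A) = l := by
        rw [List.filter_eq_self]
        intro b hb
        simpa using (mem_iff_of_mem_perms hl b).1 hb
      rw [this]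
    rw [h, Finset.union_empty, mul_comm]
  | insert a T haT ih =>
    rw [Finset.disjoint_insert_right] at hT
    have ih' := ih hT.2
    have ha : a ∉ A ∪ T := by
      rw [Finset.mem_union]
      rintro (h | h)
      · exact hT.1 h
      · exact haT h
    rw [Finset.union_insert, card_perms_insert ha, Finset.card_insert_of_notMem ha,
      Nat.factorial_succ]
    have hsum : ∀ k ∈ range ((A ∪ T).card + 1),
        ((perms (A ∪ T)).filter (fun l => F ((l.insertIdx k a).filter (· ∈ A)))).card =
          ((perms (A ∪ T)).filter (fun l => F (l.filter (· ∈ A)))).card := by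
      intro k _
      congr 1
      refine Finset.filter_congr ?_
      intro l _
      rw [Count_filter_insertIdx hT.1]
    rw [Finset.sum_congr rfl hsum, Finset.sum_const, Finset.card_range, smul_eq_mul,
      mul_assoc, ih', mul_assoc]

/-- Number of orderings of `S` whose restriction to `A ⊆ S` satisfies `F`. (Induction on `S \ A`,
with `card_perms_insert`, inserting a letter outside `A` does not change the restriction.) -/
theorem card_perms_restrict {A S : Finset α} (hAS : A ⊆ S) (F : List α → Prop)
    [DecidablePred F] :
    ((perms S).filter (fun l => F (l.filter (· ∈ A)))).card * A.card.factorial =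
      S.card.factorial * ((perms A).filter F).card := by
  have h := Count_union A F (S \ A) Finset.disjoint_sdiff
  rwa [Finset.union_sdiff_of_subset hAS] at h

end Pool.Agent.Lib.MP_e0d433_co
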