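import Pool.Agent.Lib.MP_e0d433_co.Code
import Pool.Agent.Lib.MP_e0d433_co.Count

/-!
# MP_e0d433_co: facts on the code

* `exists_code`: `G = Fin a → ZMod 2`, `M = 2 ^ a - 1`.
* `card_level`: for `g < M` the map `swp (5 g + 2)` is a bijection from
  `{D ∈ perms B | Phi D = 0}` to `{D ∈ perms B | Phi D = X g}` by `phi_swap` (note
  `5 g + 3 < 5 M - 1 = D.length`).  So all levels have the same cardinality, and their sum over `G`
  is `B.card !`.
* `card_left`: number of pairs `(D, t)`, `t < 5 M`, for which the mover goes left: for `Phi D = 0`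
  these are the `3 M` values `t` with `t % 5 ∈ {1, 2, 3}`, for `Phi D ≠ 0` these are the 2 values
  `5 ix + 4` and `5 (ix + 1) % (5 M)` (different).  So the number is `N₀ (3 M) + M N₀ 2 = 5 M N₀`
  where `N₀ = (5 M - 1)! / (M + 1)` is the cardinality of a level.
-/

namespace Pool.Agent.Lib.MP_e0d433_co

open Finset

theorem exists_code (a : ℕ) : ∃ (G : Type) (_ : AddCommGroup G) (_ : Fintype G)
    (_ : DecidableEq G), Fintype.card G = 2 ^ a ∧ Nonempty (Code G (2 ^ a - 1)) := by
  classical
  have hcard : Fintype.card (Fin a → ZMod 2) = 2 ^ a := by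
    rw [Fintype.card_fun, ZMod.card, Fintype.card_fin]
  have hc' : Fintype.card {h : Fin a → ZMod 2 // h ≠ 0} = 2 ^ a - 1 := by
    rw [Fintype.card_subtype_compl, Fintype.card_subtype_eq, hcard]
  let e : {h : Fin a → ZMod 2 // h ≠ 0} ≃ Fin (2 ^ a - 1) := Fintype.equivFinOfCardEq hc'
  refine ⟨Fin a → ZMod 2, inferInstance, inferInstance, inferInstance, hcard, ⟨?_⟩⟩
  exact
    { X := fun g => if h : g < 2 ^ a - 1 then (e.symm ⟨g, h⟩).1 else 0
      ix := fun h => if hh : h ≠ 0 then (e ⟨h, hh⟩).1 else 0
      two := fun h => by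
        funext i
        exact CharTwo.add_self_eq_zero (h i)
      X_ne := fun g hg => by
        simp only [dif_pos hg]
        exact (e.symm ⟨g, hg⟩).2
      ix_X := fun g hg => by
        have h1 : (if h : g < 2 ^ a - 1 then (e.symm ⟨g, h⟩).1 else 0) = (e.symm ⟨g, hg⟩).1 :=
          dif_pos hg
        simp only [h1]
        rw [dif_pos (e.symm ⟨g, hg⟩).2]
        simp
      X_ix := fun h hh => by
        have h1 : (if hh : h ≠ 0 then ((e ⟨h, hh⟩ : Fin (2 ^ a - 1)) : ℕ) else 0) =
            (e ⟨h, hh⟩ : Fin (2 ^ a - 1)) := dif_pos hh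
        simp only [h1]
        rw [dif_pos (e ⟨h, hh⟩).2]
        simp
      ix_lt := fun h hh => by
        simp only [dif_pos hh]
        exact (e ⟨h, hh⟩).2 }

private theorem CodeFacts_swp {α : Type*} (l₁ l₂ : List α) (b c : α) :
    swp l₁.length (l₁ ++ b :: c :: l₂) = l₁ ++ c :: b :: l₂ := by
  induction l₁ with
  | nil => rfl
  | cons a l ih =>
    simp only [List.length_cons, List.cons_append, swp]
    rw [ih]

private theorem CodeFacts_split {α : Type*} (D : List α) (i : ℕ) (h : i + 1 < D.length) :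
    ∃ l₁ l₂ b c, D = l₁ ++ b :: c :: l₂ ∧ l₁.length = i := by
  refine ⟨D.take i, D.drop (i + 2), D[i], D[i + 1], ?_, ?_⟩
  · have h1 : D.drop i = D[i] :: D.drop (i + 1) := List.drop_eq_getElem_cons (by omega)
    have h2 : D.drop (i + 1) = D[i + 1] :: D.drop (i + 2) := List.drop_eq_getElem_cons h
    rw [← h2, ← h1, List.take_append_drop]
  · rw [List.length_take]
    omega

namespace Code

variable {G : Type*} [AddCommGroup G] {M : ℕ} (K : Code G M)
variable {α : Type*} [LinearOrder α]

private theorem swp_facts {B : Finset α} {D : List α} (hD : D ∈ perms B) {i : ℕ}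
    (hi : i % 5 = 0 ∨ i % 5 = 2) (h : i + 1 < B.card) :
    swp i D ∈ perms B ∧ K.Phi (swp i D) = K.Phi D + K.wt i ∧ swp i (swp i D) = D := by
  have hlen := length_of_mem_perms hD
  obtain ⟨l₁, l₂, b, c, rfl, rfl⟩ := CodeFacts_split D i (by omega)
  have hnd := nodup_of_mem_perms hD
  have hbc : b ≠ c := by
    intro e
    subst e
    have h1 := (List.nodup_append.1 hnd).2.1
    simp at h1
  rw [CodeFacts_swp]
  refine ⟨?_, K.phi_swap hbc hi, ?_⟩
  · refine perm_mem_perms hD ?_
    exact List.Perm.append_left _ (List.Perm.swap _ _ _)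
  · rw [CodeFacts_swp]

variable [DecidableEq G]

private theorem level_eq {B : Finset α} (hB : B.card = 5 * M - 1) (h : G) (hh : h ≠ 0) :
    ((perms B).filter (fun D => K.Phi D = h)).card =
      ((perms B).filter (fun D => K.Phi D = 0)).card := by
  have hlt := K.ix_lt h hh
  have hX := K.X_ix h hh
  have hw : K.wt (5 * K.ix h + 2) = h := by
    unfold wt
    rw [if_neg (by omega), if_pos (by omega)]
    have : (5 * K.ix h + 2) / 5 = K.ix h := by omega
    rw [this, hX]
  have key : ∀ D ∈ perms B, _ := fun D hD =>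
    K.swp_facts hD (i := 5 * K.ix h + 2) (Or.inr (by omega)) (by omega)
  refine Finset.card_nbij' (swp (5 * K.ix h + 2)) (swp (5 * K.ix h + 2)) ?_ ?_ ?_ ?_
  · intro D hD
    have hD' := Finset.mem_filter.1 (Finset.mem_coe.1 hD)
    obtain ⟨h1, h2, h3⟩ := key D hD'.1
    refine Finset.mem_coe.2 (Finset.mem_filter.2 ⟨h1, ?_⟩)
    rw [h2, hw, hD'.2, K.two]
  · intro D hD
    have hD' := Finset.mem_filter.1 (Finset.mem_coe.1 hD)
    obtain ⟨h1, h2, h3⟩ := key D hD'.1
    refine Finset.mem_coe.2 (Finset.mem_filter.2 ⟨h1, ?_⟩)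
    rw [h2, hw, hD'.2, zero_add]
  · intro D hD
    have hD' := Finset.mem_filter.1 (Finset.mem_coe.1 hD)
    exact (key D hD'.1).2.2
  · intro D hD
    have hD' := Finset.mem_filter.1 (Finset.mem_coe.1 hD)
    exact (key D hD'.1).2.2

theorem card_level [Fintype G] (hM : 1 ≤ M) (B : Finset α) (hB : B.card = 5 * M - 1) (h : G) :
    Fintype.card G * ((perms B).filter (fun D => K.Phi D = h)).card = B.card.factorial := by
  have hall : ∀ h : G, ((perms B).filter (fun D => K.Phi D = h)).card =
      ((perms B).filter (fun D => K.Phi D = 0)).card := by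
    intro h
    by_cases hh : h = 0
    · rw [hh]
    · exact K.level_eq hB h hh
  have hsum : (perms B).card = ∑ g : G, ((perms B).filter (fun D => K.Phi D = g)).card :=
    Finset.card_eq_sum_card_fiberwise (f := K.Phi) (t := Finset.univ) (fun _ _ => by simp)
  rw [card_perms, Finset.sum_congr rfl (fun g _ => hall g), Finset.sum_const, Finset.card_univ,
    smul_eq_mul] at hsum
  rw [hall h, hsum]

include K in
private theorem card_G [Fintype G] : Fintype.card G = M + 1 := by
  have h1 : Fintype.card {h : G // h ≠ 0} = M := by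
    have e : {h : G // h ≠ 0} ≃ Fin M :=
      { toFun := fun h => ⟨K.ix h.1, K.ix_lt h.1 h.2⟩
        invFun := fun g => ⟨K.X g.1, K.X_ne g.1 g.2⟩
        left_inv := fun h => Subtype.ext (K.X_ix h.1 h.2)
        right_inv := fun g => Fin.ext (K.ix_X g.1 g.2) }
    rw [Fintype.card_congr e, Fintype.card_fin]
  rw [Fintype.card_subtype_compl, Fintype.card_subtype_eq] at h1
  have h2 : 0 < Fintype.card G := Fintype.card_pos_iff.2 ⟨0⟩
  omega

private theorem count_zero (M : ℕ) :
    ((range (5 * M)).filter (fun t => t % 5 ≠ 0 ∧ t % 5 ≠ 4)).card = 3 * M := by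
  induction M with
  | zero => simp
  | succ M ih =>
    have h1 : 5 * (M + 1) = 5 * M + 1 + 1 + 1 + 1 + 1 := by ring
    rw [h1]
    simp only [Finset.range_add_one, Finset.filter_insert]
    rw [if_neg (by omega), if_pos (by omega), if_pos (by omega), if_pos (by omega),
      if_neg (by omega)]
    rw [Finset.card_insert_of_notMem (by simp), Finset.card_insert_of_notMem (by simp),
      Finset.card_insert_of_notMem (by simp), ih]
    ring

theorem card_left [Fintype G] (hM : 1 ≤ M) (B : Finset α) (hB : B.card = 5 * M - 1) (y : α) :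
    Fintype.card G * ∑ D ∈ perms B, ((range (5 * M)).filter (fun t => (K.inf y D t).2 = false)).card
      = (5 * M).factorial := by
  have h0 : ∀ D, K.Phi D = 0 →
      ((range (5 * M)).filter (fun t => (K.inf y D t).2 = false)).card = 3 * M := by
    intro D hD
    rw [← count_zero M]
    congr 1
    refine Finset.filter_congr fun t _ => ?_
    unfold inf
    rw [if_pos hD]
    split_ifs with h1 h2
    · simp [h1]
    · simp [h2]
    · simp [h1, h2]
  have h1 : ∀ D, K.Phi D ≠ 0 →
      ((range (5 * M)).filter (fun t => (K.inf y D t).2 = false)).card = 2 := by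
    intro D hD
    have hlt := K.ix_lt _ hD
    have hm : 5 * (K.ix (K.Phi D) + 1) % (5 * M) < 5 * M := Nat.mod_lt _ (by omega)
    have hm5 : 5 * (K.ix (K.Phi D) + 1) % (5 * M) % 5 = 0 := by
      rw [Nat.mod_mod_of_dvd _ ⟨M, rfl⟩]
      omega
    have hne : 5 * K.ix (K.Phi D) + 4 ≠ 5 * (K.ix (K.Phi D) + 1) % (5 * M) := by
      intro h
      rw [← h] at hm5
      omega
    rw [← Finset.card_pair hne]
    congr 1
    ext t
    rw [Finset.mem_filter, Finset.mem_range, Finset.mem_insert, Finset.mem_singleton]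
    unfold inf
    rw [if_neg hD]
    split_ifs with h1 h2
    · simp only [h1, true_or, iff_true]
      exact ⟨by omega, trivial⟩
    · rw [h2]
      simp only [or_true, iff_true]
      exact ⟨hm, trivial⟩
    · simp [h1, h2]
  have hsplit : ∑ D ∈ perms B, ((range (5 * M)).filter (fun t => (K.inf y D t).2 = false)).card =
      ((perms B).filter (fun D => K.Phi D = 0)).card * (3 * M) +
        ((perms B).filter (fun D => ¬ K.Phi D = 0)).card * 2 := by
    rw [← Finset.sum_filter_add_sum_filter_not (perms B) (fun D => K.Phi D = 0)]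
    congr 1
    · rw [Finset.sum_congr rfl (fun D hD => h0 D (Finset.mem_filter.1 hD).2), Finset.sum_const,
        smul_eq_mul]
    · rw [Finset.sum_congr rfl (fun D hD => h1 D (Finset.mem_filter.1 hD).2), Finset.sum_const,
        smul_eq_mul]
  have hl := K.card_level hM B hB 0
  have htot : ((perms B).filter (fun D => K.Phi D = 0)).card +
      ((perms B).filter (fun D => ¬ K.Phi D = 0)).card = B.card.factorial := by
    rw [Finset.card_filter_add_card_filter_not, card_perms]
  have hG := K.card_G
  have hfac : (5 * M).factorial = 5 * M * B.card.factorial := by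
    rw [hB]
    obtain ⟨m, hm⟩ : ∃ m, 5 * M = m + 1 := ⟨5 * M - 1, by omega⟩
    rw [hm, Nat.factorial_succ, Nat.add_sub_cancel]
  rw [hsplit, hfac]
  set N0 := ((perms B).filter (fun D => K.Phi D = 0)).card
  set N1 := ((perms B).filter (fun D => ¬ K.Phi D = 0)).card
  set F := B.card.factorial
  have h2 : Fintype.card G * N1 + F = Fintype.card G * F := by
    rw [← htot, mul_add, hl, htot]
    ring
  rw [hG] at hl h2 ⊢
  nlinarith [hl, h2]

end Code

end Pool.Agent.Lib.MP_e0d433_co
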