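import Pool.Agent.Lib.MP_e0d433_co.Code

/-!
# MP_e0d433_co: reachability in the base machine

TASK C2 (`reach_code`).  The statement must stay; helper lemmas may be added freely.
(`phi_swap` is in `Code.lean`.)

* `reach_code`: if `Phi D = 0` then after at most 4 steps we are at `(D, 5 g)`, then at
  `(swp (5 g) D, 5 g)` whose syndrome is `wt (5 g) = X ((g + M - 1) % M)`.  If `Phi D = X g`, then `t`
  increases cyclically until `t = 5 g + 4`, then `(swp (5 g + 2) D, 5 g + 4)` with syndrome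
  `X g + X g = 0`, then we go down to `(·, 5 g)` and to a state with syndrome
  `X ((g + M - 1) % M)` and `t = 5 g`.  The target `(Phi D = X 0, t = 5 M - 1)`:
  for syndrome `X 0` and `t = 5` (coming from `g = 1`) we reach `t = 5 M - 1` increasing `t`.
  For syndrome `X g`, `1 ≤ g`, `t` arbitrary: we pass to syndrome `X (g-1)`, `t = 5 g`; iterate until
  syndrome `X 0`, `t = 5`.  For syndrome `X 0`, `t ≤ 4`: pass to syndrome `X (M - 1)`, `M - 1 ≥ 1`.
  For syndrome `X 0`, `t ≥ 5`: increase `t`.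
-/

namespace Pool.Agent.Lib.MP_e0d433_co

namespace Code

variable {G : Type*} [AddCommGroup G] {M : ℕ} (K : Code G M)
variable {α : Type*} [LinearOrder α] [DecidableEq G]

/-- the state `s'` is reached from `s` -/
private def CRR (s s' : List α × ℕ) : Prop := ∃ k : ℕ, K.nxt^[k] s = s'

private theorem CRR.refl (s : List α × ℕ) : K.CRR s s := ⟨0, rfl⟩

private theorem CRR.trans {s s' s'' : List α × ℕ} (h : K.CRR s s') (h' : K.CRR s' s'') :
    K.CRR s s'' := by
  obtain ⟨k, rfl⟩ := h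
  obtain ⟨k', rfl⟩ := h'
  exact ⟨k' + k, Function.iterate_add_apply _ _ _ _⟩

private theorem CRR.one (s : List α × ℕ) : K.CRR s (K.nxt s) := ⟨1, rfl⟩

private theorem swp_append (l₁ l₂ : List α) (b c : α) :
    swp l₁.length (l₁ ++ b :: c :: l₂) = l₁ ++ c :: b :: l₂ := by
  induction l₁ with
  | nil => rfl
  | cons a l₁ ih =>
    simp only [List.length_cons, List.cons_append]
    rw [swp, ih]

private theorem exists_split {D : List α} {i : ℕ} (h : i + 1 < D.length) :
    ∃ l₁ l₂ b c, D = l₁ ++ b :: c :: l₂ ∧ l₁.length = i := by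
  refine ⟨D.take i, D.drop (i + 2), D[i], D[i + 1], ?_, ?_⟩
  · conv_lhs => rw [← List.take_append_drop i D]
    congr 1
    rw [List.drop_eq_getElem_cons (by omega), List.drop_eq_getElem_cons (by omega)]
  · rw [List.length_take]
    omega

/-- swapping two adjacent letters -/
private theorem swp_facts {D : List α} {i : ℕ} (hD : D.Nodup) (h : i + 1 < D.length)
    (hi : i % 5 = 0 ∨ i % 5 = 2) :
    (swp i D).Nodup ∧ (swp i D).length = D.length ∧ K.Phi (swp i D) = K.Phi D + K.wt i := by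
  obtain ⟨l₁, l₂, b, c, rfl, rfl⟩ := exists_split h
  rw [swp_append]
  have hp : (l₁ ++ c :: b :: l₂).Perm (l₁ ++ b :: c :: l₂) :=
    List.Perm.append_left l₁ (List.Perm.swap b c l₂)
  have hbc : b ≠ c := by
    rintro rfl
    rw [List.nodup_append] at hD
    have := hD.2.1
    simp at this
  exact ⟨hp.nodup_iff.2 hD, hp.length_eq, K.phi_swap hbc hi⟩

private theorem wt5 (g : ℕ) : K.wt (5 * g) = K.X ((g + M - 1) % M) := by
  have h1 : 5 * g % 5 = 0 := by omega
  have h2 : 5 * g / 5 = g := by omega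
  simp [wt, h1, h2]

private theorem wt52 (g : ℕ) : K.wt (5 * g + 2) = K.X g := by
  have h1 : (5 * g + 2) % 5 = 2 := by omega
  have h2 : (5 * g + 2) / 5 = g := by omega
  simp [wt, h1, h2]

/-- going down to the next multiple of `5` -/
private theorem down {D : List α} (h0 : K.Phi D = 0) (g : ℕ) : ∀ r < 5,
    K.CRR (D, 5 * g + r) (D, 5 * g) := by
  intro r
  induction r with
  | zero =>
    intro _
    exact CRR.refl K _
  | succ r ih =>
    intro hr
    refine CRR.trans K ?_ (ih (by omega))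
    have h1 : K.nxt (D, 5 * g + (r + 1)) = (D, 5 * g + r) := by
      have h2 : (5 * g + (r + 1)) % 5 ≠ 0 := by omega
      simp only [nxt, h0, if_true, if_neg h2]
      rfl
    rw [← h1]
    exact CRR.one K _

/-- the case of syndrome `0` -/
private theorem caseZero {D : List α} (hD : D.Nodup) (hl : D.length = 5 * M - 1)
    (h0 : K.Phi D = 0) {g : ℕ} (hg : g < M) {r : ℕ} (hr : r < 5) :
    ∃ D' : List α, D'.Nodup ∧ D'.length = 5 * M - 1 ∧ K.Phi D' = K.X ((g + M - 1) % M) ∧
      K.CRR (D, 5 * g + r) (D', 5 * g) := by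
  obtain ⟨h1, h2, h3⟩ := K.swp_facts hD (i := 5 * g) (by omega) (Or.inl (by omega))
  refine ⟨swp (5 * g) D, h1, h2.trans hl, ?_, ?_⟩
  · rw [h3, h0, zero_add, wt5]
  · refine CRR.trans K (K.down h0 g r hr) ?_
    have h4 : K.nxt (D, 5 * g) = (swp (5 * g) D, 5 * g) := by
      have h5 : 5 * g % 5 = 0 := by omega
      simp only [nxt, h0, if_true, h5]
    rw [← h4]
    exact CRR.one K _

private theorem nxt_up {D : List α} {g : ℕ} (hg : g < M) (h0 : K.Phi D = K.X g) {t : ℕ}
    (ht : t ≠ 5 * g + 4) : K.nxt (D, t) = (D, (t + 1) % (5 * M)) := by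
  have h1 : K.Phi D ≠ 0 := by
    rw [h0]
    exact K.X_ne g hg
  have h2 : K.ix (K.Phi D) = g := by
    rw [h0]
    exact K.ix_X g hg
  simp only [nxt, if_neg h1, h2, if_neg ht]

/-- going up without passing `5 g + 4` -/
private theorem up {D : List α} {g : ℕ} (hg : g < M) (h0 : K.Phi D = K.X g) {t : ℕ} : ∀ r : ℕ,
    t + r < 5 * M → (∀ i < r, t + i ≠ 5 * g + 4) → K.CRR (D, t) (D, t + r) := by
  intro r
  induction r with
  | zero =>
    intro _ _
    exact CRR.refl K _
  | succ r ih =>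
    intro h1 h2
    refine CRR.trans K (ih (by omega) fun i hi => h2 i (by omega)) ?_
    have h3 := K.nxt_up hg h0 (t := t + r) (h2 r (by omega))
    rw [Nat.mod_eq_of_lt (by omega)] at h3
    have h4 : t + (r + 1) = t + r + 1 := by omega
    rw [h4, ← h3]
    exact CRR.one K _

/-- the case of syndrome `X g` -/
private theorem caseX {D : List α} (hD : D.Nodup) (hl : D.length = 5 * M - 1)
    {g : ℕ} (hg : g < M) (h0 : K.Phi D = K.X g) {t : ℕ} (ht : t < 5 * M) :
    ∃ D' : List α, D'.Nodup ∧ D'.length = 5 * M - 1 ∧ K.Phi D' = K.X ((g + M - 1) % M) ∧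
      K.CRR (D, t) (D', 5 * g) := by
  have hreach : K.CRR (D, t) (D, 5 * g + 4) := by
    rcases le_or_gt t (5 * g + 4) with h | h
    · have h1 := K.up hg h0 (t := t) (5 * g + 4 - t) (by omega) (fun i hi => by omega)
      rwa [show t + (5 * g + 4 - t) = 5 * g + 4 by omega] at h1
    · have h1 := K.up hg h0 (t := t) (5 * M - 1 - t) (by omega) (fun i hi => by omega)
      rw [show t + (5 * M - 1 - t) = 5 * M - 1 by omega] at h1
      have h2 := K.nxt_up hg h0 (t := 5 * M - 1) (by omega)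
      rw [show 5 * M - 1 + 1 = 5 * M by omega, Nat.mod_self] at h2
      have h3 : K.CRR (D, 5 * M - 1) (D, 0) := by
        rw [← h2]
        exact CRR.one K _
      have h4 := K.up hg h0 (t := 0) (5 * g + 4) (by omega) (fun i hi => by omega)
      rw [zero_add] at h4
      exact CRR.trans K h1 (CRR.trans K h3 h4)
  obtain ⟨h1, h2, h3⟩ := K.swp_facts hD (i := 5 * g + 2) (by omega) (Or.inr (by omega))
  have h4 : K.nxt (D, 5 * g + 4) = (swp (5 * g + 2) D, 5 * g + 4) := by
    have h5 : K.Phi D ≠ 0 := by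
      rw [h0]
      exact K.X_ne g hg
    have h6 : K.ix (K.Phi D) = g := by
      rw [h0]
      exact K.ix_X g hg
    simp only [nxt, if_neg h5, h6, if_true]
    rfl
  have h7 : K.Phi (swp (5 * g + 2) D) = 0 := by
    rw [h3, h0, wt52]
    exact K.two _
  obtain ⟨D', a1, a2, a3, a4⟩ := K.caseZero h1 (h2.trans hl) h7 hg (r := 4) (by omega)
  refine ⟨D', a1, a2, a3, CRR.trans K hreach (CRR.trans K ?_ a4)⟩
  rw [← h4]
  exact CRR.one K _

private theorem target {g : ℕ} : 1 ≤ g → g < M → ∀ (D : List α), D.Nodup →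
    D.length = 5 * M - 1 → K.Phi D = K.X g → ∀ t < 5 * M,
    ∃ D' : List α, K.Phi D' = K.X 0 ∧ K.CRR (D, t) (D', 5 * M - 1) := by
  induction g with
  | zero =>
    intro h
    omega
  | succ g ih =>
    intro _ hg D hD hl h0 t ht
    obtain ⟨D', a1, a2, a3, a4⟩ := K.caseX hD hl hg h0 ht
    have h1 : (g + 1 + M - 1) % M = g := by
      rw [show g + 1 + M - 1 = g + M by omega, Nat.add_mod_right, Nat.mod_eq_of_lt (by omega)]
    rw [h1] at a3
    rcases Nat.eq_zero_or_pos g with rfl | hpos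
    · refine ⟨D', a3, CRR.trans K a4 ?_⟩
      have h2 := K.up (g := 0) (by omega) a3 (t := 5 * (0 + 1)) (5 * M - 1 - 5) (by omega)
        (fun i hi => by omega)
      rwa [show 5 * (0 + 1) + (5 * M - 1 - 5) = 5 * M - 1 by omega] at h2
    · obtain ⟨D'', b1, b2⟩ := ih hpos (by omega) D' a1 a2 a3 (5 * (g + 1)) (by omega)
      exact ⟨D'', b1, CRR.trans K a4 b2⟩

private theorem target' (hM : 2 ≤ M) {g : ℕ} (hg : g < M) (D : List α) (hD : D.Nodup)
    (hl : D.length = 5 * M - 1) (h0 : K.Phi D = K.X g) (t : ℕ) (ht : t < 5 * M) :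
    ∃ D' : List α, K.Phi D' = K.X 0 ∧ K.CRR (D, t) (D', 5 * M - 1) := by
  rcases Nat.eq_zero_or_pos g with rfl | hpos
  · obtain ⟨D', a1, a2, a3, a4⟩ := K.caseX hD hl hg h0 ht
    rw [zero_add, Nat.mod_eq_of_lt (by omega)] at a3
    obtain ⟨D'', b1, b2⟩ := K.target (g := M - 1) (by omega) (by omega) D' a1 a2 a3 (5 * 0)
      (by omega)
    exact ⟨D'', b1, CRR.trans K a4 b2⟩
  · exact K.target hpos hg D hD hl h0 t ht

theorem reach_code (hM : 2 ≤ M) (B : Finset α) (hB : B.card = 5 * M - 1) {D : List α}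
    (hD : D ∈ perms B) {t : ℕ} (ht : t < 5 * M) :
    ∃ k : ℕ, K.Phi (K.nxt^[k] (D, t)).1 = K.X 0 ∧ (K.nxt^[k] (D, t)).2 = 5 * M - 1 := by
  have hn := nodup_of_mem_perms hD
  have hl : D.length = 5 * M - 1 := (length_of_mem_perms hD).trans hB
  suffices h : ∃ D' : List α, K.Phi D' = K.X 0 ∧ K.CRR (D, t) (D', 5 * M - 1) by
    obtain ⟨D', h1, k, h2⟩ := h
    exact ⟨k, by rw [h2]; exact h1, by rw [h2]⟩
  by_cases h0 : K.Phi D = 0
  · obtain ⟨D', a1, a2, a3, a4⟩ := K.caseZero hn hl h0 (g := t / 5) (by omega) (r := t % 5)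
      (by omega)
    rw [show 5 * (t / 5) + t % 5 = t by omega] at a4
    obtain ⟨D'', b1, b2⟩ := K.target' hM (Nat.mod_lt _ (by omega)) D' a1 a2 a3 (5 * (t / 5))
      (by omega)
    exact ⟨D'', b1, CRR.trans K a4 b2⟩
  · exact K.target' hM (K.ix_lt _ h0) D hn hl (K.X_ix _ h0).symm t ht

end Code

end Pool.Agent.Lib.MP_e0d433_co
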