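import Pool.Agent.Lib.MP_e0d433_co.Infl
import Pool.Agent.Lib.MP_e0d433_co.CodeFacts

/-!
# MP_e0d433_co: counting left movers

TASK N1.  The statements must stay; helper lemmas may be added freely (you may use the sorried
theorems of the imported files).

## Proof
`count_left`: `F l := (infl K B y l).2 = false` satisfies `F (l.filter (· ∈ insert y B)) ↔ F l`;
`card_perms_restrict` with `A = insert y B` (`A.card = 5 M`); then `card_perms_insert` with
`a = y`, and `infl K B y (D.insertIdx k y) = inf y D k` for `D ∈ perms B`, `k ≤ D.length = 5 M - 1`,
and `card_left` (exchange of two sums: `card_filter`, `sum_comm`).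
`count_level`: `card_perms_restrict` with `A = B` and `card_level`.
-/

namespace Pool.Agent.Lib.MP_e0d433_co

open Finset

variable {G : Type*} [AddCommGroup G] [DecidableEq G] [Fintype G] {M : ℕ} (K : Code G M)
variable {α : Type*} [LinearOrder α]

theorem Count2_takeWhile_filter {A : Finset α} {y : α} (hy : y ∈ A) (l : List α) :
    (l.filter (· ∈ A)).takeWhile (· ≠ y) = (l.takeWhile (· ≠ y)).filter (· ∈ A) := by
  induction l with
  | nil => rfl
  | cons b l ih =>
    by_cases hb : b = y
    · subst hb
      simp [hy]
    · by_cases hbA : b ∈ A
      · rw [List.filter_cons_of_pos (by simpa using hbA), List.takeWhile_cons_of_pos (by simpa using hb),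
          List.takeWhile_cons_of_pos (by simpa using hb), List.filter_cons_of_pos (by simpa using hbA),
          ih]
      · rw [List.filter_cons_of_neg (by simpa using hbA),
          List.takeWhile_cons_of_pos (by simpa using hb), List.filter_cons_of_neg (by simpa using hbA),
          ih]

theorem Count2_filter_filter {A B : Finset α} (hBA : B ⊆ A) (l : List α) :
    (l.filter (· ∈ A)).filter (· ∈ B) = l.filter (· ∈ B) := by
  rw [List.filter_filter]
  apply List.filter_congr
  intro b _
  by_cases hb : b ∈ B
  · simp [hb, hBA hb]
  · simp [hb]

omit [Fintype G] in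
theorem Count2_infl_filter {B : Finset α} {y : α} (l : List α) :
    infl K B y (l.filter (· ∈ insert y B)) = infl K B y l := by
  have h1 := Count2_filter_filter (Finset.subset_insert y B) l
  have h2 := Count2_takeWhile_filter (Finset.mem_insert_self y B) l
  unfold infl gap
  rw [h1, h2, Count2_filter_filter (Finset.subset_insert y B)]

theorem Count2_takeWhile_insertIdx {y : α} (l : List α) (hl : y ∉ l) (k : ℕ) (hk : k ≤ l.length) :
    (l.insertIdx k y).takeWhile (· ≠ y) = l.take k := by
  induction l generalizing k with
  | nil =>
    obtain rfl : k = 0 := by simpa using hk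
    simp
  | cons b l ih =>
    have hb : b ≠ y := fun e => hl (by simp [e])
    have ha : y ∉ l := fun e => hl (by simp [e])
    cases k with
    | zero => simp
    | succ k =>
      rw [List.insertIdx_succ_cons, List.takeWhile_cons_of_pos (by simpa using hb),
        ih ha k (by simpa using hk), List.take_succ_cons]

omit [Fintype G] in
theorem Count2_infl_insertIdx {B : Finset α} {y : α} (hy : y ∉ B) {D : List α} (hD : D ∈ perms B)
    {k : ℕ} (hk : k ≤ B.card) : infl K B y (D.insertIdx k y) = K.inf y D k := by
  have hall : ∀ b ∈ D, b ∈ B := fun b hb => (mem_iff_of_mem_perms hD b).1 hb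
  have hyD : y ∉ D := fun h => hy (hall y h)
  have hlen := length_of_mem_perms hD
  have h1 : (D.insertIdx k y).filter (· ∈ B) = D := by
    rw [Count_filter_insertIdx hy, List.filter_eq_self]
    intro b hb
    simpa using hall b hb
  have h2 : gap B y (D.insertIdx k y) = k := by
    unfold gap
    rw [Count2_takeWhile_insertIdx D hyD k (by omega)]
    have h3 : (D.take k).filter (· ∈ B) = D.take k := by
      rw [List.filter_eq_self]
      intro b hb
      simpa using hall b (List.mem_of_mem_take hb)
    rw [h3, List.length_take]
    omega
  unfold infl
  rw [h1, h2]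

theorem count_left {B T : Finset α} {y : α} (hM : 1 ≤ M) (hB : B.card = 5 * M - 1) (hy : y ∉ B)
    (hT : insert y B ⊆ T) :
    Fintype.card G * ((perms T).filter (fun l => (infl K B y l).2 = false)).card =
      T.card.factorial := by
  have hA : (insert y B).card = 5 * M := by
    rw [Finset.card_insert_of_notMem hy]
    omega
  have h1 := card_perms_restrict hT (fun l => (infl K B y l).2 = false)
  simp only [Count2_infl_filter] at h1
  have h2 := card_perms_insert hy (fun l => (infl K B y l).2 = false)
  have h3 : ∑ k ∈ range (B.card + 1),
      ((perms B).filter (fun l => (infl K B y (l.insertIdx k y)).2 = false)).card =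
      ∑ D ∈ perms B, ((range (5 * M)).filter (fun t => (K.inf y D t).2 = false)).card := by
    have h4 : B.card + 1 = 5 * M := by omega
    simp only [Finset.card_filter]
    rw [h4, Finset.sum_comm]
    refine Finset.sum_congr rfl fun D hD => Finset.sum_congr rfl fun k hk => ?_
    rw [Count2_infl_insertIdx K hy hD (by have := Finset.mem_range.1 hk; omega)]
  have h5 := K.card_left hM B hB y
  rw [h2, h3, hA] at h1
  apply Nat.eq_of_mul_eq_mul_right (Nat.factorial_pos (5 * M))
  calc _ = Fintype.card G * (T.card.factorial *
        ∑ D ∈ perms B, ((range (5 * M)).filter (fun t => (K.inf y D t).2 = false)).card) := by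
        rw [mul_assoc, h1]
    _ = T.card.factorial * (Fintype.card G *
        ∑ D ∈ perms B, ((range (5 * M)).filter (fun t => (K.inf y D t).2 = false)).card) := by
        ring
    _ = _ := by rw [h5]

theorem count_level {B T : Finset α} (hM : 1 ≤ M) (hB : B.card = 5 * M - 1) (hT : B ⊆ T) (h : G) :
    Fintype.card G * ((perms T).filter (fun l => K.Phi (l.filter (· ∈ B)) = h)).card =
      T.card.factorial := by
  have h1 := card_perms_restrict hT (fun l => K.Phi l = h)
  have h5 := K.card_level hM B hB h
  apply Nat.eq_of_mul_eq_mul_right (Nat.factorial_pos B.card)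
  calc _ = Fintype.card G * (T.card.factorial * ((perms B).filter (fun D => K.Phi D = h)).card) := by
        rw [mul_assoc, h1]
    _ = T.card.factorial * (Fintype.card G * ((perms B).filter (fun D => K.Phi D = h)).card) := by
        ring
    _ = _ := by rw [h5]

end Pool.Agent.Lib.MP_e0d433_co
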