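import Mathlib

/-!
# MP_e0d433_co: superpermutations, basic definitions
-/

namespace Pool.Agent.Lib.MP_e0d433_co

/-- `w` is a superpermutation on the alphabet `Fin n`: every permutation of the alphabet
(a word of length `n` without repeated letters) is a block of consecutive letters of `w`. -/
def IsSuperperm (n : ℕ) (w : List (Fin n)) : Prop :=
  ∀ p : List (Fin n), p.Nodup → p.length = n → p <:+: w

/-- `L(n)`, the minimum length of a superpermutation on `n` symbols. -/
noncomputable def superLen (n : ℕ) : ℕ :=
  sInf {k : ℕ | ∃ w : List (Fin n), IsSuperperm n w ∧ w.length = k}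

variable {α : Type*} [DecidableEq α]

/-- The finite set of all orderings (lists without repetition) of the finite set `S`. -/
def perms (S : Finset α) : Finset (List α) := (Multiset.lists S.val).toFinset

theorem mem_perms_iff_coe {S : Finset α} {l : List α} :
    l ∈ perms S ↔ (l : Multiset α) = S.val := by
  rw [perms, Multiset.mem_toFinset, Multiset.mem_lists_iff]
  exact eq_comm

theorem mem_perms {S : Finset α} {l : List α} :
    l ∈ perms S ↔ l.Nodup ∧ l.toFinset = S := by
  rw [mem_perms_iff_coe]
  constructor
  · intro h
    have hn : l.Nodup := by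
      have := S.nodup
      rw [← h] at this
      exact Multiset.coe_nodup.1 this
    refine ⟨hn, ?_⟩
    ext a
    rw [List.mem_toFinset, ← Multiset.mem_coe, h, Finset.mem_val]
  · rintro ⟨hn, rfl⟩
    rw [List.toFinset_val, hn.dedup]

theorem nodup_of_mem_perms {S : Finset α} {l : List α} (h : l ∈ perms S) : l.Nodup :=
  (mem_perms.1 h).1

theorem mem_iff_of_mem_perms {S : Finset α} {l : List α} (h : l ∈ perms S) (a : α) :
    a ∈ l ↔ a ∈ S := by
  rw [← (mem_perms.1 h).2, List.mem_toFinset]

theorem length_of_mem_perms {S : Finset α} {l : List α} (h : l ∈ perms S) :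
    l.length = S.card := by
  have := congrArg Multiset.card (mem_perms_iff_coe.1 h)
  simpa using this

theorem perm_mem_perms {S : Finset α} {l l' : List α} (h : l ∈ perms S) (hp : l'.Perm l) :
    l' ∈ perms S := by
  rw [mem_perms_iff_coe] at h ⊢
  rw [← h]
  exact Quotient.sound hp

theorem perms_perm {S : Finset α} {l l' : List α} (h : l ∈ perms S) (h' : l' ∈ perms S) :
    l.Perm l' := by
  rw [mem_perms_iff_coe] at h h'
  exact Quotient.exact (h.trans h'.symm)

end Pool.Agent.Lib.MP_e0d433_co
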