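import Pool.Agent.Lib.MP_e0d433_co.Code

/-!
# MP_e0d433_co: the mover of an anchored word

`l` is a word without repetition which contains the letters of `B` and the runner `y` (and possibly
other, passive letters); it stands for the cyclic word `z l`.  `D = l.filter (· ∈ B)` is an
ordering of `B`, `B.card = 5 M - 1`; `t < 5 M` is the number of letters of `B` before `y`.

TASK I1.  The statements of `infl_mem`, `infl_left`, `infl_switch`, `infl_wrap` must stay; helper
lemmas may be added freely (use `Code.phi_swap` from `Code.lean`).

## Proof of `infl_switch`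
Let `l = l₁ ++ b :: c :: l₂`, `l' = l₁ ++ c :: b :: l₂`, with data `(D, t)`, `(D', t')`.
If `b` or `c` is passive (not in `B`, not `y`) then `(D', t') = (D, t)` and nothing changes.
Otherwise:
* `b = y`, `c = D[t] ∈ B`: `(D', t') = (D, t + 1)`.  The mover of `l` is `(y, true)` or `(c, false)`.
  - `(y, true)`: then `Phi D = X g ≠ 0`, `t ≠ 5 g + 4`, `t ≠ 5 (g+1) % (5 M)`, `t + 1 < 5 M`.
    If `t + 1 = 5 g + 4` the new mover is `(D[t], false) = (c, false)`.  The case
    `t + 1 = 5 (g + 1) % (5 M)` is impossible (it would give `t + 1 = 5 g + 5`, `t = 5 g + 4`, or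
    `t + 1 = 0`).  Otherwise the new mover is `(y, true)`.
  - `(c, false)`, `c = D[t]`: if it comes from the first clause `D[t - 1]`, impossible (no repetition).
    So `t = 5 (g + 1) % (5 M)`, and `t + 1` is neither `5 g + 4` nor `5 (g+1) % (5M)`
    (look mod 5), so the new mover is `(y, true) = (b, true)`.
    (If `Phi D = 0` the direction left means mover `y ≠ c`.)
* `c = y`, `b = D[t - 1]`: `(D', t') = (D, t - 1)`.  The mover of `l` is `(b, true)` or `(y, false)`.
  - `(b, true)`: `Phi D = 0` and `b = D[t-1]`, so `t % 5 = 4` (the clause `D[t]`, `t % 5 = 0`, gives a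
    different letter; for `Phi D ≠ 0` direction right is only for `y`).  New: `t - 1 ≡ 3`, mover
    `(y, false) = (c, false)`.
  - `(y, false)`: `Phi D = 0`, `t % 5 ∈ {1,2,3}`; new `t - 1`: mover `(y, false)` or, if
    `(t - 1) % 5 = 0`, `(D[t-1], true) = (b, true)`.
* `b, c ∈ B`: `b = D[i]`, `c = D[i+1]`, `t ≤ i` or `t ≥ i + 2`, `D' = swp i D`, `t' = t`.
  - mover `(b, true)`, `b = D[i]`: `Phi D = 0`; either `t % 5 = 0`, `i = t`, or `t % 5 = 4`, `i = t - 1`:
    the second contradicts `t ≤ i` or `t ≥ i + 2`.  So `i = t = 5 g`: `Phi D' = wt (5 g) =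
    X ((g + M - 1) % M) ≠ 0`, put `g' = (g + M - 1) % M`; `5 (g' + 1) % (5 M) = 5 g = t`, so the new
    mover is `(D'[t], false) = (c, false)`.
  - mover `(c, false)`, `c = D[i + 1]`: `Phi D = X g`; either `t = 5 g + 4`, `i + 1 = t - 1`, so
    `i = 5 g + 2`: `Phi D' = X g + X g = 0`, `t % 5 = 4`, new mover
    `(D'[t - 1], true) = (b, true)`; or `t = 5 (g+1) % (5 M)`, `i + 1 = t`, impossible.

`infl_wrap`: `l ++ [b]`, mover `(b, true)`: if `b = y` then `t = 5 M - 1`, `Phi D = X g` and the mover
of `y :: l`, with `t' = 0`, is `(y, true)`: `t' ≠ 5 g + 4`, and `0 = 5 (g+1) % (5 M)` would mean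
`g = M - 1`, but then `t = 5 M - 1 = 5 g + 4`, contradiction.  If `b ∈ B` then `b = D[5M - 2]` is the
last letter of `D`, `Phi D = 0`, and `b = D[t]`, `t % 5 = 0` is impossible, and `b = D[t - 1]` means
`t = 5 M - 1`, so that `y` comes after `b`, impossible.
`infl_left`: if the mover is `(y, false)` then `Phi D = 0`, `t % 5 ∈ {1,2,3}`, so there are letters of
`B` before and after `y` (`1 ≤ t ≤ 5 M - 2`).  If the mover is `(D[t-1], false)`, `t = 5 g + 4`, then
`y` comes after it and `D[t-2]` before it.  If it is `(D[t], false)`, `t = 5 (g+1) % (5M)`,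
then `y` is before and `D[t + 1]` after it (`t ≤ 5 M - 5`).
-/

namespace Pool.Agent.Lib.MP_e0d433_co

variable {G : Type*} [AddCommGroup G] [DecidableEq G] {M : ℕ} (K : Code G M)
variable {α : Type*} [LinearOrder α]

/-- The number of letters of `B` before `y`. -/
def gap (B : Finset α) (y : α) (l : List α) : ℕ :=
  ((l.takeWhile (· ≠ y)).filter (· ∈ B)).length

/-- The mover of an anchored word. -/
def infl (B : Finset α) (y : α) (l : List α) : α × Bool :=
  K.inf y (l.filter (· ∈ B)) (gap B y l)

/-- `l` has no repetitions and contains the letters of `B` and `y`. -/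
def Full (B : Finset α) (y : α) (l : List α) : Prop :=
  l.Nodup ∧ y ∈ l ∧ ∀ b ∈ B, b ∈ l


/-! ### The base mover -/

section Base

theorem Infl_ix_lt {D : List α} (h : K.Phi D ≠ 0) : K.ix (K.Phi D) < M := K.ix_lt _ h

theorem Infl_mod (M g : ℕ) : 5 * (g + 1) % (5 * M) = 5 * ((g + 1) % M) := Nat.mul_mod_mul_left _ _ _

/-- Case `b = y`. -/
theorem Infl_up (hM : 2 ≤ M) {D : List α} {y c : α} {t : ℕ} (hn : D.Nodup) (hy : y ∉ D)
    (hlen : D.length = 5 * M - 1) (ht : t + 1 ≤ 5 * M - 1) (hc : D[t]? = some c)
    (h : K.inf y D t = (y, true) ∨ K.inf y D t = (c, false)) :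
    K.inf y D (t + 1) = (y, true) ∨ K.inf y D (t + 1) = (c, false) := by
  have hcD : D.getD t y = c := by rw [List.getD_eq_getElem?_getD, hc]; rfl
  have hcy : c ≠ y := fun e => hy (e ▸ List.mem_of_getElem? hc)
  by_cases h0 : K.Phi D = 0
  · exfalso
    simp only [Code.inf, h0, if_true] at h
    split_ifs at h with h1 h2
    · rw [hcD] at h
      simp [Prod.ext_iff, hcy] at h
    · have : D.getD (t - 1) y ≠ y := by
        intro e
        have hlt : t - 1 < D.length := by omega
        rw [List.getD_eq_getElem _ _ hlt] at e
        exact hy (e ▸ List.getElem_mem hlt)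
      rcases h with h | h
      · exact this (Prod.ext_iff.1 h).1
      · exact absurd (Prod.ext_iff.1 h).2 (by simp)
    · rcases h with h | h
      · exact absurd (Prod.ext_iff.1 h).2 (by simp)
      · exact hcy (Prod.ext_iff.1 h).1.symm
  · have hix := K.ix_lt _ h0
    set g := K.ix (K.Phi D) with hg
    have hmod := Infl_mod M g
    set r := (g + 1) % M with hr
    have hrM : r < M := Nat.mod_lt _ (by omega)
    have hrg : r = g + 1 ∨ (r = 0 ∧ g = M - 1) := by
      rcases Nat.lt_or_ge (g + 1) M with h' | h'
      · left; exact Nat.mod_eq_of_lt h'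
      · right
        have : g + 1 = M := by omega
        exact ⟨by rw [hr, this, Nat.mod_self], by omega⟩
    simp only [Code.inf, h0, if_false, ← hg, hmod] at h ⊢
    by_cases h1 : t = 5 * g + 4
    · exfalso
      rw [if_pos h1] at h
      rcases h with h | h
      · simp [Prod.ext_iff] at h
      · have e : D.getD (t - 1) y = c := (Prod.ext_iff.1 h).1
        have hlt : t - 1 < D.length := by omega
        have hlt' : t < D.length := by omega
        rw [List.getD_eq_getElem _ _ hlt] at e
        have hc' : D[t] = c := by
          rw [List.getElem?_eq_getElem hlt'] at hc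
          exact Option.some.inj hc
        have := (List.Nodup.getElem_inj_iff hn).1 (e.trans hc'.symm)
        omega
    · rw [if_neg h1] at h
      by_cases h2 : t = 5 * r
      · rw [if_neg (by omega), if_neg (by omega)]
        left; rfl
      · rw [if_neg h2] at h
        by_cases h3 : t + 1 = 5 * g + 4
        · rw [if_pos h3]
          right
          rw [Nat.add_sub_cancel, hcD]
        · rw [if_neg h3, if_neg (by omega)]
          left; rfl

/-- Case `c = y`. -/
theorem Infl_down (hM : 2 ≤ M) {D : List α} {y b : α} {t : ℕ} (hn : D.Nodup) (hy : y ∉ D)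
    (hlen : D.length = 5 * M - 1) (ht : t + 1 ≤ 5 * M - 1) (hb : D[t]? = some b)
    (h : K.inf y D (t + 1) = (b, true) ∨ K.inf y D (t + 1) = (y, false)) :
    K.inf y D t = (b, true) ∨ K.inf y D t = (y, false) := by
  have hbD : D.getD t y = b := by rw [List.getD_eq_getElem?_getD, hb]; rfl
  have hby : b ≠ y := fun e => hy (e ▸ List.mem_of_getElem? hb)
  by_cases h0 : K.Phi D = 0
  · simp only [Code.inf, h0, if_true] at h ⊢
    by_cases h1 : (t + 1) % 5 = 0
    · exfalso
      rw [if_pos h1] at h
      have hlt : t < D.length := by omega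
      have hb' : D[t] = b := by
        rw [List.getElem?_eq_getElem hlt] at hb
        exact Option.some.inj hb
      rcases h with h | h
      · have e : D.getD (t + 1) y = b := (Prod.ext_iff.1 h).1
        rcases Nat.lt_or_ge (t + 1) D.length with hl | hl
        · rw [List.getD_eq_getElem _ _ hl] at e
          have := (List.Nodup.getElem_inj_iff hn).1 (e.trans hb'.symm)
          omega
        · rw [List.getD_eq_default _ _ hl] at e
          exact hby e.symm
      · simp [Prod.ext_iff] at h
    · rw [if_neg h1] at h
      by_cases h2 : (t + 1) % 5 = 4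
      · rw [if_neg (by omega), if_neg (by omega)]
        right; rfl
      · rw [if_neg h2] at h
        by_cases h3 : t % 5 = 0
        · rw [if_pos h3, hbD]
          left; rfl
        · rw [if_neg h3, if_neg (by omega)]
          right; rfl
  · exfalso
    simp only [Code.inf, h0, if_false, Nat.add_sub_cancel, hbD] at h
    split_ifs at h with h1 h2
    · simp [Prod.ext_iff, hby] at h
    · have hlt : t + 1 < D.length := by
        have := K.ix_lt _ h0
        have hmod := Infl_mod M (K.ix (K.Phi D))
        have hrM : (K.ix (K.Phi D) + 1) % M < M := Nat.mod_lt _ (by omega)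
        omega
      have e : D.getD (t + 1) y ≠ y := by
        intro e
        rw [List.getD_eq_getElem _ _ hlt] at e
        exact hy (e ▸ List.getElem_mem hlt)
      rcases h with h | h
      · exact absurd (Prod.ext_iff.1 h).2 (by simp)
      · exact e (Prod.ext_iff.1 h).1
    · rcases h with h | h
      · exact hby (Prod.ext_iff.1 h).1.symm
      · exact absurd (Prod.ext_iff.1 h).2 (by simp)

/-- Case `b, c ∈ B`. -/
theorem Infl_swap (hM : 2 ≤ M) {P Q : List α} {y b c : α} {t : ℕ} (hn : (P ++ b :: c :: Q).Nodup)
    (hy : y ∉ P ++ b :: c :: Q)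
    (hlen : (P ++ b :: c :: Q).length = 5 * M - 1)
    (hti : t ≤ P.length ∨ P.length + 2 ≤ t)
    (h : K.inf y (P ++ b :: c :: Q) t = (b, true) ∨ K.inf y (P ++ b :: c :: Q) t = (c, false)) :
    K.inf y (P ++ c :: b :: Q) t = (b, true) ∨ K.inf y (P ++ c :: b :: Q) t = (c, false) := by
  set D := P ++ b :: c :: Q with hD
  set D' := P ++ c :: b :: Q with hD'
  have hbc : b ≠ c := by
    intro e
    rw [hD, e] at hn
    have := (List.nodup_append.1 hn).2.1
    simp at this
  have hby : b ≠ y := by rintro rfl; exact hy (by simp [hD])
  have hcy : c ≠ y := by rintro rfl; exact hy (by simp [hD])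
  have hib : D[P.length]? = some b := by simp [hD]
  have hic : D[P.length + 1]? = some c := by
    rw [hD, List.getElem?_append_right (by omega)]
    simp
  have hib' : D'[P.length]? = some c := by simp [hD']
  have hic' : D'[P.length + 1]? = some b := by
    rw [hD', List.getElem?_append_right (by omega)]
    simp
  have hlP : P.length + 1 < D.length := by simp [hD]
  have inj : ∀ {i j : ℕ} {x : α}, D.getD i y = x → D[j]? = some x → i = j := by
    intro i j x hi hj
    have hjl : j < D.length := by
      by_contra hge
      rw [List.getElem?_eq_none (by omega)] at hj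
      exact absurd hj (by simp)
    have hxy : x ≠ y := by
      rintro rfl
      exact hy (List.mem_of_getElem? hj)
    have hil : i < D.length := by
      by_contra hge
      rw [List.getD_eq_default _ _ (by omega)] at hi
      exact hxy hi.symm
    rw [List.getD_eq_getElem _ _ hil] at hi
    rw [List.getElem?_eq_getElem hjl] at hj
    exact (List.Nodup.getElem_inj_iff hn).1 (hi.trans (Option.some.inj hj).symm)
  rcases h with h | h
  · -- mover `(b, true)`
    by_cases h0 : K.Phi D = 0
    · simp only [Code.inf, h0, if_true] at h
      by_cases h1 : t % 5 = 0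
      · rw [if_pos h1] at h
        have e := inj (Prod.ext_iff.1 h).1 hib
        have hphi : K.Phi D' = K.wt P.length := by
          rw [hD', K.phi_swap hbc (Or.inl (by omega)), ← hD, h0, zero_add]
        have hwt : K.wt P.length = K.X ((P.length / 5 + M - 1) % M) := by
          rw [Code.wt, if_pos (by omega)]
        have hgM : (P.length / 5 + M - 1) % M < M := Nat.mod_lt _ (by omega)
        have hne : K.Phi D' ≠ 0 := by
          rw [hphi, hwt]
          exact K.X_ne _ hgM
        have hix : K.ix (K.Phi D') = (P.length / 5 + M - 1) % M := by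
          rw [hphi, hwt, K.ix_X _ hgM]
        have hk : P.length / 5 < M := by omega
        have hg1 : ((P.length / 5 + M - 1) % M + 1) % M = P.length / 5 := by
          rw [Nat.mod_add_mod, show P.length / 5 + M - 1 + 1 = P.length / 5 + M from by omega,
            Nat.add_mod_right, Nat.mod_eq_of_lt hk]
        right
        simp only [Code.inf, hne, if_false, hix, Infl_mod, hg1]
        have ht5 : t = 5 * (P.length / 5) := by omega
        rw [if_neg (by omega), if_pos ht5, e, List.getD_eq_getElem?_getD, hib']
        rfl
      · rw [if_neg h1] at h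
        split_ifs at h with h2
        · have e := inj (Prod.ext_iff.1 h).1 hib
          omega
        · exact absurd (Prod.ext_iff.1 h).2 (by simp)
    · exfalso
      simp only [Code.inf, h0, if_false] at h
      split_ifs at h with h1 h2
      · exact absurd (Prod.ext_iff.1 h).2 (by simp)
      · exact absurd (Prod.ext_iff.1 h).2 (by simp)
      · exact hby (Prod.ext_iff.1 h).1.symm
  · -- mover `(c, false)`
    by_cases h0 : K.Phi D = 0
    · exfalso
      simp only [Code.inf, h0, if_true] at h
      split_ifs at h with h1 h2
      · exact absurd (Prod.ext_iff.1 h).2 (by simp)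
      · exact absurd (Prod.ext_iff.1 h).2 (by simp)
      · exact hcy (Prod.ext_iff.1 h).1.symm
    · have hixM := K.ix_lt _ h0
      have hmod := Infl_mod M (K.ix (K.Phi D))
      have hrM : (K.ix (K.Phi D) + 1) % M < M := Nat.mod_lt _ (by omega)
      simp only [Code.inf, h0, if_false] at h
      split_ifs at h with h1 h2
      · have e := inj (Prod.ext_iff.1 h).1 hic
        have hlen5 : P.length = 5 * K.ix (K.Phi D) + 2 := by omega
        have hphi : K.Phi D' = 0 := by
          have hwt : K.wt P.length = K.Phi D := by
            rw [Code.wt, if_neg (by omega), if_pos (by omega),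
              show P.length / 5 = K.ix (K.Phi D) from by omega, K.X_ix _ h0]
          rw [hD', K.phi_swap hbc (Or.inr (by omega)), ← hD, hwt, K.two]
        left
        simp only [Code.inf, hphi, if_true]
        rw [if_neg (by omega), if_pos (by omega), e, List.getD_eq_getElem?_getD, hic']
        rfl
      · have e := inj (Prod.ext_iff.1 h).1 hic
        omega
      · exact absurd (Prod.ext_iff.1 h).2 (by simp)

theorem Infl_wrap_base (hM : 2 ≤ M) {D : List α} {y : α} (h : K.inf y D (5 * M - 1) = (y, true))
    (hy : y ∉ D) (hlen : D.length = 5 * M - 1) :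
    K.inf y D 0 = (y, true) := by
  by_cases h0 : K.Phi D = 0
  · exfalso
    simp only [Code.inf, h0, if_true] at h
    rw [if_neg (by omega), if_pos (by omega)] at h
    have e := (Prod.ext_iff.1 h).1
    have hlt : 5 * M - 1 - 1 < D.length := by omega
    simp only at e
    rw [List.getD_eq_getElem _ _ hlt] at e
    exact hy (e ▸ List.getElem_mem hlt)
  · have hixM := K.ix_lt _ h0
    have hmod := Infl_mod M (K.ix (K.Phi D))
    simp only [Code.inf, h0, if_false] at h ⊢
    split_ifs at h with h1 h2
    · exact absurd (Prod.ext_iff.1 h).2 (by simp)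
    · exact absurd (Prod.ext_iff.1 h).2 (by simp)
    · rw [if_neg (by omega), if_neg]
      intro h3
      rw [hmod] at h3
      have h4 : (K.ix (K.Phi D) + 1) % M = 0 := by omega
      have h5 : M ∣ K.ix (K.Phi D) + 1 := Nat.dvd_of_mod_eq_zero h4
      have h6 := Nat.le_of_dvd (by omega) h5
      omega

end Base

variable {B : Finset α} {y : α}

theorem Infl_gap {p q : List α} (h : y ∉ p) :
    gap B y (p ++ y :: q) = (p.filter (· ∈ B)).length := by
  unfold gap
  rw [List.takeWhile_append_of_pos]
  · simp
  · intro x hx
    have : x ≠ y := fun e => h (e ▸ hx)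
    simpa using this

theorem Infl_filter {p q : List α} (hy : y ∉ B) :
    (p ++ y :: q).filter (· ∈ B) = p.filter (· ∈ B) ++ q.filter (· ∈ B) := by
  rw [List.filter_append, List.filter_cons_of_neg (by simpa using hy)]

theorem Infl_len {l : List α} (hB : B.card = 5 * M - 1) (hl : Full B y l) :
    (l.filter (· ∈ B)).length = 5 * M - 1 := by
  have h1 : (l.filter (· ∈ B)).Nodup := hl.1.filter _
  have h2 : (l.filter (· ∈ B)).toFinset = B := by
    ext x
    simp only [List.mem_toFinset, List.mem_filter, decide_eq_true_eq]
    exact ⟨fun h => h.2, fun h => ⟨hl.2.2 x h, h⟩⟩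
  rw [← List.toFinset_card_of_nodup h1, h2, hB]

theorem Infl_notMem {l : List α} (hy : y ∉ B) : y ∉ l.filter (· ∈ B) := by
  simp [hy]

theorem Infl_split {l : List α} (hl : Full B y l) :
    ∃ p q, l = p ++ y :: q ∧ y ∉ p ∧ y ∉ q := by
  obtain ⟨p, q, rfl⟩ := List.append_of_mem hl.2.1
  have h := List.nodup_append.1 hl.1
  refine ⟨p, q, rfl, ?_, (List.nodup_cons.1 h.2.1).1⟩
  intro hp
  exact h.2.2 y hp y (List.mem_cons_self) rfl

theorem Infl_getD_mem {D : List α} {i : ℕ} : D.getD i y = y ∨ D.getD i y ∈ D := by
  rcases Nat.lt_or_ge i D.length with h | h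
  · right
    rw [List.getD_eq_getElem _ _ h]
    exact List.getElem_mem h
  · left
    exact List.getD_eq_default _ _ h

theorem infl_mem (hB : B.card = 5 * M - 1) (hM : 2 ≤ M) (hy : y ∉ B) {l : List α}
    (hl : Full B y l) : (infl K B y l).1 ∈ insert y B := by
  have key : ∀ i, (l.filter (· ∈ B)).getD i y ∈ insert y B := by
    intro i
    rcases Infl_getD_mem (y := y) (D := l.filter (· ∈ B)) (i := i) with h | h
    · rw [h]; exact Finset.mem_insert_self _ _
    · have := (List.mem_filter.1 h).2
      exact Finset.mem_insert_of_mem (by simpa using this)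
  unfold infl Code.inf
  split_ifs
  · exact key _
  · exact key _
  · exact Finset.mem_insert_self _ _
  · exact key _
  · exact key _
  · exact Finset.mem_insert_self _ _

theorem infl_left (hB : B.card = 5 * M - 1) (hM : 2 ≤ M) (hy : y ∉ B) {l : List α}
    (hl : Full B y l) (h : (infl K B y l).2 = false) :
    l.head? ≠ some (infl K B y l).1 ∧ l.getLast? ≠ some (infl K B y l).1 := by
  obtain ⟨p, q, rfl, hp, hq⟩ := Infl_split hl
  have hlen := Infl_len hB hl
  have hD := Infl_filter (p := p) (q := q) (B := B) hy
  have hgap := Infl_gap (B := B) (q := q) hp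
  have hn := hl.1
  have hdis := (List.nodup_append.1 hn).2.2
  have hPQ : (p.filter (· ∈ B)).length + (q.filter (· ∈ B)).length = 5 * M - 1 := by
    rw [← hlen, hD, List.length_append]
  have hnD : (p.filter (· ∈ B) ++ q.filter (· ∈ B)).Nodup := by
    rw [← hD]; exact hn.filter _
  set P := p.filter (· ∈ B) with hP
  set Q := q.filter (· ∈ B) with hQ
  have hinf : infl K B y (p ++ y :: q) = K.inf y (P ++ Q) P.length := by
    rw [infl, hD, hgap]
  rw [hinf] at h ⊢
  have notP : P ≠ [] → ∀ c, c = y ∨ c ∈ q → (p ++ y :: q).head? ≠ some c := by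
    intro hne c hc he
    have hpne : p ≠ [] := by
      rintro rfl
      exact hne (by simp [hP])
    obtain ⟨a, p', rfl⟩ := List.exists_cons_of_ne_nil hpne
    simp only [List.cons_append, List.head?_cons, Option.some.injEq] at he
    subst he
    rcases hc with rfl | hc
    · exact hp List.mem_cons_self
    · exact hdis a List.mem_cons_self a (List.mem_cons_of_mem _ hc) rfl
  have notQ : Q ≠ [] → ∀ c, c = y ∨ c ∈ p → (p ++ y :: q).getLast? ≠ some c := by
    intro hne c hc he
    have hqne : q ≠ [] := by
      rintro rfl
      exact hne (by simp [hQ])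
    have hc' : c ∈ q := by
      rw [List.getLast?_append_of_ne_nil _ (by simp), List.getLast?_cons_of_ne_nil hqne] at he
      exact List.mem_of_getLast? he
    rcases hc with rfl | hc
    · exact hq hc'
    · exact hdis c hc c (List.mem_cons_of_mem _ hc') rfl
  by_cases h0 : K.Phi (P ++ Q) = 0
  · simp only [Code.inf, h0, if_true] at h ⊢
    by_cases h1 : P.length % 5 = 0
    · rw [if_pos h1] at h; simp at h
    · rw [if_neg h1] at h ⊢
      by_cases h2 : P.length % 5 = 4
      · rw [if_pos h2] at h; simp at h
      · rw [if_neg h2]
        have hP0 : P ≠ [] := by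
          intro e; rw [e] at h1; simp at h1
        have hQ0 : Q ≠ [] := by
          intro e; rw [e] at hPQ; simp only [List.length_nil] at hPQ; omega
        exact ⟨notP hP0 y (Or.inl rfl), notQ hQ0 y (Or.inl rfl)⟩
  · have hixM := K.ix_lt _ h0
    have hmod := Infl_mod M (K.ix (K.Phi (P ++ Q)))
    have hrM : (K.ix (K.Phi (P ++ Q)) + 1) % M < M := Nat.mod_lt _ (by omega)
    simp only [Code.inf, h0, if_false] at h ⊢
    by_cases h1 : P.length = 5 * K.ix (K.Phi (P ++ Q)) + 4
    · rw [if_pos h1]
      have hlt : P.length - 1 < P.length := by omega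
      have hval : (P ++ Q).getD (P.length - 1) y = P[P.length - 1] := by
        rw [List.getD_eq_getElem _ _ (by simp; omega), List.getElem_append_left hlt]
      have hmem : P[P.length - 1] ∈ p := (List.mem_filter.1 (List.getElem_mem hlt)).1
      simp only [hval]
      constructor
      · intro he
        have hpne : p ≠ [] := by
          rintro rfl
          simp at hmem
        obtain ⟨a, p', rfl⟩ := List.exists_cons_of_ne_nil hpne
        simp only [List.cons_append, List.head?_cons, Option.some.injEq] at he
        have haB : a ∈ B := by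
          have := (List.mem_filter.1 (List.getElem_mem hlt)).2
          rw [← he] at this
          simpa using this
        have hP' : P = a :: p'.filter (· ∈ B) := by
          rw [hP, List.filter_cons_of_pos (by simpa using haB)]
        have h00 : (0 : ℕ) < P.length := by omega
        have e0 : P[0] = a := by simp [hP']
        have hnP : P.Nodup := (List.nodup_append.1 hnD).1
        have := (List.Nodup.getElem_inj_iff hnP).1 (e0.trans he)
        omega
      · intro he
        have : P[P.length - 1] ∈ y :: q := by
          rw [List.getLast?_append_of_ne_nil _ (by simp)] at he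
          exact List.mem_of_getLast? he
        exact hdis _ hmem _ this rfl
    · rw [if_neg h1] at h ⊢
      by_cases h2 : P.length = 5 * (K.ix (K.Phi (P ++ Q)) + 1) % (5 * M)
      · rw [if_pos h2]
        have hQ4 : 4 ≤ Q.length := by omega
        have hQ0 : 0 < Q.length := by omega
        have hval : (P ++ Q).getD P.length y = Q[0] := by
          rw [List.getD_eq_getElem _ _ (by simp; omega)]
          simp
        have hmem : Q[0] ∈ q := (List.mem_filter.1 (List.getElem_mem hQ0)).1
        simp only [hval]
        constructor
        · intro he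
          have : Q[0] ∈ p ++ [y] := by
            cases hpp : p with
            | nil =>
              rw [hpp] at he
              simp only [List.nil_append, List.head?_cons, Option.some.injEq] at he
              simp [← he]
            | cons a p' =>
              rw [hpp] at he
              simp only [List.cons_append, List.head?_cons, Option.some.injEq] at he
              simp [← he]
          rcases List.mem_append.1 this with h3 | h3
          · exact hdis _ h3 _ (List.mem_cons_of_mem _ hmem) rfl
          · rw [List.mem_singleton] at h3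
            exact hq (h3 ▸ hmem)
        · intro he
          have hqne : q ≠ [] := by
            rintro rfl
            simp at hmem
          rw [List.getLast?_append_of_ne_nil _ (by simp), List.getLast?_cons_of_ne_nil hqne] at he
          obtain ⟨q', a, rfl⟩ : ∃ q' a, q = q' ++ [a] :=
            ⟨q.dropLast, q.getLast hqne, (List.dropLast_append_getLast hqne).symm⟩
          simp only [List.getLast?_append_of_ne_nil _ (List.cons_ne_nil a []),
            List.getLast?_singleton, Option.some.injEq] at he
          have haB : a ∈ B := by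
            have := (List.mem_filter.1 (List.getElem_mem hQ0)).2
            rw [← he] at this
            simpa using this
          have hQ' : Q = q'.filter (· ∈ B) ++ [a] := by
            rw [hQ, List.filter_append, List.filter_cons_of_pos (by simpa using haB)]
            rfl
          have hl' : (q'.filter (· ∈ B)).length + 1 = Q.length := by rw [hQ']; simp
          have hlast : Q[Q.length - 1]'(by omega) = a := by
            have h6 : Q[Q.length - 1]? = some a := by
              rw [← hl', Nat.add_sub_cancel, hQ']
              simp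
            rw [List.getElem?_eq_getElem (by omega)] at h6
            exact Option.some.inj h6
          have hnQ : Q.Nodup := (List.nodup_append.1 hnD).2.1
          have := (List.Nodup.getElem_inj_iff hnQ).1 (hlast.trans he)
          omega
      · rw [if_neg h2] at h; simp at h

theorem infl_switch (hB : B.card = 5 * M - 1) (hM : 2 ≤ M) (hy : y ∉ B) {l₁ l₂ : List α} {b c : α}
    (hl : Full B y (l₁ ++ b :: c :: l₂))
    (h : infl K B y (l₁ ++ b :: c :: l₂) = (b, true) ∨
      infl K B y (l₁ ++ b :: c :: l₂) = (c, false)) :
    infl K B y (l₁ ++ c :: b :: l₂) = (b, true) ∨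
      infl K B y (l₁ ++ c :: b :: l₂) = (c, false) := by
  have hlen := Infl_len hB hl
  have hn := hl.1
  have hnD : ((l₁ ++ b :: c :: l₂).filter (· ∈ B)).Nodup := hn.filter _
  have hyD := Infl_notMem (l := l₁ ++ b :: c :: l₂) hy
  have hdis := (List.nodup_append.1 hn).2.2
  have hbc : b ≠ c := by
    have := (List.nodup_append.1 hn).2.1
    intro e
    rw [e] at this
    simp at this
  by_cases hb : b = y
  · subst hb
    have hy1 : b ∉ l₁ := fun h' => hdis b h' b List.mem_cons_self rfl
    have hg := Infl_gap (B := B) (q := c :: l₂) hy1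
    by_cases hcB : c ∈ B
    · have hf : (l₁ ++ b :: c :: l₂).filter (· ∈ B) =
          l₁.filter (· ∈ B) ++ c :: l₂.filter (· ∈ B) := by
        rw [Infl_filter hy, List.filter_cons_of_pos (by simpa using hcB)]
      have hf' : (l₁ ++ c :: b :: l₂).filter (· ∈ B) =
          l₁.filter (· ∈ B) ++ c :: l₂.filter (· ∈ B) := by
        rw [List.filter_append, List.filter_cons_of_pos (by simpa using hcB),
          List.filter_cons_of_neg (by simpa using hy)]
      have hg' : gap B b (l₁ ++ c :: b :: l₂) = (l₁.filter (· ∈ B)).length + 1 := by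
        rw [show l₁ ++ c :: b :: l₂ = (l₁ ++ [c]) ++ b :: l₂ from by simp,
          Infl_gap (by simp [hy1, hbc]), List.filter_append,
          List.filter_cons_of_pos (by simpa using hcB)]
        simp
      rw [infl, hf, hg] at h
      rw [infl, hf', hg']
      rw [hf] at hlen hnD hyD
      refine Infl_up K hM hnD hyD hlen ?_ (by simp) h
      rw [← hlen]; simp
    · have hf : (l₁ ++ b :: c :: l₂).filter (· ∈ B) =
          l₁.filter (· ∈ B) ++ l₂.filter (· ∈ B) := by
        rw [Infl_filter hy, List.filter_cons_of_neg (by simpa using hcB)]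
      have hf' : (l₁ ++ c :: b :: l₂).filter (· ∈ B) =
          l₁.filter (· ∈ B) ++ l₂.filter (· ∈ B) := by
        rw [List.filter_append, List.filter_cons_of_neg (by simpa using hcB),
          List.filter_cons_of_neg (by simpa using hy)]
      have hg' : gap B b (l₁ ++ c :: b :: l₂) = (l₁.filter (· ∈ B)).length := by
        rw [show l₁ ++ c :: b :: l₂ = (l₁ ++ [c]) ++ b :: l₂ from by simp,
          Infl_gap (by simp [hy1, hbc]), List.filter_append,
          List.filter_cons_of_neg (by simpa using hcB)]
        simp
      rw [infl, hf, hg] at h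
      rw [infl, hf', hg']
      exact h
  by_cases hc : c = y
  · subst hc
    have hy1 : c ∉ l₁ := fun h' => hdis c h' c (by simp) rfl
    have hg' := Infl_gap (B := B) (q := b :: l₂) hy1
    by_cases hbB : b ∈ B
    · have hf : (l₁ ++ b :: c :: l₂).filter (· ∈ B) =
          l₁.filter (· ∈ B) ++ b :: l₂.filter (· ∈ B) := by
        rw [List.filter_append, List.filter_cons_of_pos (by simpa using hbB),
          List.filter_cons_of_neg (by simpa using hy)]
      have hf' : (l₁ ++ c :: b :: l₂).filter (· ∈ B) =
          l₁.filter (· ∈ B) ++ b :: l₂.filter (· ∈ B) := by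
        rw [Infl_filter hy, List.filter_cons_of_pos (by simpa using hbB)]
      have hg : gap B c (l₁ ++ b :: c :: l₂) = (l₁.filter (· ∈ B)).length + 1 := by
        rw [show l₁ ++ b :: c :: l₂ = (l₁ ++ [b]) ++ c :: l₂ from by simp,
          Infl_gap (by simp [hy1, hbc.symm]), List.filter_append,
          List.filter_cons_of_pos (by simpa using hbB)]
        simp
      rw [infl, hf, hg] at h
      rw [infl, hf', hg']
      rw [hf] at hlen hnD hyD
      refine Infl_down K hM hnD hyD hlen ?_ (by simp) h
      rw [← hlen]; simp
    · have hf : (l₁ ++ b :: c :: l₂).filter (· ∈ B) =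
          l₁.filter (· ∈ B) ++ l₂.filter (· ∈ B) := by
        rw [List.filter_append, List.filter_cons_of_neg (by simpa using hbB),
          List.filter_cons_of_neg (by simpa using hy)]
      have hf' : (l₁ ++ c :: b :: l₂).filter (· ∈ B) =
          l₁.filter (· ∈ B) ++ l₂.filter (· ∈ B) := by
        rw [Infl_filter hy, List.filter_cons_of_neg (by simpa using hbB)]
      have hg : gap B c (l₁ ++ b :: c :: l₂) = (l₁.filter (· ∈ B)).length := by
        rw [show l₁ ++ b :: c :: l₂ = (l₁ ++ [b]) ++ c :: l₂ from by simp,
          Infl_gap (by simp [hy1, hbc.symm]), List.filter_append,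
          List.filter_cons_of_neg (by simpa using hbB)]
        simp
      rw [infl, hf, hg] at h
      rw [infl, hf', hg']
      exact h
  -- both different from `y`
  have hyl : y ∈ l₁ ∨ y ∈ l₂ := by
    have := hl.2.1
    simp only [List.mem_append, List.mem_cons] at this
    rcases this with h' | h' | h' | h'
    · exact Or.inl h'
    · exact absurd h'.symm hb
    · exact absurd h'.symm hc
    · exact Or.inr h'
  -- the gaps
  have hgap : gap B y (l₁ ++ c :: b :: l₂) = gap B y (l₁ ++ b :: c :: l₂) ∧
      (b ∈ B → c ∈ B → gap B y (l₁ ++ b :: c :: l₂) ≤ (l₁.filter (· ∈ B)).length ∨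
        (l₁.filter (· ∈ B)).length + 2 ≤ gap B y (l₁ ++ b :: c :: l₂)) := by
    rcases hyl with h' | h'
    · obtain ⟨p, q, rfl⟩ := List.append_of_mem h'
      have hyp : y ∉ p := by
        intro h''
        have := (List.nodup_append.1 (List.nodup_append.1 hn).1).2.2
        exact this y h'' y List.mem_cons_self rfl
      have e1 : gap B y ((p ++ y :: q) ++ c :: b :: l₂) = (p.filter (· ∈ B)).length := by
        rw [List.append_assoc, List.cons_append, Infl_gap hyp]
      have e2 : gap B y ((p ++ y :: q) ++ b :: c :: l₂) = (p.filter (· ∈ B)).length := by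
        rw [List.append_assoc, List.cons_append, Infl_gap hyp]
      rw [e1, e2]
      refine ⟨rfl, fun _ _ => Or.inl ?_⟩
      rw [List.filter_append, List.length_append]
      omega
    · have hy1 : y ∉ l₁ := by
        intro h''
        exact hdis y h'' y (by simp [h']) rfl
      obtain ⟨p, q, rfl⟩ := List.append_of_mem h'
      have hyp : y ∉ p := by
        intro h''
        have h3 := (List.nodup_append.1 hn).2.1
        have h4 := (List.nodup_cons.1 (List.nodup_cons.1 h3).2).2
        exact (List.nodup_append.1 h4).2.2 y h'' y List.mem_cons_self rfl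
      have e1 : gap B y (l₁ ++ c :: b :: (p ++ y :: q)) =
          ((l₁ ++ c :: b :: p).filter (· ∈ B)).length := by
        rw [show l₁ ++ c :: b :: (p ++ y :: q) = (l₁ ++ c :: b :: p) ++ y :: q from by simp]
        exact Infl_gap (by simp [hy1, hyp, Ne.symm hb, Ne.symm hc])
      have e2 : gap B y (l₁ ++ b :: c :: (p ++ y :: q)) =
          ((l₁ ++ b :: c :: p).filter (· ∈ B)).length := by
        rw [show l₁ ++ b :: c :: (p ++ y :: q) = (l₁ ++ b :: c :: p) ++ y :: q from by simp]
        exact Infl_gap (by simp [hy1, hyp, Ne.symm hb, Ne.symm hc])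
      rw [e1, e2]
      constructor
      · exact ((List.Perm.append_left l₁ (List.Perm.swap b c p)).filter _).length_eq
      · intro hbB hcB
        right
        rw [List.filter_append, List.filter_cons_of_pos (by simpa using hbB),
          List.filter_cons_of_pos (by simpa using hcB)]
        simp only [List.length_append, List.length_cons]
        omega
  by_cases hbB : b ∈ B
  · by_cases hcB : c ∈ B
    · have hf : (l₁ ++ b :: c :: l₂).filter (· ∈ B) =
          l₁.filter (· ∈ B) ++ b :: c :: l₂.filter (· ∈ B) := by
        rw [List.filter_append, List.filter_cons_of_pos (by simpa using hbB),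
          List.filter_cons_of_pos (by simpa using hcB)]
      have hf' : (l₁ ++ c :: b :: l₂).filter (· ∈ B) =
          l₁.filter (· ∈ B) ++ c :: b :: l₂.filter (· ∈ B) := by
        rw [List.filter_append, List.filter_cons_of_pos (by simpa using hcB),
          List.filter_cons_of_pos (by simpa using hbB)]
      rw [infl, hf] at h
      rw [infl, hf', hgap.1]
      rw [hf] at hlen hnD hyD
      exact Infl_swap K hM hnD hyD hlen (hgap.2 hbB hcB) h
    · have hf : (l₁ ++ c :: b :: l₂).filter (· ∈ B) = (l₁ ++ b :: c :: l₂).filter (· ∈ B) := by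
        rw [List.filter_append, List.filter_append, List.filter_cons_of_neg (by simpa using hcB),
          List.filter_cons_of_pos (by simpa using hbB),
          List.filter_cons_of_pos (by simpa using hbB),
          List.filter_cons_of_neg (by simpa using hcB)]
      rw [infl, hf, hgap.1]
      exact h
  · have hf : (l₁ ++ c :: b :: l₂).filter (· ∈ B) = (l₁ ++ b :: c :: l₂).filter (· ∈ B) := by
      by_cases hcB : c ∈ B
      · simp [List.filter_append, List.filter_cons, hbB, hcB]
      · simp [List.filter_append, List.filter_cons, hbB, hcB]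
    rw [infl, hf, hgap.1]
    exact h

theorem infl_wrap (hB : B.card = 5 * M - 1) (hM : 2 ≤ M) (hy : y ∉ B) {l : List α} {b : α}
    (hl : Full B y (l ++ [b])) (h : infl K B y (l ++ [b]) = (b, true)) :
    infl K B y (b :: l) = (b, true) := by
  have hlen := Infl_len hB hl
  have hn := hl.1
  have hdis := (List.nodup_append.1 hn).2.2
  by_cases hb : b = y
  · subst hb
    have hbl : b ∉ l := fun h' => hdis b h' b (by simp) rfl
    have hf : (l ++ [b]).filter (· ∈ B) = l.filter (· ∈ B) := by
      rw [Infl_filter hy]; simp
    have hg := Infl_gap (B := B) (q := []) hbl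
    have hf' : (b :: l).filter (· ∈ B) = l.filter (· ∈ B) := by
      rw [List.filter_cons_of_neg (by simpa using hy)]
    have hg' : gap B b (b :: l) = 0 := by simp [gap]
    rw [hf] at hlen
    rw [infl, hf, hg, hlen] at h
    rw [infl, hf', hg']
    exact Infl_wrap_base K hM h (Infl_notMem hy) hlen
  · exfalso
    have hbB : b ∈ B := by
      have := infl_mem K hB hM hy hl
      rw [h] at this
      simpa [hb] using this
    have hyl : y ∈ l := by
      have := hl.2.1
      simp only [List.mem_append, List.mem_singleton] at this
      rcases this with h' | h'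
      · exact h'
      · exact absurd h'.symm hb
    obtain ⟨p, q, rfl⟩ := List.append_of_mem hyl
    have hyp : y ∉ p := by
      intro h''
      exact (List.nodup_append.1 (List.nodup_append.1 hn).1).2.2 y h'' y List.mem_cons_self rfl
    have hg : gap B y ((p ++ y :: q) ++ [b]) = (p.filter (· ∈ B)).length := by
      rw [List.append_assoc, List.cons_append, Infl_gap hyp]
    have hf : ((p ++ y :: q) ++ [b]).filter (· ∈ B) =
        (p.filter (· ∈ B) ++ q.filter (· ∈ B)) ++ [b] := by
      rw [List.filter_append, Infl_filter hy, List.filter_cons_of_pos (by simpa using hbB)]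
      rfl
    have hnD : ((p.filter (· ∈ B) ++ q.filter (· ∈ B)) ++ [b]).Nodup := by
      rw [← hf]; exact hn.filter _
    rw [infl, hf, hg] at h
    rw [hf] at hlen
    set P := p.filter (· ∈ B) with hP
    set Q := q.filter (· ∈ B) with hQ
    have hl3 : P.length + Q.length + 1 = 5 * M - 1 := by
      rw [← hlen]; simp [add_assoc]
    have hbl : ((P ++ Q) ++ [b])[5 * M - 2]? = some b := by
      rw [List.getElem?_append_right (by simp; omega)]
      have : 5 * M - 2 - (P ++ Q).length = 0 := by simp; omega
      rw [this]; rfl
    have hbl' : ((P ++ Q) ++ [b])[5 * M - 2]'(by omega) = b := by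
      rw [List.getElem?_eq_getElem (by omega)] at hbl
      exact Option.some.inj hbl
    have inj : ∀ i, ((P ++ Q) ++ [b]).getD i y = b → i = 5 * M - 2 := by
      intro i hi
      rcases Nat.lt_or_ge i ((P ++ Q) ++ [b]).length with h' | h'
      · rw [List.getD_eq_getElem _ _ h'] at hi
        exact (List.Nodup.getElem_inj_iff hnD).1 (hi.trans hbl'.symm)
      · rw [List.getD_eq_default _ _ h'] at hi
        exact absurd hi.symm hb
    by_cases h0 : K.Phi ((P ++ Q) ++ [b]) = 0
    · simp only [Code.inf, h0, if_true] at h
      split_ifs at h with h1 h2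
      · have := inj _ (Prod.ext_iff.1 h).1
        omega
      · have := inj _ (Prod.ext_iff.1 h).1
        omega
      · exact absurd (Prod.ext_iff.1 h).2 (by simp)
    · simp only [Code.inf, h0, if_false] at h
      split_ifs at h with h1 h2
      · exact absurd (Prod.ext_iff.1 h).2 (by simp)
      · exact absurd (Prod.ext_iff.1 h).2 (by simp)
      · exact hb (Prod.ext_iff.1 h).1.symm

end Pool.Agent.Lib.MP_e0d433_co
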