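import Pool.Agent.Lib.MP_e0d433_co.Defs

/-!
# MP_e0d433_co: merging walks (Eulerian argument)

A *walk* is a pair `(v, t)`: being in state `v` (the last `n-1` letters written) we write the word
`t`.  A good family (`MergeGood`) of walks with the smallest number of members consists of loops
which pairwise visit no common state, so there are at most `K.card` of them.
-/

namespace Pool.Agent.Lib.MP_e0d433_co

variable {α : Type*} [DecidableEq α]

/-- Keep the first letter and rotate the rest by one. -/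
def lrot : List α → List α
  | [] => []
  | u :: Q => u :: Q.rotate 1

/-- One step: `P ↦ s P` for `P ∈ W`, or `P ↦ lrot P` for `P ∈ E`. -/
def MStep (s : List α → List α) (W E : Finset (List α)) (P Q : List α) : Prop :=
  (P ∈ W ∧ Q = s P) ∨ (P ∈ E ∧ Q = lrot P)

omit [DecidableEq α] in
/-- A closed walk `(v,t)` can be rebased at any state `q` that it visits. -/
theorem exists_rotate_loop {v t q : List α} (hloop : v <:+ v ++ t) (hq : q <:+: v ++ t)
    (hlen : q.length = v.length) :
    ∃ t' : List α, t'.length = t.length ∧ q <:+ q ++ t' ∧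
      ∀ P : List α, P.length ≤ v.length + 1 → P <:+: v ++ t → P <:+: q ++ t' := by
  obtain ⟨C, hC⟩ := hloop
  obtain ⟨A, B, hAB⟩ := hq
  have hCl : C.length = t.length := by
    have := congrArg List.length hC
    simp only [List.length_append] at this
    omega
  have hABl : A.length + B.length = t.length := by
    have := congrArg List.length hAB
    simp only [List.length_append] at this
    omega
  have hAC : A <+: C := by
    have h1 : A <+: v ++ t := ⟨q ++ B, by rw [← hAB]; simp⟩
    have h2 : C <+: v ++ t := ⟨v, hC⟩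
    exact List.prefix_of_prefix_length_le h1 h2 (by omega)
  obtain ⟨A', hA'⟩ := hAC
  have hA'v : A' ++ v = q ++ B := by
    have h1 : A ++ (A' ++ v) = A ++ (q ++ B) := by
      rw [← List.append_assoc, hA', hC, ← hAB]
      simp
    exact List.append_cancel_left h1
  have hvt : v ++ t.take A.length = A ++ q := by
    have h1 : v ++ t.take A.length <+: v ++ t := by
      refine ⟨t.drop A.length, ?_⟩
      rw [List.append_assoc, List.take_append_drop]
    have h2 : A ++ q <+: v ++ t := ⟨B, hAB⟩
    have h3 : (v ++ t.take A.length).length = (A ++ q).length := by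
      simp only [List.length_append, List.length_take]
      omega
    exact (List.prefix_of_prefix_length_le h1 h2 h3.le).eq_of_length h3
  have hq' : q ++ (B ++ t.take A.length) = A' ++ (A ++ q) := by
    rw [← hvt, ← List.append_assoc, ← hA'v, List.append_assoc]
  refine ⟨B ++ t.take A.length, ?_, ?_, ?_⟩
  · simp only [List.length_append, List.length_take]
    omega
  · rw [hq']
    exact ⟨A' ++ A, by simp⟩
  · rintro P hP ⟨X, Y, hXY⟩
    rcases le_or_gt A.length X.length with h | h
    · have hAX : A <+: X := by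
        have h1 : A <+: v ++ t := ⟨q ++ B, by rw [← hAB]; simp⟩
        have h2 : X <+: v ++ t := ⟨P ++ Y, by rw [← hXY]; simp⟩
        exact List.prefix_of_prefix_length_le h1 h2 h
      obtain ⟨X', rfl⟩ := hAX
      have h1 : X' ++ P ++ Y = q ++ B := by
        have h2 : A ++ (X' ++ P ++ Y) = A ++ (q ++ B) := by
          have : A ++ (X' ++ P ++ Y) = (A ++ X') ++ P ++ Y := by simp
          rw [this, hXY, ← hAB]
          simp
        exact List.append_cancel_left h2
      refine ⟨X', Y ++ t.take A.length, ?_⟩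
      have : X' ++ P ++ (Y ++ t.take A.length) = (X' ++ P ++ Y) ++ t.take A.length := by simp
      rw [this, h1]
      simp
    · have h1 : X ++ P <+: A ++ q := by
        refine List.prefix_of_prefix_length_le (l₃ := v ++ t) ⟨Y, hXY⟩ ⟨B, hAB⟩ ?_
        simp only [List.length_append]
        omega
      obtain ⟨Z, hZ⟩ := h1
      refine ⟨A' ++ X, Z, ?_⟩
      rw [hq', ← hZ]
      simp

/-- the end of a walk -/
def wend (w : List α × List α) : List α := (w.1 ++ w.2).drop w.2.length

omit [DecidableEq α] in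
theorem wend_suffix (w : List α × List α) : wend w <:+ w.1 ++ w.2 := List.drop_suffix _ _

omit [DecidableEq α] in
theorem wend_length (w : List α × List α) : (wend w).length = w.1.length := by
  simp [wend]

omit [DecidableEq α] in
theorem eq_wend {w : List α × List α} {q : List α} (h : q <:+ w.1 ++ w.2)
    (hl : q.length = w.1.length) : q = wend w := by
  refine (List.suffix_of_suffix_length_le h (wend_suffix w) ?_).eq_of_length ?_
  · rw [wend_length, hl]
  · rw [wend_length, hl]

/-- good families of walks -/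
structure MergeGood (n : ℕ) (W : Finset (List α)) (s : List α → List α) (E : Finset (List α)) (T : ℕ)
    (L : Multiset (List α × List α)) : Prop where
  start : ∀ w ∈ L, ∃ P ∈ W, w.1 = P.drop 1
  bal : L.map (fun w => w.1) = L.map wend
  cov : ∀ P ∈ W, ∃ w ∈ L, s P <:+: w.1 ++ w.2 ∧ P.drop 1 <:+: w.1 ++ w.2
  covE : ∀ P ∈ E, ∃ w ∈ L, P.drop 1 <:+: w.1 ++ w.2 ∧ (lrot P).drop 1 <:+: w.1 ++ w.2
  len : (L.map (fun w => w.2.length)).sum ≤ T

omit [DecidableEq α] in
theorem lrot_injective : Function.Injective (lrot : List α → List α) := by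
  intro P Q h
  cases P with
  | nil =>
    cases Q with
    | nil => rfl
    | cons u Q => simp [lrot] at h
  | cons u P =>
    cases Q with
    | nil => simp [lrot] at h
    | cons u' Q =>
      simp only [lrot, List.cons.injEq] at h
      rw [h.1, List.rotate_injective 1 h.2]

omit [DecidableEq α] in
/-- replace two walks by one walk -/
theorem MergeGood.merge {n : ℕ} {W : Finset (List α)} {s : List α → List α} {E : Finset (List α)} {T : ℕ}
    {w₁ w₂ w : List α × List α} {L : Multiset (List α × List α)}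
    (h : MergeGood n W s E T (w₁ ::ₘ w₂ ::ₘ L)) (hW : ∀ P ∈ W, P.length = n)
    (hs : Set.MapsTo s W W) (hE : E ⊆ W) (hlrot : ∀ P ∈ E, lrot P ∈ E)
    (hst : ∃ P ∈ W, w.1 = P.drop 1)
    (hbal : w.1 ::ₘ wend w₁ ::ₘ {wend w₂} = wend w ::ₘ w₁.1 ::ₘ {w₂.1})
    (hl : w.2.length = w₁.2.length + w₂.2.length)
    (h1 : ∀ P : List α, P.length ≤ n → P <:+: w₁.1 ++ w₁.2 → P <:+: w.1 ++ w.2)
    (h2 : ∀ P : List α, P.length ≤ n → P <:+: w₂.1 ++ w₂.2 → P <:+: w.1 ++ w.2) :
    MergeGood n W s E T (w ::ₘ L) := by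
  have hmem : ∀ P Q : List α, P.length ≤ n → Q.length ≤ n →
      (∃ w' ∈ w₁ ::ₘ w₂ ::ₘ L, P <:+: w'.1 ++ w'.2 ∧ Q <:+: w'.1 ++ w'.2) →
      ∃ w' ∈ w ::ₘ L, P <:+: w'.1 ++ w'.2 ∧ Q <:+: w'.1 ++ w'.2 := by
    rintro P Q hP hQ ⟨w', hw', hPw, hQw⟩
    rw [Multiset.mem_cons, Multiset.mem_cons] at hw'
    rcases hw' with rfl | rfl | hw'
    · exact ⟨w, Multiset.mem_cons_self _ _, h1 P hP hPw, h1 Q hQ hQw⟩
    · exact ⟨w, Multiset.mem_cons_self _ _, h2 P hP hPw, h2 Q hQ hQw⟩
    · exact ⟨w', Multiset.mem_cons_of_mem hw', hPw, hQw⟩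
  have hd : ∀ P ∈ W, (P.drop 1).length ≤ n := by
    intro P hP
    rw [List.length_drop, hW P hP]
    omega
  refine ⟨?_, ?_, ?_, ?_, ?_⟩
  · intro w' hw'
    rw [Multiset.mem_cons] at hw'
    rcases hw' with rfl | hw'
    · exact hst
    · exact h.start w' (Multiset.mem_cons_of_mem (Multiset.mem_cons_of_mem hw'))
  · have hb := h.bal
    simp only [Multiset.map_cons] at hb ⊢
    have e1 : w₁.1 ::ₘ w₂.1 ::ₘ L.map (fun w => w.1) =
        ({w₁.1} + {w₂.1}) + L.map (fun w => w.1) := by
      simp only [← Multiset.singleton_add, add_assoc]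
    have e2 : wend w₁ ::ₘ wend w₂ ::ₘ L.map wend =
        ({wend w₁} + {wend w₂}) + L.map wend := by
      simp only [← Multiset.singleton_add, add_assoc]
    rw [e1, e2] at hb
    have e3 : w.1 ::ₘ wend w₁ ::ₘ {wend w₂} = {w.1} + ({wend w₁} + {wend w₂}) := by
      simp only [← Multiset.singleton_add]
    have e4 : wend w ::ₘ w₁.1 ::ₘ {w₂.1} = {wend w} + ({w₁.1} + {w₂.1}) := by
      simp only [← Multiset.singleton_add]
    rw [e3, e4] at hbal
    have e5 : ({w.1} + L.map (fun w => w.1)) + (({w₁.1} + {w₂.1}) + ({wend w₁} + {wend w₂})) =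
        ({wend w} + L.map wend) + (({w₁.1} + {w₂.1}) + ({wend w₁} + {wend w₂})) := by
      calc ({w.1} + L.map (fun w => w.1)) + (({w₁.1} + {w₂.1}) + ({wend w₁} + {wend w₂}))
          = ({w.1} + ({wend w₁} + {wend w₂})) + (({w₁.1} + {w₂.1}) + L.map (fun w => w.1)) := by
            abel
        _ = ({wend w} + ({w₁.1} + {w₂.1})) + (({wend w₁} + {wend w₂}) + L.map wend) := by
            rw [hbal, hb]
        _ = _ := by abel
    have e6 := add_right_cancel e5
    simpa only [Multiset.singleton_add] using e6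
  · intro P hP
    exact hmem _ _ (by rw [hW _ (hs hP)]) (hd P hP) (h.cov P hP)
  · intro P hP
    exact hmem _ _ (hd P (hE hP)) (hd _ (hE (hlrot P hP))) (h.covE P hP)
  · have := h.len
    simp only [Multiset.map_cons, Multiset.sum_cons] at this ⊢
    omega

/-- the initial family -/
theorem mergeGood_init (n : ℕ) (hn : 1 ≤ n) (W : Finset (List α)) (hW : ∀ P ∈ W, P.length = n)
    (s : List α → List α) (hs : Set.BijOn s W W) (k : List α → ℕ)
    (hk1 : ∀ P ∈ W, 1 ≤ k P ∧ k P ≤ n) (hk : ∀ P ∈ W, P.drop (k P) <+: s P)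
    (E : Finset (List α)) (hE : E ⊆ W) (hlrot : ∀ P ∈ E, lrot P ∈ E) :
    ∃ L, MergeGood n W s E (∑ P ∈ W, k P + E.card) L := by
  set w₀ : List α → List α × List α := fun P => (P.drop 1, (s P).drop (n - k P)) with hw₀
  set w₁ : List α → List α × List α := fun P => (P.drop 1, (P.drop 1).take 1) with hw₁
  have hlen : ∀ P ∈ W, (s P).length = n := fun P hP => hW _ (hs.mapsTo hP)
  have happ : ∀ P ∈ W, (w₀ P).1 ++ (w₀ P).2 = (P.take (k P)).drop 1 ++ s P := by
    intro P hP
    obtain ⟨Z, hZ⟩ := hk P hP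
    have h1 : (s P).drop (n - k P) = Z := by
      have h2 : (P.drop (k P)).length = n - k P := by rw [List.length_drop, hW P hP]
      rw [← hZ, ← h2, List.drop_left]
    have h3 : P.drop 1 = (P.take (k P)).drop 1 ++ P.drop (k P) := by
      conv_lhs => rw [← List.take_append_drop (k P) P]
      rw [List.drop_append_of_le_length]
      rw [List.length_take, hW P hP]
      have := hk1 P hP
      omega
    simp only [hw₀, h1]
    rw [h3, List.append_assoc, hZ]
  have hw₀l : ∀ P ∈ W, (w₀ P).2.length = k P := by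
    intro P hP
    have := hk1 P hP
    simp only [hw₀, List.length_drop, hlen P hP]
    omega
  have hend₀ : ∀ P ∈ W, wend (w₀ P) = (s P).drop 1 := by
    intro P hP
    have h1 : (s P).drop 1 <:+ (w₀ P).1 ++ (w₀ P).2 := by
      rw [happ P hP]
      exact (List.drop_suffix _ _).trans (List.suffix_append _ _)
    refine (eq_wend h1 ?_).symm
    simp only [hw₀, List.length_drop, hlen P hP, hW P hP]
  have hend₁ : ∀ P ∈ E, wend (w₁ P) = (lrot P).drop 1 := by
    intro P hP
    cases P with
    | nil =>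
      have := hW _ (hE hP)
      simp at this
      omega
    | cons u Q =>
      simp only [wend, hw₁, lrot, List.drop_succ_cons, List.drop_zero]
      cases Q with
      | nil => rfl
      | cons a Q => simp
  refine ⟨W.val.map w₀ + E.val.map w₁, ?_, ?_, ?_, ?_, ?_⟩
  · intro w hw
    rw [Multiset.mem_add, Multiset.mem_map, Multiset.mem_map] at hw
    rcases hw with ⟨P, hP, rfl⟩ | ⟨P, hP, rfl⟩
    · exact ⟨P, hP, rfl⟩
    · exact ⟨P, hE hP, rfl⟩
  · rw [Multiset.map_add, Multiset.map_add, Multiset.map_map, Multiset.map_map,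
      Multiset.map_map, Multiset.map_map]
    congr 1
    · have h1 : W.val.map (wend ∘ w₀) = (W.val.map s).map (fun P => P.drop 1) := by
        rw [Multiset.map_map]
        exact Multiset.map_congr rfl fun P hP => hend₀ P hP
      have h2 : W.image s = W := by
        rw [← Finset.coe_inj, Finset.coe_image]
        exact hs.image_eq
      have h3 : W.val.map s = W.val := by
        rw [← Finset.image_val_of_injOn hs.injOn, h2]
      rw [h1, h3]
      rfl
    · have h1 : E.val.map (wend ∘ w₁) = (E.val.map lrot).map (fun P => P.drop 1) := by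
        rw [Multiset.map_map]
        exact Multiset.map_congr rfl fun P hP => hend₁ P hP
      have hinj : Set.InjOn lrot (E : Set (List α)) := lrot_injective.injOn
      have h2 : E.image lrot = E := by
        refine Finset.eq_of_subset_of_card_le ?_ ?_
        · intro P hP
          obtain ⟨Q, hQ, rfl⟩ := Finset.mem_image.1 hP
          exact hlrot Q hQ
        · rw [Finset.card_image_of_injOn hinj]
      have h3 : E.val.map lrot = E.val := by
        rw [← Finset.image_val_of_injOn hinj, h2]
      rw [h1, h3]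
      rfl
  · intro P hP
    refine ⟨w₀ P, Multiset.mem_add.2 (Or.inl (Multiset.mem_map_of_mem _ hP)), ?_, ?_⟩
    · rw [happ P hP]
      exact (List.suffix_append _ _).isInfix
    · exact (List.prefix_append _ _).isInfix
  · intro P hP
    refine ⟨w₁ P, Multiset.mem_add.2 (Or.inr (Multiset.mem_map_of_mem _ hP)), ?_, ?_⟩
    · exact (List.prefix_append _ _).isInfix
    · rw [← hend₁ P hP]
      exact (wend_suffix _).isInfix
  · rw [Multiset.map_add, Multiset.sum_add, Multiset.map_map, Multiset.map_map]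
    refine add_le_add ?_ ?_
    · refine le_of_eq ?_
      rw [Finset.sum_eq_multiset_sum]
      congr 1
      exact Multiset.map_congr rfl fun P hP => hw₀l P hP
    · rw [Finset.card_eq_sum_ones, Finset.sum_eq_multiset_sum]
      refine Multiset.sum_map_le_sum_map _ _ fun P _ => ?_
      simp only [Function.comp, hw₁, List.length_take]
      exact min_le_left _ _

theorem superword (n : ℕ) (hn : 1 ≤ n) (W : Finset (List α)) (hW : ∀ P ∈ W, P.length = n)
    (s : List α → List α) (hs : Set.BijOn s W W) (k : List α → ℕ)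
    (hk1 : ∀ P ∈ W, 1 ≤ k P ∧ k P ≤ n) (hk : ∀ P ∈ W, P.drop (k P) <+: s P)
    (E K : Finset (List α)) (hE : E ⊆ W) (hlrot : ∀ P ∈ E, lrot P ∈ E) (hK : K ⊆ W)
    (hconn : ∀ P ∈ W, ∃ Q ∈ K, Relation.EqvGen (MStep s W E) P Q) :
    ∃ w : List α, (∀ P ∈ W, P <:+: w) ∧
      w.length ≤ ∑ P ∈ W, k P + E.card + (n - 1) * K.card := by
  classical
  set T := ∑ P ∈ W, k P + E.card with hT
  have hex : ∃ m, ∃ L, MergeGood n W s E T L ∧ L.card = m := by
    obtain ⟨L, hL⟩ := mergeGood_init n hn W hW s hs k hk1 hk E hE hlrot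
    exact ⟨_, L, hL, rfl⟩
  obtain ⟨L, hL, hcard⟩ := Nat.find_spec hex
  have hmin : ∀ L', MergeGood n W s E T L' → L.card ≤ L'.card := by
    intro L' hL'
    rw [hcard]
    exact Nat.find_min' hex ⟨L', hL', rfl⟩
  have hlen : ∀ P ∈ W, (P.drop 1).length = n - 1 := by
    intro P hP
    rw [List.length_drop, hW P hP]
  have hstl : ∀ w ∈ L, w.1.length = n - 1 := by
    intro w hw
    obtain ⟨P, hP, h⟩ := hL.start w hw
    rw [h, hlen P hP]
  -- step 1: all walks are loops
  have hloop : ∀ w ∈ L, wend w = w.1 := by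
    intro w₁ hw₁
    obtain ⟨L₁, hL₁⟩ := Multiset.exists_cons_of_mem hw₁
    by_contra hne
    have h1 : wend w₁ ∈ L.map (fun w => w.1) := by
      rw [hL.bal]
      exact Multiset.mem_map_of_mem _ hw₁
    rw [hL₁, Multiset.map_cons, Multiset.mem_cons] at h1
    rcases h1 with h1 | h1
    · exact hne h1
    obtain ⟨w₂, hw₂, h2⟩ := Multiset.mem_map.1 h1
    obtain ⟨L₂, hL₂⟩ := Multiset.exists_cons_of_mem hw₂
    rw [hL₂] at hL₁
    have hg : MergeGood n W s E T (w₁ ::ₘ w₂ ::ₘ L₂) := hL₁ ▸ hL
    obtain ⟨C, hC⟩ := wend_suffix w₁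
    have happ : w₁.1 ++ (w₁.2 ++ w₂.2) = C ++ (w₂.1 ++ w₂.2) := by
      rw [← List.append_assoc, ← hC, h2, List.append_assoc]
    have hw₂l : w₂ ∈ L := by
      rw [hL₁]
      exact Multiset.mem_cons_of_mem (Multiset.mem_cons_self _ _)
    have hend : wend w₂ = wend (w₁.1, w₁.2 ++ w₂.2) := by
      refine eq_wend ?_ ?_
      · simp only
        rw [happ]
        exact (wend_suffix w₂).trans (List.suffix_append _ _)
      · simp only
        rw [wend_length, hstl _ hw₁, hstl _ hw₂l]
    have hg' : MergeGood n W s E T ((w₁.1, w₁.2 ++ w₂.2) ::ₘ L₂) := by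
      refine hg.merge hW hs.mapsTo hE hlrot (hL.start w₁ hw₁) ?_ ?_ ?_ ?_
      · simp only
        rw [hend, h2]
        simp only [← Multiset.singleton_add]
        abel
      · simp
      · intro P _ hP
        refine hP.trans ?_
        exact ⟨[], w₂.2, by simp⟩
      · intro P _ hP
        refine hP.trans ?_
        simp only
        rw [happ]
        exact (List.suffix_append _ _).isInfix
    have := hmin _ hg'
    rw [hL₁] at this
    simp only [Multiset.card_cons] at this
    omega
  -- step 2: different loops have no common state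
  have hdisj : ∀ w₁ w₂ L', L = w₁ ::ₘ w₂ ::ₘ L' → ∀ P ∈ W, P.drop 1 <:+: w₁.1 ++ w₁.2 →
      P.drop 1 <:+: w₂.1 ++ w₂.2 → False := by
    intro w₁ w₂ L' hLe P hP h1 h2
    have hw₁ : w₁ ∈ L := by
      rw [hLe]
      exact Multiset.mem_cons_self _ _
    have hw₂ : w₂ ∈ L := by
      rw [hLe]
      exact Multiset.mem_cons_of_mem (Multiset.mem_cons_self _ _)
    have hg : MergeGood n W s E T (w₁ ::ₘ w₂ ::ₘ L') := hLe ▸ hL
    obtain ⟨t₁, ht₁, hs₁, hc₁⟩ := exists_rotate_loop (v := w₁.1) (t := w₁.2) (q := P.drop 1)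
      (by have := wend_suffix w₁; rwa [hloop w₁ hw₁] at this) h1
      (by rw [hlen P hP, hstl w₁ hw₁])
    obtain ⟨t₂, ht₂, hs₂, hc₂⟩ := exists_rotate_loop (v := w₂.1) (t := w₂.2) (q := P.drop 1)
      (by have := wend_suffix w₂; rwa [hloop w₂ hw₂] at this) h2
      (by rw [hlen P hP, hstl w₂ hw₂])
    obtain ⟨C, hC⟩ := hs₁
    have happ : P.drop 1 ++ (t₁ ++ t₂) = C ++ (P.drop 1 ++ t₂) := by
      rw [← List.append_assoc, ← hC, List.append_assoc]
    have hend : P.drop 1 = wend (P.drop 1, t₁ ++ t₂) := by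
      refine eq_wend ?_ rfl
      simp only
      rw [happ]
      exact hs₂.trans (List.suffix_append _ _)
    have hg' : MergeGood n W s E T ((P.drop 1, t₁ ++ t₂) ::ₘ L') := by
      refine hg.merge hW hs.mapsTo hE hlrot ⟨P, hP, rfl⟩ ?_ ?_ ?_ ?_
      · rw [← hend, hloop w₁ hw₁, hloop w₂ hw₂]
      · simp only [List.length_append, ht₁, ht₂]
      · intro R hR hR'
        refine (hc₁ R (by rw [hstl w₁ hw₁]; omega) hR').trans ?_
        exact ⟨[], t₂, by simp⟩
      · intro R hR hR'
        refine (hc₂ R (by rw [hstl w₂ hw₂]; omega) hR').trans ?_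
        simp only
        rw [happ]
        exact (List.suffix_append _ _).isInfix
    have := hmin _ hg'
    rw [hLe] at this
    simp only [Multiset.card_cons] at this
    omega
  -- uniqueness
  have huniq : ∀ w₁ ∈ L, ∀ w₂ ∈ L, ∀ P ∈ W, P.drop 1 <:+: w₁.1 ++ w₁.2 →
      P.drop 1 <:+: w₂.1 ++ w₂.2 → w₁ = w₂ := by
    intro w₁ hw₁ w₂ hw₂ P hP h1 h2
    by_contra hne
    obtain ⟨L₁, hL₁⟩ := Multiset.exists_cons_of_mem hw₁
    rw [hL₁, Multiset.mem_cons] at hw₂
    rcases hw₂ with rfl | hw₂
    · exact hne rfl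
    obtain ⟨L₂, hL₂⟩ := Multiset.exists_cons_of_mem hw₂
    rw [hL₂] at hL₁
    exact hdisj w₁ w₂ L₂ hL₁ P hP h1 h2
  have hnodup : L.Nodup := by
    rw [Multiset.nodup_iff_ne_cons_cons]
    intro w L' hLe
    have hw : w ∈ L := by
      rw [hLe]
      exact Multiset.mem_cons_self _ _
    obtain ⟨P, hP, h⟩ := hL.start w hw
    have h1 : P.drop 1 <:+: w.1 ++ w.2 := by
      rw [← h]
      exact (List.prefix_append _ _).isInfix
    exact hdisj w w L' hLe P hP h1 h1
  -- step 3: count
  have hstep : ∀ w ∈ L, ∀ P Q, MStep s W E P Q →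
      (P.drop 1 <:+: w.1 ++ w.2 ↔ Q.drop 1 <:+: w.1 ++ w.2) := by
    intro w hw P Q hPQ
    rcases hPQ with ⟨hP, rfl⟩ | ⟨hP, rfl⟩
    · obtain ⟨w', hw', h1, h2⟩ := hL.cov P hP
      have h3 : (s P).drop 1 <:+: w'.1 ++ w'.2 := (List.drop_suffix _ _).isInfix.trans h1
      constructor
      · intro h
        rw [huniq w hw w' hw' P hP h h2]
        exact h3
      · intro h
        rw [huniq w hw w' hw' (s P) (hs.mapsTo hP) h h3]
        exact h2
    · obtain ⟨w', hw', h1, h2⟩ := hL.covE P hP
      constructor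
      · intro h
        rw [huniq w hw w' hw' P (hE hP) h h1]
        exact h2
      · intro h
        rw [huniq w hw w' hw' (lrot P) (hE (hlrot P hP)) h h2]
        exact h1
  have heqv : ∀ w ∈ L, ∀ P Q, Relation.EqvGen (MStep s W E) P Q →
      (P.drop 1 <:+: w.1 ++ w.2 ↔ Q.drop 1 <:+: w.1 ++ w.2) := by
    intro w hw P Q h
    induction h with
    | rel x y h => exact hstep w hw x y h
    | refl x => exact Iff.rfl
    | symm x y _ ih => exact ih.symm
    | trans x y z _ _ ih1 ih2 => exact ih1.trans ih2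
  have hf : ∀ w ∈ L, ∃ Q ∈ K, Q.drop 1 <:+: w.1 ++ w.2 := by
    intro w hw
    obtain ⟨P, hP, h⟩ := hL.start w hw
    obtain ⟨Q, hQ, hPQ⟩ := hconn P hP
    refine ⟨Q, hQ, (heqv w hw P Q hPQ).1 ?_⟩
    rw [← h]
    exact (List.prefix_append _ _).isInfix
  choose! f hfK hf using hf
  have hcardK : L.card ≤ K.card := by
    rw [← Multiset.toFinset_card_of_nodup hnodup]
    refine Finset.card_le_card_of_injOn f ?_ ?_
    · intro w hw
      exact hfK w (Multiset.mem_toFinset.1 hw)
    · intro w hw w' hw' h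
      have hw := Multiset.mem_toFinset.1 hw
      have hw' := Multiset.mem_toFinset.1 hw'
      refine huniq w hw w' hw' (f w) (hK (hfK w hw)) (hf w hw) ?_
      rw [h]
      exact hf w' hw'
  -- step 4: the word
  refine ⟨(L.toList.map fun w => w.1 ++ w.2).flatten, ?_, ?_⟩
  · intro P hP
    obtain ⟨P', hP', rfl⟩ := hs.surjOn hP
    obtain ⟨w, hw, h1, -⟩ := hL.cov P' hP'
    refine h1.trans (List.infix_of_mem_flatten ?_)
    exact List.mem_map.2 ⟨w, Multiset.mem_toList.2 hw, rfl⟩
  · have h1 : (L.toList.map fun w => w.1 ++ w.2).flatten.length =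
        (L.map fun w => w.1.length + w.2.length).sum := by
      rw [List.length_flatten, List.map_map]
      conv_rhs => rw [← Multiset.coe_toList L]
      rw [Multiset.map_coe, Multiset.sum_coe]
      congr 1
      apply List.map_congr_left
      intro w _
      simp
    rw [h1, Multiset.sum_map_add]
    have h2 : (L.map fun w => w.1.length).sum = (n - 1) * L.card := by
      rw [Multiset.map_congr rfl hstl, Multiset.map_const', Multiset.sum_replicate, smul_eq_mul,
        mul_comm]
    rw [h2]
    have h3 := hL.len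
    have h4 : (n - 1) * L.card ≤ (n - 1) * K.card := Nat.mul_le_mul le_rfl hcardK
    omega

end Pool.Agent.Lib.MP_e0d433_co
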