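import Pool.Agent.Lib.MP_e0d433_co.Infl
import Pool.Agent.Lib.MP_e0d433_co.Sys

/-!
# MP_e0d433_co: simulation of the base machine by the moves on cyclic words

## Proof
`CStep` moves the mover `b` (direction right) past the next letter, or the mover `c` (direction
left) past the previous letter (`hS`: the mover of the cyclic word `z l` is `infl K B y l`).
Moving past a passive letter (not in `B`, not `y`; note `z ∉ l`) does not change the data
`(l.filter (· ∈ B), gap B y l)` and hence the mover.  So, if the mover `(b, true)` is followed in `l`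
by a word `s` of passive letters and then by a letter `c ∈ insert y B`, then after
`s.length + 1` moves right we reach `l₁ ++ s ++ c :: b :: l₂`; similarly for left movers.
`sim_step`: let `D = l.filter (· ∈ B)`, `t = gap B y l`, `B.card = 5 M - 1`.
* `Phi D = 0`, `t % 5 = 0`: mover `(D[t], true)`, next active letter `D[t+1]`
  (`t + 1 ≤ 5 M - 4`): result `(swp t D, t)`.
* `Phi D = 0`, `t % 5 = 4`: mover `(D[t-1], true)`, next active letter `y`: result `(D, t - 1)`.
* `Phi D = 0`, otherwise: mover `(y, false)`, previous active letter `D[t-1]`: `(D, t-1)`.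
* `Phi D = X g`, `t = 5 g + 4`: mover `(D[t-1], false)`, previous active letter `D[t-2]`:
  `(swp (t-2) D, t)`.
* `Phi D = X g`, `t = 5 (g + 1) % (5 M)`: mover `(D[t], false)`, previous active letter `y`:
  `(D, t + 1)`, `t + 1 < 5 M`.
* otherwise mover `(y, true)`: if `t < 5 M - 1`, next active letter `D[t]`: `(D, t + 1)`; if
  `t = 5 M - 1`, move `y` to the end of the word (only passive letters after `y`), then `wrap`:
  `(D, 0)`.
`sim_last`: `t = 5 M - 1`, mover `(y, true)` (as `Phi D = X 0`, `M ≥ 2`), move `y` to the end.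
-/

namespace Pool.Agent.Lib.MP_e0d433_co

variable {G : Type*} [AddCommGroup G] [DecidableEq G] {M : ℕ} (K : Code G M)
variable {α : Type*} [LinearOrder α] {B : Finset α} {y : α}

section Lists

omit [LinearOrder α] in
private theorem Sim_swp_append (l₁ l₂ : List α) (b c : α) :
    swp l₁.length (l₁ ++ b :: c :: l₂) = l₁ ++ c :: b :: l₂ := by
  induction l₁ with
  | nil => rfl
  | cons a l₁ ih =>
    simp only [List.length_cons, List.cons_append]
    rw [swp, ih]

omit [LinearOrder α] in
private theorem Sim_first {p : α → Bool} {m E : List α} {b : α} (h : m.filter p = b :: E) :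
    ∃ s r : List α, m = s ++ b :: r ∧ (∀ x ∈ s, ¬ p x) ∧ r.filter p = E := by
  obtain ⟨s, r, h1, h2, _, h3⟩ := List.filter_eq_cons_iff.1 h
  exact ⟨s, r, h1, h2, h3⟩

omit [LinearOrder α] in
private theorem Sim_last' {p : α → Bool} {m E : List α} {b : α} (h : m.filter p = E ++ [b]) :
    ∃ r s : List α, m = r ++ b :: s ∧ (∀ x ∈ s, ¬ p x) ∧ r.filter p = E := by
  obtain ⟨l₁, l₂, rfl, h1, h2⟩ := List.filter_eq_append_iff.1 h
  obtain ⟨s, r, rfl, h3, h4⟩ := Sim_first h2
  refine ⟨l₁ ++ s, r, by simp, ?_, ?_⟩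
  · intro x hx hpx
    have : x ∈ r.filter p := List.mem_filter.2 ⟨hx, hpx⟩
    rw [h4] at this
    simp at this
  · rw [List.filter_append, h1]
    have : s.filter p = [] := List.filter_eq_nil_iff.2 h3
    rw [this, List.append_nil]

private theorem Sim_gap_cons (a : α) (l : List α) :
    gap B y (a :: l) = if a = y then 0 else (if a ∈ B then 1 else 0) + gap B y l := by
  unfold gap
  by_cases h : a = y
  · simp [h]
  · by_cases hB : a ∈ B
    · simp [h, hB, add_comm]
    · simp [h, hB]

/-- the data of a word split at `y` -/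
private theorem Sim_gap_split (m₂ : List α) : ∀ {m₁ : List α}, y ∉ m₁ →
    gap B y (m₁ ++ y :: m₂) = (m₁.filter (· ∈ B)).length := by
  intro m₁
  induction m₁ with
  | nil =>
    intro _
    simp [Sim_gap_cons]
  | cons a m₁ ih =>
    intro h
    have h1 : a ≠ y := fun h0 => h (by simp [h0])
    have h2 : y ∉ m₁ := fun h0 => h (by simp [h0])
    rw [List.cons_append, Sim_gap_cons, if_neg h1, ih h2]
    by_cases hB : a ∈ B
    · simp [hB, add_comm]
    · simp [hB]

private theorem Sim_filter_split (hy : y ∉ B) (m₁ m₂ : List α) :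
    (m₁ ++ y :: m₂).filter (· ∈ B) = m₁.filter (· ∈ B) ++ m₂.filter (· ∈ B) := by
  simp [List.filter_append, hy]

/-- passive letters do not matter -/
private theorem Sim_gap_swap {p : α} (hp : p ∉ B) (hpy : p ≠ y) (b : α) (l₂ : List α) :
    ∀ l₁ : List α, gap B y (l₁ ++ p :: b :: l₂) = gap B y (l₁ ++ b :: p :: l₂) := by
  intro l₁
  induction l₁ with
  | nil =>
    simp only [List.nil_append, Sim_gap_cons, if_neg hp, if_neg hpy, zero_add]
  | cons a l₁ ih => simp only [List.cons_append, Sim_gap_cons, ih]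

private theorem Sim_infl_swap {p : α} (hp : p ∉ B) (hpy : p ≠ y) (b : α) (l₁ l₂ : List α) :
    infl K B y (l₁ ++ p :: b :: l₂) = infl K B y (l₁ ++ b :: p :: l₂) := by
  unfold infl
  rw [Sim_gap_swap hp hpy]
  congr 1
  simp [List.filter_append, List.filter_cons, hp]

end Lists

private theorem Sim_perm {S : Sys α} {l l' : List α}
    (h : Relation.ReflTransGen S.CStep l l') : l'.Perm l := by
  induction h with
  | refl => exact List.Perm.refl _
  | tail _ h ih =>
    refine List.Perm.trans ?_ ih
    cases h with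
    | right l₁ l₂ b c _ => exact List.Perm.append_left l₁ (List.Perm.swap b c l₂)
    | left l₁ l₂ b c _ => exact List.Perm.append_left l₁ (List.Perm.swap b c l₂)
    | wrap l₁ b _ => exact (List.perm_append_singleton b l₁).symm

section Moves

variable (S : Sys α)

private theorem Sim_right (hS : ∀ l : List α, S.z ∉ l → S.info (S.z :: l) = infl K B y l)
    {b c : α} {l₂ : List α} : ∀ (s l₁ : List α), (∀ p ∈ s, p ∉ B ∧ p ≠ y) →
    S.z ∉ l₁ ++ b :: (s ++ c :: l₂) → infl K B y (l₁ ++ b :: (s ++ c :: l₂)) = (b, true) →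
    Relation.ReflTransGen S.CStep (l₁ ++ b :: (s ++ c :: l₂)) (l₁ ++ (s ++ c :: b :: l₂)) := by
  intro s
  induction s with
  | nil =>
    intro l₁ _ hz h
    exact Relation.ReflTransGen.single (Sys.CStep.right l₁ l₂ b c ((hS _ hz).trans h))
  | cons p s ih =>
    intro l₁ hs hz h
    have hp := hs p (by simp)
    have h1 : Relation.ReflTransGen S.CStep (l₁ ++ b :: (p :: s ++ c :: l₂))
        (l₁ ++ p :: b :: (s ++ c :: l₂)) :=
      Relation.ReflTransGen.single (Sys.CStep.right l₁ (s ++ c :: l₂) b p (by rw [← h]; exact hS _ hz))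
    have h2 := ih (l₁ ++ [p]) (fun q hq => hs q (by simp [hq])) (by simpa [and_assoc, or_assoc, or_comm, or_left_comm, not_or] using hz)
      (by
        rw [List.append_assoc, List.singleton_append, Sim_infl_swap K hp.1 hp.2]
        exact h)
    refine h1.trans ?_
    simpa using h2

private theorem Sim_left (hS : ∀ l : List α, S.z ∉ l → S.info (S.z :: l) = infl K B y l)
    {b c : α} {l₁ : List α} : ∀ (s l₂ : List α), (∀ p ∈ s, p ∉ B ∧ p ≠ y) →
    S.z ∉ l₁ ++ b :: (s ++ c :: l₂) → infl K B y (l₁ ++ b :: (s ++ c :: l₂)) = (c, false) →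
    Relation.ReflTransGen S.CStep (l₁ ++ b :: (s ++ c :: l₂)) (l₁ ++ c :: b :: (s ++ l₂)) := by
  intro s
  induction s using List.reverseRecOn with
  | nil =>
    intro l₂ _ hz h
    exact Relation.ReflTransGen.single (Sys.CStep.left l₁ l₂ b c ((hS _ hz).trans h))
  | append_singleton s p ih =>
    intro l₂ hs hz h
    have hp := hs p (by simp)
    have e1 : l₁ ++ b :: ((s ++ [p]) ++ c :: l₂) = (l₁ ++ b :: s) ++ p :: c :: l₂ := by simp
    have e2 : l₁ ++ b :: (s ++ c :: (p :: l₂)) = (l₁ ++ b :: s) ++ c :: p :: l₂ := by simp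
    have h1 : Relation.ReflTransGen S.CStep (l₁ ++ b :: ((s ++ [p]) ++ c :: l₂))
        (l₁ ++ b :: (s ++ c :: (p :: l₂))) := by
      rw [e1, e2]
      refine Relation.ReflTransGen.single (Sys.CStep.left _ _ _ _ ?_)
      rw [← e1, hS _ hz, h]
    have hz' : S.z ∉ l₁ ++ b :: (s ++ c :: (p :: l₂)) := fun h0 => hz ((Sim_perm h1).mem_iff.1 h0)
    have h2 := ih (p :: l₂) (fun q hq => hs q (by simp [hq])) hz'
      (by
        rw [e2, ← Sim_infl_swap K hp.1 hp.2, ← e1]
        exact h)
    refine h1.trans ?_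
    simpa using h2

private theorem Sim_end (hS : ∀ l : List α, S.z ∉ l → S.info (S.z :: l) = infl K B y l)
    {b : α} : ∀ (s l₁ : List α), (∀ p ∈ s, p ∉ B ∧ p ≠ y) →
    S.z ∉ l₁ ++ b :: s → infl K B y (l₁ ++ b :: s) = (b, true) →
    Relation.ReflTransGen S.CStep (l₁ ++ b :: s) (l₁ ++ s ++ [b]) ∧
      infl K B y (l₁ ++ s ++ [b]) = (b, true) := by
  intro s
  induction s with
  | nil =>
    intro l₁ _ hz h
    refine ⟨by simpa using Relation.ReflTransGen.refl, by simpa using h⟩
  | cons p s ih =>
    intro l₁ hs hz h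
    have hp := hs p (by simp)
    have h1 : Relation.ReflTransGen S.CStep (l₁ ++ b :: (p :: s)) (l₁ ++ p :: b :: s) :=
      Relation.ReflTransGen.single (Sys.CStep.right l₁ s b p (by rw [← h]; exact hS _ hz))
    have hz' : S.z ∉ (l₁ ++ [p]) ++ b :: s := by
      intro h0
      apply hz
      apply (Sim_perm h1).mem_iff.1
      simpa using h0
    have h2 := ih (l₁ ++ [p]) (fun q hq => hs q (by simp [hq])) hz'
      (by
        rw [List.append_assoc, List.singleton_append, Sim_infl_swap K hp.1 hp.2]
        exact h)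
    refine ⟨h1.trans ?_, ?_⟩
    · simpa using h2.1
    · simpa using h2.2

end Moves

omit [LinearOrder α] in
private theorem Sim_getD_next (D₁ E : List α) (b : α) : (D₁ ++ b :: E).getD D₁.length y = b := by
  simp

omit [LinearOrder α] in
private theorem Sim_getD_prev (E D₂ : List α) (b : α) :
    ((E ++ [b]) ++ D₂).getD ((E ++ [b]).length - 1) y = b := by
  simp

/-- the data of a full word -/
private theorem Sim_data (hy : y ∉ B) {l : List α} (hl : Full B y l) :
    ∃ m₁ m₂ : List α, l = m₁ ++ y :: m₂ ∧ y ∉ m₁ ∧ y ∉ m₂ ∧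
      l.filter (· ∈ B) = m₁.filter (· ∈ B) ++ m₂.filter (· ∈ B) ∧
      gap B y l = (m₁.filter (· ∈ B)).length ∧
      (m₁.filter (· ∈ B)).length + (m₂.filter (· ∈ B)).length = B.card := by
  obtain ⟨m₁, m₂, rfl⟩ := List.append_of_mem hl.2.1
  have hn := hl.1
  have h1 : y ∉ m₁ := by
    intro h
    exact (List.disjoint_of_nodup_append hn) h (by simp)
  have h2 : y ∉ m₂ := by
    have := (List.nodup_append.1 hn).2.1
    exact (List.nodup_cons.1 this).1
  refine ⟨m₁, m₂, rfl, h1, h2, Sim_filter_split hy m₁ m₂, Sim_gap_split m₂ h1, ?_⟩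
  have h3 : ((m₁ ++ y :: m₂).filter (· ∈ B)).toFinset = B := by
    ext a
    rw [List.mem_toFinset, List.mem_filter]
    constructor
    · intro h
      simpa using h.2
    · intro h
      exact ⟨hl.2.2 a h, by simpa using h⟩
  have h4 := List.toFinset_card_of_nodup (hn.filter (fun a => decide (a ∈ B)))
  rw [h3, Sim_filter_split hy, List.length_append] at h4
  exact h4.symm

theorem sim_step (S : Sys α) (hB : B.card = 5 * M - 1) (hM : 2 ≤ M) (hy : y ∉ B)
    (hz : S.z ∉ B ∧ S.z ≠ y)
    (hS : ∀ l : List α, S.z ∉ l → S.info (S.z :: l) = infl K B y l)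
    {l : List α} (hl : Full B y l) (hzl : S.z ∉ l) :
    ∃ l' : List α, Relation.ReflTransGen S.CStep l l' ∧ l'.Perm l ∧
      (l'.filter (· ∈ B), gap B y l') = K.nxt (l.filter (· ∈ B), gap B y l) := by
  obtain ⟨m₁, m₂, rfl, h1, h2, hD, hg, hcard⟩ := Sim_data hy hl
  have hinf : infl K B y (m₁ ++ y :: m₂)
      = K.inf y (m₁.filter (· ∈ B) ++ m₂.filter (· ∈ B)) (m₁.filter (· ∈ B)).length := by
    rw [infl, hD, hg]
  rw [hD, hg]
  -- it suffices to describe the new word in the form `n₁ ++ y :: n₂`
  suffices h : ∃ n₁ n₂ : List α, y ∉ n₁ ∧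
      Relation.ReflTransGen S.CStep (m₁ ++ y :: m₂) (n₁ ++ y :: n₂) ∧
      (n₁.filter (· ∈ B) ++ n₂.filter (· ∈ B), (n₁.filter (· ∈ B)).length)
        = K.nxt (m₁.filter (· ∈ B) ++ m₂.filter (· ∈ B), (m₁.filter (· ∈ B)).length) by
    obtain ⟨n₁, n₂, a1, a2, a3⟩ := h
    exact ⟨n₁ ++ y :: n₂, a2, Sim_perm a2, by rw [Sim_filter_split hy, Sim_gap_split n₂ a1, a3]⟩
  rw [hB] at hcard
  have hpass : ∀ {m s : List α}, (∀ x ∈ s, ¬ (fun a => decide (a ∈ B)) x = true) →
      (∀ x ∈ s, x ∈ m) → y ∉ m → ∀ x ∈ s, x ∉ B ∧ x ≠ y := by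
    intro m s h3 h4 h5 x hx
    refine ⟨by simpa using h3 x hx, ?_⟩
    rintro rfl
    exact h5 (h4 _ hx)
  by_cases h0 : K.Phi (m₁.filter (· ∈ B) ++ m₂.filter (· ∈ B)) = 0
  · by_cases t0 : (m₁.filter (· ∈ B)).length % 5 = 0
    · -- the mover is the next letter of `B`
      obtain ⟨b, E, hE⟩ : ∃ b E, m₂.filter (· ∈ B) = b :: E := by
        rcases hm : m₂.filter (· ∈ B) with _ | ⟨b, E⟩
        · rw [hm] at hcard
          simp at hcard
          omega
        · exact ⟨b, E, rfl⟩
      obtain ⟨c, E', rfl⟩ : ∃ c E', E = c :: E' := by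
        rcases E with _ | ⟨c, E'⟩
        · rw [hE] at hcard
          simp at hcard
          omega
        · exact ⟨c, E', rfl⟩
      obtain ⟨s₀, r₀, rfl, h3, h4⟩ := Sim_first hE
      obtain ⟨s, r, rfl, h5, h6⟩ := Sim_first h4
      have hm : infl K B y (m₁ ++ y :: (s₀ ++ b :: (s ++ c :: r))) = (b, true) := by
        rw [hinf, Code.inf, if_pos h0, if_pos t0, hE, Sim_getD_next]
      have e1 : m₁ ++ y :: (s₀ ++ b :: (s ++ c :: r)) = (m₁ ++ y :: s₀) ++ b :: (s ++ c :: r) := by
        simp
      have h7 := Sim_right K S hS (b := b) (c := c) (l₂ := r) s (m₁ ++ y :: s₀)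
        (hpass h5 (fun x hx => by simp [hx]) h2) (by rw [← e1]; exact hzl) (by rw [← e1]; exact hm)
      refine ⟨m₁, s₀ ++ (s ++ c :: b :: r), h1, ?_, ?_⟩
      · rw [e1]
        simpa using h7
      · rw [Code.nxt]
        simp only [if_pos h0, if_pos t0]
        rw [hE, Sim_swp_append]
        have hs0 : s₀.filter (· ∈ B) = [] := List.filter_eq_nil_iff.2 h3
        have hs : s.filter (· ∈ B) = [] := List.filter_eq_nil_iff.2 h5
        have hb : b ∈ B := by
          have : b ∈ (s₀ ++ b :: (s ++ c :: r)).filter (· ∈ B) := by rw [hE]; simp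
          simpa using (List.mem_filter.1 this).2
        have hc : c ∈ B := by
          have : c ∈ (s₀ ++ b :: (s ++ c :: r)).filter (· ∈ B) := by rw [hE]; simp
          simpa using (List.mem_filter.1 this).2
        simp [List.filter_append, hs0, hs, hb, hc, h6]
    · -- `D₁` is not empty
      obtain ⟨E, b, hE⟩ : ∃ E b, m₁.filter (· ∈ B) = E ++ [b] := by
        rcases List.eq_nil_or_concat (m₁.filter (· ∈ B)) with hm | ⟨E, b, hm⟩
        · rw [hm] at t0
          simp at t0
        · exact ⟨E, b, by rw [hm, List.concat_eq_append]⟩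
      obtain ⟨r, s, rfl, h3, h4⟩ := Sim_last' hE
      have hs : s.filter (· ∈ B) = [] := List.filter_eq_nil_iff.2 h3
      have hb : b ∈ B := by
        have : b ∈ (r ++ b :: s).filter (· ∈ B) := by rw [hE]; simp
        simpa using (List.mem_filter.1 this).2
      have e1 : (r ++ b :: s) ++ y :: m₂ = r ++ b :: (s ++ y :: m₂) := by simp
      by_cases t4 : ((r ++ b :: s).filter (· ∈ B)).length % 5 = 4
      · have hm : infl K B y ((r ++ b :: s) ++ y :: m₂) = (b, true) := by
          rw [hinf, Code.inf, if_pos h0, if_neg t0, if_pos t4, hE, Sim_getD_prev]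
        have h7 := Sim_right K S hS (b := b) (c := y) (l₂ := m₂) s r
          (hpass h3 (fun x hx => by simp [hx]) h1) (by rw [← e1]; exact hzl)
          (by rw [← e1]; exact hm)
        refine ⟨r ++ s, b :: m₂, ?_, ?_, ?_⟩
        · intro h
          apply h1
          rcases List.mem_append.1 h with h | h
          · exact List.mem_append.2 (Or.inl h)
          · exact List.mem_append.2 (Or.inr (List.mem_cons_of_mem _ h))
        · rw [e1]
          simpa using h7
        · rw [Code.nxt]
          simp only [if_pos h0, if_neg t0]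
          simp [List.filter_append, hs, hb, h4]
      · have hm : infl K B y ((r ++ b :: s) ++ y :: m₂) = (y, false) := by
          rw [hinf, Code.inf, if_pos h0, if_neg t0, if_neg t4]
        have h7 := Sim_left K S hS (b := b) (c := y) (l₁ := r) s m₂
          (hpass h3 (fun x hx => by simp [hx]) h1) (by rw [← e1]; exact hzl)
          (by rw [← e1]; exact hm)
        refine ⟨r, b :: (s ++ m₂), ?_, ?_, ?_⟩
        · intro h
          exact h1 (List.mem_append.2 (Or.inl h))
        · rw [e1]
          simpa using h7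
        · rw [Code.nxt]
          simp only [if_pos h0, if_neg t0]
          simp [List.filter_append, hs, hb, h4]
  · by_cases t4 : (m₁.filter (· ∈ B)).length
        = 5 * K.ix (K.Phi (m₁.filter (· ∈ B) ++ m₂.filter (· ∈ B))) + 4
    · -- the mover is the previous letter of `B`
      obtain ⟨E', c, hE'⟩ : ∃ E c, m₁.filter (· ∈ B) = E ++ [c] := by
        rcases List.eq_nil_or_concat (m₁.filter (· ∈ B)) with hm | ⟨E, b, hm⟩
        · rw [hm] at t4
          simp at t4
        · exact ⟨E, b, by rw [hm, List.concat_eq_append]⟩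
      obtain ⟨E, b, rfl⟩ : ∃ E b, E' = E ++ [b] := by
        rcases List.eq_nil_or_concat E' with hm | ⟨E, b, hm⟩
        · rw [hE', hm] at t4
          simp at t4
        · exact ⟨E, b, by rw [hm, List.concat_eq_append]⟩
      obtain ⟨r', s', rfl, h3, h4⟩ := Sim_last' hE'
      obtain ⟨r, s, rfl, h5, h6⟩ := Sim_last' h4
      have hs' : s'.filter (· ∈ B) = [] := List.filter_eq_nil_iff.2 h3
      have hs : s.filter (· ∈ B) = [] := List.filter_eq_nil_iff.2 h5
      have hb : b ∈ B := by
        have : b ∈ ((r ++ b :: s) ++ c :: s').filter (· ∈ B) := by rw [hE']; simp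
        simpa using (List.mem_filter.1 this).2
      have hc : c ∈ B := by
        have : c ∈ ((r ++ b :: s) ++ c :: s').filter (· ∈ B) := by rw [hE']; simp
        simpa using (List.mem_filter.1 this).2
      have hm : infl K B y (((r ++ b :: s) ++ c :: s') ++ y :: m₂) = (c, false) := by
        rw [hinf, Code.inf, if_neg h0, if_pos t4, hE', Sim_getD_prev]
      have e1 : ((r ++ b :: s) ++ c :: s') ++ y :: m₂
          = r ++ b :: (s ++ c :: (s' ++ y :: m₂)) := by simp
      have h7 := Sim_left K S hS (b := b) (c := c) (l₁ := r) s (s' ++ y :: m₂)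
        (hpass h5 (fun x hx => by simp [hx]) h1) (by rw [← e1]; exact hzl)
        (by rw [← e1]; exact hm)
      refine ⟨r ++ c :: b :: (s ++ s'), m₂, ?_, ?_, ?_⟩
      · intro h
        apply h1
        simp only [List.mem_append, List.mem_cons] at h ⊢
        tauto
      · rw [e1]
        simpa using h7
      · rw [Code.nxt]
        simp only [if_neg h0, if_pos t4]
        have e2 : ((r ++ b :: s) ++ c :: s').filter (· ∈ B) ++ m₂.filter (· ∈ B)
            = E ++ b :: c :: m₂.filter (· ∈ B) := by
          rw [hE']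
          simp
        have e3 : (((r ++ b :: s) ++ c :: s').filter (· ∈ B)).length - 2 = E.length := by
          rw [hE']
          simp
        rw [e2, e3, Sim_swp_append, hE']
        simp [List.filter_append, hs, hs', hb, hc, h6]
    · by_cases t5 : (m₁.filter (· ∈ B)).length
          = 5 * (K.ix (K.Phi (m₁.filter (· ∈ B) ++ m₂.filter (· ∈ B))) + 1) % (5 * M)
      · -- the mover is the next letter of `B`, it goes left
        obtain ⟨c, E, hE⟩ : ∃ b E, m₂.filter (· ∈ B) = b :: E := by
          rcases hm : m₂.filter (· ∈ B) with _ | ⟨b, E⟩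
          · exfalso
            rw [Nat.mul_mod_mul_left] at t5
            have : (K.ix (K.Phi (m₁.filter (· ∈ B) ++ m₂.filter (· ∈ B))) + 1) % M < M :=
              Nat.mod_lt _ (by omega)
            rw [hm] at hcard
            simp at hcard
            omega
          · exact ⟨b, E, rfl⟩
        obtain ⟨s, r, rfl, h3, h4⟩ := Sim_first hE
        have hs : s.filter (· ∈ B) = [] := List.filter_eq_nil_iff.2 h3
        have hc : c ∈ B := by
          have : c ∈ (s ++ c :: r).filter (· ∈ B) := by rw [hE]; simp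
          simpa using (List.mem_filter.1 this).2
        have hm : infl K B y (m₁ ++ y :: (s ++ c :: r)) = (c, false) := by
          rw [hinf, Code.inf, if_neg h0, if_neg t4, if_pos t5, hE, Sim_getD_next]
        have h7 := Sim_left K S hS (b := y) (c := c) (l₁ := m₁) s r
          (hpass h3 (fun x hx => by simp [hx]) h2) hzl hm
        have hyc : y ≠ c := fun h => hy (h ▸ hc)
        refine ⟨m₁ ++ [c], s ++ r, ?_, ?_, ?_⟩
        · simp [h1, hyc]
        · simpa using h7
        · rw [Code.nxt]
          simp only [if_neg h0, if_neg t4]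
          rw [Nat.mod_eq_of_lt (by rw [hE] at hcard; simp at hcard; omega)]
          simp [List.filter_append, hs, hc, h4]
      · -- the mover is `y`, it goes right
        have hm : infl K B y (m₁ ++ y :: m₂) = (y, true) := by
          rw [hinf, Code.inf, if_neg h0, if_neg t4, if_neg t5]
        rcases hm2 : m₂.filter (· ∈ B) with _ | ⟨c, E⟩
        · have h3 := List.filter_eq_nil_iff.1 hm2
          obtain ⟨h7, h8⟩ := Sim_end K S hS (b := y) m₂ m₁
            (hpass h3 (fun x hx => hx) h2) hzl hm
          have hz' : S.z ∉ (m₁ ++ m₂) ++ [y] := fun h => hzl ((Sim_perm h7).mem_iff.1 h)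
          refine ⟨[], m₁ ++ m₂, by simp, ?_, ?_⟩
          · exact h7.tail (Sys.CStep.wrap (m₁ ++ m₂) y ((hS _ hz').trans h8))
          · rw [hm2] at h0 t4 hcard
            rw [Code.nxt]
            simp only [if_neg h0, if_neg t4]
            have e1 : ((m₁.filter (· ∈ B)).length + 1) % (5 * M) = 0 := by
              rw [show (m₁.filter (· ∈ B)).length + 1 = 5 * M by simp at hcard; omega,
                Nat.mod_self]
            rw [e1]
            simp [List.filter_append, hm2]
        · obtain ⟨s, r, rfl, h3, h4⟩ := Sim_first hm2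
          have hs : s.filter (· ∈ B) = [] := List.filter_eq_nil_iff.2 h3
          have hc : c ∈ B := by
            have : c ∈ (s ++ c :: r).filter (· ∈ B) := by rw [hm2]; simp
            simpa using (List.mem_filter.1 this).2
          have h7 := Sim_right K S hS (b := y) (c := c) (l₂ := r) s m₁
            (hpass h3 (fun x hx => by simp [hx]) h2) hzl hm
          have hyc : y ≠ c := fun h => hy (h ▸ hc)
          refine ⟨m₁ ++ (s ++ [c]), r, ?_, ?_, ?_⟩
          · have : y ∉ s := fun h => h2 (by simp [h])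
            simp [h1, this, hyc]
          · simpa using h7
          · rw [hm2] at h0 t4 hcard
            rw [Code.nxt]
            simp only [if_neg h0, if_neg t4]
            rw [Nat.mod_eq_of_lt (by simp at hcard; omega)]
            simp [List.filter_append, hs, hc, h4]

private theorem h0'' {D : List α} {t : ℕ} (hX : K.X 0 ≠ 0) (hix : K.ix (K.X 0) = 0)
    (h0 : K.Phi D = K.X 0) (hM : 2 ≤ M) (ht : t = 5 * M - 1) : K.inf y D t = (y, true) := by
  have h1 : 5 * (0 + 1) % (5 * M) = 5 := Nat.mod_eq_of_lt (by omega)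
  rw [Code.inf, h0, if_neg hX, hix, h1, if_neg (by omega), if_neg (by omega)]

theorem sim_last (S : Sys α) (hB : B.card = 5 * M - 1) (hM : 2 ≤ M) (hy : y ∉ B)
    (hz : S.z ∉ B ∧ S.z ≠ y)
    (hS : ∀ l : List α, S.z ∉ l → S.info (S.z :: l) = infl K B y l)
    {l : List α} (hl : Full B y l) (hzl : S.z ∉ l)
    (h0 : K.Phi (l.filter (· ∈ B)) = K.X 0) (ht : gap B y l = 5 * M - 1) :
    ∃ l' : List α, Relation.ReflTransGen S.CStep l (l' ++ [y]) ∧ (l' ++ [y]).Perm l ∧
      l'.filter (· ∈ B) = l.filter (· ∈ B) := by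
  obtain ⟨m₁, m₂, rfl, h1, h2, hD, hg, hcard⟩ := Sim_data hy hl
  rw [hg] at ht
  have hm2 : m₂.filter (· ∈ B) = [] := by
    rw [ht, hB] at hcard
    exact List.length_eq_zero_iff.1 (by omega)
  have h3 := List.filter_eq_nil_iff.1 hm2
  have hX : K.X 0 ≠ 0 := K.X_ne 0 (by omega)
  have hix : K.ix (K.X 0) = 0 := K.ix_X 0 (by omega)
  have hm : infl K B y (m₁ ++ y :: m₂) = (y, true) := by
    rw [infl, h0'' K hX hix h0 hM (hg.trans ht)]
  obtain ⟨h7, _⟩ := Sim_end K S hS (b := y) m₂ m₁
    (fun x hx => ⟨by simpa using h3 x hx, fun h => h2 (h ▸ hx)⟩) hzl hm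
  refine ⟨m₁ ++ m₂, h7, Sim_perm h7, ?_⟩
  rw [hD, List.filter_append]

end Pool.Agent.Lib.MP_e0d433_co
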