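import Pool.Agent.Lib.MP_e0d433_co.SysInst
import Pool.Agent.Lib.MP_e0d433_co.Sim
import Pool.Agent.Lib.MP_e0d433_co.CodeReach

/-!
# MP_e0d433_co: reachability for the concrete system
-/

namespace Pool.Agent.Lib.MP_e0d433_co

open Finset

theorem anch_cons {α : Type*} [LinearOrder α] (z : α) (l : List α) : anch z (z :: l) = l := by
  simp [anch]

variable {G : Type*} [AddCommGroup G] [DecidableEq G] {M : ℕ} (K : Code G M)
variable {α : Type*} [LinearOrder α] {B : Finset α} {y : α}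

theorem gap_lt (hB : B.card = 5 * M - 1) (hM : 2 ≤ M) {l : List α} (hl : Full B y l) :
    gap B y l < 5 * M ∧ l.filter (· ∈ B) ∈ perms B := by
  have hD : l.filter (· ∈ B) ∈ perms B := by
    rw [mem_perms]
    refine ⟨hl.1.filter _, ?_⟩
    ext a
    simp only [List.mem_toFinset, List.mem_filter, decide_eq_true_eq]
    exact ⟨fun h => h.2, fun h => ⟨hl.2.2 a h, h⟩⟩
  refine ⟨?_, hD⟩
  have h1 : gap B y l ≤ (l.filter (· ∈ B)).length := by
    unfold gap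
    exact ((List.takeWhile_prefix _).sublist.filter _).length_le
  rw [length_of_mem_perms hD, hB] at h1
  omega

theorem reach_sys [Fintype α] (S : Sys α) (hB : B.card = 5 * M - 1) (hM : 2 ≤ M) (hy : y ∉ B)
    (hzB : S.z ∉ B) (hzy : S.z ≠ y) (hwB : S.w ∉ B) (hwy : S.w ≠ y) (hwz : S.w ≠ S.z)
    (hxB : S.x ∉ B) (hxy : S.x ≠ y)
    (hS : ∀ l : List α, S.info (S.z :: l) = infl K B y l) {l : List α}
    (hl : l ∈ perms (univ \ {S.x, S.z})) :
    ∃ l₁ l₂ : List α, Relation.ReflTransGen S.CStep l (l₁ ++ S.w :: (l₂ ++ [y])) ∧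
      K.Phi ((l₁ ++ l₂).filter (· ∈ B)) = K.X 0 := by
  have hmem : ∀ a, a ∈ l ↔ a ≠ S.x ∧ a ≠ S.z := by
    intro a
    rw [mem_iff_of_mem_perms hl]
    simp
  have hfull : Full B y l := by
    refine ⟨nodup_of_mem_perms hl, (hmem y).2 ⟨hxy.symm, hzy.symm⟩, ?_⟩
    intro b hb
    refine (hmem b).2 ⟨?_, ?_⟩
    · rintro rfl; exact hxB hb
    · rintro rfl; exact hzB hb
  have hzl : S.z ∉ l := fun h => ((hmem S.z).1 h).2 rfl
  have hiter : ∀ k : ℕ, ∃ l' : List α, Relation.ReflTransGen S.CStep l l' ∧ l'.Perm l ∧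
      (l'.filter (· ∈ B), gap B y l') = K.nxt^[k] (l.filter (· ∈ B), gap B y l) := by
    intro k
    induction k with
    | zero => exact ⟨l, Relation.ReflTransGen.refl, List.Perm.refl _, rfl⟩
    | succ k ih =>
      obtain ⟨l', h1, h2, h3⟩ := ih
      have hf' : Full B y l' :=
        ⟨h2.nodup_iff.2 hfull.1, h2.mem_iff.2 hfull.2.1, fun b hb => h2.mem_iff.2 (hfull.2.2 b hb)⟩
      obtain ⟨l'', h4, h5, h6⟩ := sim_step K S hB hM hy ⟨hzB, hzy⟩ (fun l _ => hS l) hf'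
        (fun h => hzl (h2.mem_iff.1 h))
      refine ⟨l'', h1.trans h4, h5.trans h2, ?_⟩
      rw [Function.iterate_succ_apply', ← h3, h6]
  obtain ⟨hg, hD⟩ := gap_lt hB hM hfull
  obtain ⟨k, hk1, hk2⟩ := K.reach_code hM B hB hD hg
  obtain ⟨l', h1, h2, h3⟩ := hiter k
  have hf' : Full B y l' :=
    ⟨h2.nodup_iff.2 hfull.1, h2.mem_iff.2 hfull.2.1, fun b hb => h2.mem_iff.2 (hfull.2.2 b hb)⟩
  rw [← h3] at hk1 hk2
  obtain ⟨l'', h4, h5, h6⟩ := sim_last K S hB hM hy ⟨hzB, hzy⟩ (fun l _ => hS l) hf'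
    (fun h => hzl (h2.mem_iff.1 h)) hk1 hk2
  have hw : S.w ∈ l'' := by
    have : S.w ∈ l'' ++ [y] := by
      rw [h5.mem_iff, h2.mem_iff, hmem]
      exact ⟨S.x_ne_w.symm, hwz⟩
    rw [List.mem_append, List.mem_singleton] at this
    exact this.resolve_right hwy
  obtain ⟨l₁, l₂, rfl⟩ := List.append_of_mem hw
  refine ⟨l₁, l₂, ?_, ?_⟩
  · have : l₁ ++ S.w :: (l₂ ++ [y]) = l₁ ++ S.w :: l₂ ++ [y] := by simp
    rw [this]
    exact h1.trans h4
  · have : (l₁ ++ l₂).filter (· ∈ B) = (l₁ ++ S.w :: l₂).filter (· ∈ B) := by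
      simp [List.filter_append, hwB]
    rw [this, h6]
    exact hk1

end Pool.Agent.Lib.MP_e0d433_co
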