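import Pool.Agent.Lib.MP_e0d433_co.Sys
import Pool.Agent.Lib.MP_e0d433_co.Count

/-!
# MP_e0d433_co: cardinalities for a system

TASK S2.  The statements of `sum_md`, `card_EW`, `card_EV`, `card_KV` must stay; helper lemmas may
be added freely.  (`n = Fintype.card α`.)

## Proof of `sum_md`
`md P = 1` unless `P = x :: C`, `C ∈ perms (univ \ {x})`; so the sum is
`n! + ∑_C (mode C - 1) = n! + (n-1)! + #{C : Out C} - #{C : Wasted C, not Out C}`.
General lemma (re-anchoring): let `q₁ q₂ : List α → α` and a predicate `F` be invariant under
rotation of the words `C ∈ perms T`, with `q₁ C, q₂ C ∈ T`.  Then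
`#{C ∈ perms T | C.head? = some (q₁ C) ∧ F C} = #{C ∈ perms T | C.head? = some (q₂ C) ∧ F C}`
(bijection: rotate the word until `q₂ C` comes first, `C ↦ C.rotate (C.idxOf (q₂ C))`).
With `q₂ = z` this is `#{l ∈ perms (T \ {z}) | F (z :: l)}`.
* `Out C` holds iff (direction right and `C.head? = some q`) or (direction left and
  `(C.rotate 1).head? = some q`), `q` the mover; so `#Out ≤ #{l ∈ perms (univ \ {x, z})} = (n-2)!`
  (only `≤` is needed).
* `Wasted C` iff direction left and (`C.head? = some q` or the last letter is `q`, i.e.
  `(C.rotate (n-2)).head? = some q`); these two are disjoint (more than one letter) and also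
  disjoint from `Out C` (for direction left: `Out` iff `q` is the second letter; at least 3 letters),
  so there are `2 * cntL (univ \ {x, z})` of them (only `≥` is needed).

## Proof of `card_EW`
`EW` is contained in the image of the set of triples `(l, side, k)`,
`l ∈ perms (univ \ {x, w, z})` with mover going left, `side : Bool`, `k < n - 1`, under the map
`w :: (ins side (z :: l)).rotate k` where `ins` inserts `x` immediately before/after the mover `q`
in the word `z :: l` (use `filt` and `rot` to see that the mover of `Q` is the mover of `z :: l`,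
when `Q` is a rotation of such a word: `x ∉ A`).  Similarly for `card_EV`: image of `(l, k)` under
`w :: (x :: (l ++ [y, z])).rotate k`.
-/

namespace Pool.Agent.Lib.MP_e0d433_co

open Finset

namespace Sys

variable {α : Type*} [DecidableEq α] [Fintype α] (S : Sys α)

omit [Fintype α] in
theorem SysCount_rotate_mem {T : Finset α} {C : List α} (h : C ∈ perms T) (k : ℕ) :
    C.rotate k ∈ perms T := perm_mem_perms h (List.rotate_perm C k)

omit [DecidableEq α] [Fintype α] in
/-- Rotations of a word without repetition are determined by the first letter. -/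
theorem SysCount_eq_of_isRotated {C D : List α} (hC : C.Nodup) (h : C ~r D)
    (hh : C.head? = D.head?) : C = D := by
  obtain ⟨k, hk, rfl⟩ := List.isRotated_iff_mod.1 h
  rcases Nat.eq_zero_or_pos C.length with h0 | h0
  · rw [List.length_eq_zero_iff] at h0
    subst h0
    simp
  · rcases Nat.lt_or_ge k C.length with hlt | hge
    · rw [List.head?_rotate hlt, List.head?_eq_getElem?, List.getElem?_eq_getElem h0,
        List.getElem?_eq_getElem hlt, Option.some.injEq, hC.getElem_inj_iff] at hh
      subst hh
      simp
    · have : k = C.length := by omega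
      subst this
      simp

omit [Fintype α] in
/-- Re-anchoring. -/
theorem SysCount_anchor (T : Finset α) (q₁ q₂ : List α → α) (F : List α → Prop)
    [DecidablePred F] (h1 : ∀ C ∈ perms T, ∀ k, q₁ (C.rotate k) = q₁ C)
    (h2 : ∀ C ∈ perms T, ∀ k, q₂ (C.rotate k) = q₂ C)
    (hF : ∀ C ∈ perms T, ∀ k, F C → F (C.rotate k)) (hm : ∀ C ∈ perms T, q₂ C ∈ T) :
    ((perms T).filter (fun C => C.head? = some (q₁ C) ∧ F C)).card ≤
      ((perms T).filter (fun C => C.head? = some (q₂ C) ∧ F C)).card := by
  apply Finset.card_le_card_of_injOn (fun C => C.rotate (C.idxOf (q₂ C)))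
  · intro C hC
    rw [Finset.mem_coe, Finset.mem_filter] at hC ⊢
    obtain ⟨hC, hq, hf⟩ := hC
    have hmem : q₂ C ∈ C := (mem_iff_of_mem_perms hC _).2 (hm C hC)
    refine ⟨SysCount_rotate_mem hC _, ?_, hF C hC _ hf⟩
    show (C.rotate (C.idxOf (q₂ C))).head? = some (q₂ (C.rotate (C.idxOf (q₂ C))))
    rw [h2 C hC, List.head?_rotate (List.idxOf_lt_length_iff.2 hmem), List.getElem?_idxOf hmem]
  · intro C hC D hD hCD
    rw [Finset.mem_coe, Finset.mem_filter] at hC hD
    obtain ⟨hC, hq, hf⟩ := hC
    obtain ⟨hD, hq', hf'⟩ := hD
    have hCD' : C.rotate (C.idxOf (q₂ C)) = D.rotate (D.idxOf (q₂ D)) := hCD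
    have hrot : C ~r D := by
      have r1 : C ~r C.rotate (C.idxOf (q₂ C)) := ⟨_, rfl⟩
      have r2 : D ~r D.rotate (D.idxOf (q₂ D)) := ⟨_, rfl⟩
      rw [hCD'] at r1
      exact r1.trans r2.symm
    have hqq : q₁ C = q₁ D := by
      obtain ⟨k, rfl⟩ := hrot
      exact (h1 C hC k).symm
    exact SysCount_eq_of_isRotated (nodup_of_mem_perms hC) hrot (by rw [hq, hq', hqq])

theorem SysCount_A_mem {C : List α} (hC : C ∈ perms (univ \ {S.x} : Finset α)) :
    ∀ a ∈ S.A, a ∈ C := by
  intro a ha
  rw [mem_iff_of_mem_perms hC]
  simp only [mem_sdiff, mem_univ, mem_singleton, true_and]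
  rintro rfl
  exact S.x_notMem ha

theorem SysCount_info_rotate {C : List α} (hC : C ∈ perms (univ \ {S.x} : Finset α)) (k : ℕ) :
    S.info (C.rotate k) = S.info C := by
  induction k with
  | zero => rw [List.rotate_zero]
  | succ k ih =>
    have h := SysCount_rotate_mem hC k
    rw [← ih, ← List.rotate_rotate]
    exact S.rot _ (nodup_of_mem_perms h) (S.SysCount_A_mem h)

omit [Fintype α] in
theorem SysCount_z_ne_x : S.z ≠ S.x := fun h => S.x_notMem (h ▸ S.z_mem)

theorem SysCount_mem_T {C : List α} (hC : C ∈ perms (univ \ {S.x} : Finset α)) :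
    (S.info C).1 ∈ (univ \ {S.x} : Finset α) := by
  have h := (S.mem C (nodup_of_mem_perms hC) (S.SysCount_A_mem hC)).1
  simp only [mem_sdiff, mem_univ, mem_singleton, true_and]
  intro he
  rw [he] at h
  exact S.x_notMem h

theorem SysCount_length {C : List α} (hC : C ∈ perms (univ \ {S.x} : Finset α)) :
    C.length = Fintype.card α - 1 := by
  rw [length_of_mem_perms hC, Finset.card_sdiff_of_subset (Finset.subset_univ _),
    Finset.card_singleton, Finset.card_univ]

theorem SysCount_three_le {C : List α} (hC : C ∈ perms (univ \ {S.x} : Finset α)) :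
    3 ≤ C.length := by
  have hm := S.mem C (nodup_of_mem_perms hC) (S.SysCount_A_mem hC)
  have hsub : ({S.w, S.z, (S.info C).1} : Finset α) ⊆ C.toFinset := by
    intro a ha
    rw [List.mem_toFinset, mem_iff_of_mem_perms hC]
    simp only [mem_insert, mem_singleton] at ha
    rcases ha with rfl | rfl | rfl
    · simpa using S.x_ne_w.symm
    · simpa using S.SysCount_z_ne_x
    · exact S.SysCount_mem_T hC
  have hw1 : S.w ≠ S.z := fun h => S.w_notMem (h ▸ S.z_mem)
  have hw2 : S.w ≠ (S.info C).1 := fun h => S.w_notMem (h ▸ hm.1)
  have hcard : ({S.w, S.z, (S.info C).1} : Finset α).card = 3 := by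
    rw [Finset.card_insert_of_notMem, Finset.card_insert_of_notMem, Finset.card_singleton]
    · simpa using hm.2.symm
    · simp only [mem_insert, mem_singleton, not_or]
      exact ⟨hw1, hw2⟩
  calc 3 = _ := hcard.symm
    _ ≤ C.toFinset.card := Finset.card_le_card hsub
    _ ≤ C.length := List.toFinset_card_le C

/-- The words starting with `z`. -/
theorem SysCount_head_z (F : List α → Prop) [DecidablePred F] :
    ((perms (univ \ {S.x} : Finset α)).filter (fun C => C.head? = some S.z ∧ F C)).card =
      ((perms (univ \ {S.x, S.z} : Finset α)).filter (fun l => F (S.z :: l))).card := by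
  have hperm : ∀ l : List α, S.z :: l ∈ perms (univ \ {S.x} : Finset α) ↔
      l ∈ perms (univ \ {S.x, S.z} : Finset α) := by
    intro l
    rw [mem_perms, mem_perms, List.nodup_cons]
    constructor
    · rintro ⟨⟨hz, hn⟩, ht⟩
      refine ⟨hn, ?_⟩
      ext a
      have ha := Finset.ext_iff.1 ht a
      simp only [List.toFinset_cons, mem_insert, List.mem_toFinset, mem_sdiff, mem_univ,
        mem_singleton, true_and, not_or] at ha ⊢
      constructor
      · intro hal
        exact ⟨ha.1 (Or.inr hal), fun e => hz (e ▸ hal)⟩
      · rintro ⟨h1, h2⟩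
        rcases ha.2 h1 with h | h
        · exact absurd h h2
        · exact h
    · rintro ⟨hn, ht⟩
      refine ⟨⟨?_, hn⟩, ?_⟩
      · intro hz
        rw [← List.mem_toFinset, ht] at hz
        simp at hz
      · rw [List.toFinset_cons, ht]
        ext a
        simp only [mem_insert, mem_sdiff, mem_univ, mem_singleton, true_and, not_or]
        constructor
        · rintro (rfl | h)
          · exact S.SysCount_z_ne_x
          · exact h.1
        · intro h
          by_cases hz : a = S.z
          · exact Or.inl hz
          · exact Or.inr ⟨h, hz⟩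
  symm
  apply Finset.card_bij (fun l _ => S.z :: l)
  · intro l hl
    rw [Finset.mem_filter] at hl ⊢
    exact ⟨(hperm l).2 hl.1, rfl, hl.2⟩
  · intro l _ l' _ h
    exact (List.cons.inj h).2
  · intro C hC
    rw [Finset.mem_filter] at hC
    obtain ⟨hC, hh, hF⟩ := hC
    cases C with
    | nil => simp at hh
    | cons a l =>
      rw [List.head?_cons, Option.some.injEq] at hh
      subst hh
      exact ⟨l, Finset.mem_filter.2 ⟨(hperm l).1 hC, hF⟩, rfl⟩

open scoped Classical in
/-- The number of words with the exit `Out`. -/
theorem SysCount_card_out :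
    ((perms (univ \ {S.x} : Finset α)).filter (fun C => S.Out C)).card ≤
      (Fintype.card α - 2).factorial := by
  set T : Finset α := univ \ {S.x} with hT
  have hq : ∀ C ∈ perms T, ∀ k, (S.info (C.rotate k)).1 = (S.info C).1 := fun C hC k => by
    rw [S.SysCount_info_rotate hC k]
  have hR : ((perms T).filter (fun C => S.Out C)).card ≤
      ((perms T).filter (fun C => C.head? = some (S.info C).1 ∧ (S.info C).2 = true)).card +
      ((perms T).filter (fun C => C.head? = some (S.info C).1 ∧ (S.info C).2 = false)).card := by
    have h1 : ((perms T).filter (fun C => S.Out C)) ⊆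
        ((perms T).filter (fun C => C.head? = some (S.info C).1 ∧ (S.info C).2 = true)) ∪
        ((perms T).filter (fun C => (C.rotate 1).head? = some (S.info C).1 ∧
          (S.info C).2 = false)) := by
      intro C hC
      rw [Finset.mem_filter] at hC
      obtain ⟨hC, b, c, l, rfl, h | h⟩ := hC
      · refine Finset.mem_union_left _ (Finset.mem_filter.2 ⟨hC, ?_⟩)
        rw [h]
        exact ⟨rfl, rfl⟩
      · refine Finset.mem_union_right _ (Finset.mem_filter.2 ⟨hC, ?_⟩)
        rw [h]
        refine ⟨?_, rfl⟩
        rw [List.rotate_cons_succ, List.rotate_zero]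
        rfl
    refine (Finset.card_le_card h1).trans ((Finset.card_union_le _ _).trans ?_)
    refine Nat.add_le_add_left ?_ _
    apply Finset.card_le_card_of_injOn (fun C => C.rotate 1)
    · intro C hC
      rw [Finset.mem_coe, Finset.mem_filter] at hC ⊢
      refine ⟨SysCount_rotate_mem hC.1 1, ?_⟩
      rw [S.SysCount_info_rotate hC.1 1]
      exact hC.2
    · intro C _ D _ h
      exact List.rotate_injective 1 h
  refine hR.trans ?_
  have h2 : ((perms T).filter (fun C => C.head? = some (S.info C).1 ∧ (S.info C).2 = true)).card +
      ((perms T).filter (fun C => C.head? = some (S.info C).1 ∧ (S.info C).2 = false)).card =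
      ((perms T).filter (fun C => C.head? = some (S.info C).1 ∧ True)).card := by
    rw [← Finset.card_union_of_disjoint]
    · congr 1
      ext C
      simp only [mem_union, mem_filter, and_true]
      constructor
      · rintro (h | h)
        · exact ⟨h.1, h.2.1⟩
        · exact ⟨h.1, h.2.1⟩
      · rintro ⟨h, h'⟩
        cases hb : (S.info C).2
        · exact Or.inr ⟨h, h', rfl⟩
        · exact Or.inl ⟨h, h', rfl⟩
    · rw [Finset.disjoint_left]
      intro C h h'
      rw [mem_filter] at h h'
      rw [h.2.2] at h'
      exact absurd h'.2.2 (by simp)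
  rw [h2]
  refine (SysCount_anchor T (fun C => (S.info C).1) (fun _ => S.z) (fun _ => True) hq
    (fun _ _ _ => rfl) (fun _ _ _ _ => trivial) ?_).trans ?_
  · intro C _
    simpa [hT] using S.SysCount_z_ne_x
  · rw [hT, S.SysCount_head_z (fun _ => True), Finset.filter_true, card_perms,
      Finset.card_sdiff_of_subset (Finset.subset_univ _), Finset.card_univ,
      Finset.card_pair S.SysCount_z_ne_x.symm]

open scoped Classical in
/-- The number of wasted words. -/
theorem SysCount_card_wasted :
    2 * S.cntL (univ \ {S.x, S.z}) ≤
    ((perms (univ \ {S.x} : Finset α)).filter (fun C => S.Wasted C ∧ ¬ S.Out C)).card := by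
  set T : Finset α := univ \ {S.x} with hT
  have hq : ∀ C ∈ perms T, ∀ k, (S.info (C.rotate k)).1 = (S.info C).1 := fun C hC k => by
    rw [S.SysCount_info_rotate hC k]
  have ha : S.cntL (univ \ {S.x, S.z}) ≤
      ((perms T).filter (fun C => C.head? = some (S.info C).1 ∧ (S.info C).2 = false)).card := by
    rw [cntL, ← S.SysCount_head_z (fun C => (S.info C).2 = false), ← hT]
    exact SysCount_anchor T (fun _ => S.z) (fun C => (S.info C).1) (fun C => (S.info C).2 = false)
      (fun _ _ _ => rfl) hq (fun C hC k h => by rw [S.SysCount_info_rotate hC k]; exact h)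
      (fun C hC => S.SysCount_mem_T hC)
  have hb : ((perms T).filter
      (fun C => C.head? = some (S.info C).1 ∧ (S.info C).2 = false)).card ≤
      ((perms T).filter (fun C => C.getLast? = some (S.info C).1 ∧ (S.info C).2 = false)).card := by
    apply Finset.card_le_card_of_injOn (fun C => C.rotate 1)
    · intro C hC
      rw [Finset.mem_coe, Finset.mem_filter] at hC ⊢
      refine ⟨SysCount_rotate_mem hC.1 1, ?_⟩
      rw [S.SysCount_info_rotate hC.1 1]
      refine ⟨?_, hC.2.2⟩
      cases C with
      | nil => simp at hC
      | cons a l =>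
        show ((a :: l).rotate 1).getLast? = some (S.info (a :: l)).1
        rw [List.rotate_cons_succ, List.rotate_zero, List.getLast?_concat]
        exact hC.2.1
    · intro C _ D _ h
      exact List.rotate_injective 1 h
  have hdis : Disjoint
      ((perms T).filter (fun C => C.head? = some (S.info C).1 ∧ (S.info C).2 = false))
      ((perms T).filter
        (fun C => C.getLast? = some (S.info C).1 ∧ (S.info C).2 = false)) := by
    rw [Finset.disjoint_left]
    intro C h h'
    rw [mem_filter] at h h'
    have hl := S.SysCount_three_le h.1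
    have hn := nodup_of_mem_perms h.1
    have he := h.2.1.trans h'.2.1.symm
    rw [List.head?_eq_getElem?, List.getLast?_eq_getElem?,
      List.getElem?_eq_getElem (by omega), List.getElem?_eq_getElem (by omega),
      Option.some.injEq, hn.getElem_inj_iff] at he
    omega
  have hsub : ((perms T).filter
        (fun C => C.head? = some (S.info C).1 ∧ (S.info C).2 = false)) ∪
      ((perms T).filter
        (fun C => C.getLast? = some (S.info C).1 ∧ (S.info C).2 = false)) ⊆
      (perms T).filter (fun C => S.Wasted C ∧ ¬ S.Out C) := by
    intro C hC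
    rw [mem_union, mem_filter, mem_filter] at hC
    rw [mem_filter]
    rcases hC with ⟨hC, h1, h2⟩ | ⟨hC, h1, h2⟩
    · refine ⟨hC, ⟨h2, Or.inl h1⟩, ?_⟩
      rintro ⟨b, c, l, rfl, h | h⟩
      · rw [h] at h2
        exact absurd h2 (by simp)
      · rw [h, List.head?_cons, Option.some.injEq] at h1
        have h1' : b = c := h1
        subst h1'
        have := nodup_of_mem_perms hC
        simp at this
    · refine ⟨hC, ⟨h2, Or.inr h1⟩, ?_⟩
      rintro ⟨b, c, l, rfl, h | h⟩
      · rw [h] at h2
        exact absurd h2 (by simp)
      · have hl := S.SysCount_three_le hC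
        have hn := nodup_of_mem_perms hC
        have h3 : (b :: c :: l)[1]? = some c := rfl
        have h4 : (b :: c :: l).getLast? = some c := by rw [h1, h]
        have he := h3.trans h4.symm
        rw [List.getLast?_eq_getElem?, List.getElem?_eq_getElem (by omega),
          List.getElem?_eq_getElem (by omega), Option.some.injEq, hn.getElem_inj_iff] at he
        omega
  have hc := Finset.card_le_card hsub
  rw [Finset.card_union_of_disjoint hdis] at hc
  omega

theorem sum_md :
    ∑ P ∈ perms (univ : Finset α), S.md P + 2 * S.cntL (univ \ {S.x, S.z}) ≤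
      (Fintype.card α).factorial + (Fintype.card α - 1).factorial +
        (Fintype.card α - 2).factorial := by
  classical
  set T : Finset α := univ \ {S.x} with hT
  have hmd1 : ∀ P, 1 ≤ S.md P := by
    intro P
    unfold md mode
    split_ifs <;> omega
  have hmode1 : ∀ C, 1 ≤ S.mode C := by
    intro C
    unfold mode
    split_ifs <;> omega
  have h1 : ∑ P ∈ perms (univ : Finset α), S.md P =
      (Fintype.card α).factorial + ∑ P ∈ perms (univ : Finset α), (S.md P - 1) := by
    have : ∀ P ∈ perms (univ : Finset α), S.md P = 1 + (S.md P - 1) := by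
      intro P _
      have := hmd1 P
      omega
    rw [Finset.sum_congr rfl this, Finset.sum_add_distrib, Finset.sum_const, smul_eq_mul, mul_one,
      card_perms, Finset.card_univ]
  have hinj : Set.InjOn (fun C : List α => S.x :: C) (perms T : Set (List α)) := by
    intro C _ D _ h
    exact (List.cons.inj h).2
  have h2 : ∑ P ∈ perms (univ : Finset α), (S.md P - 1) = ∑ C ∈ perms T, (S.mode C - 1) := by
    have hsum : ∑ C ∈ perms T, (S.mode C - 1) =
        ∑ P ∈ (perms T).image (fun C : List α => S.x :: C), (S.md P - 1) := by
      rw [Finset.sum_image hinj]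
      refine Finset.sum_congr rfl fun C _ => ?_
      simp [md]
    rw [hsum]
    symm
    apply Finset.sum_subset
    · intro P hP
      rw [Finset.mem_image] at hP
      obtain ⟨C, hC, rfl⟩ := hP
      rw [mem_perms] at hC ⊢
      refine ⟨?_, ?_⟩
      · rw [List.nodup_cons]
        refine ⟨?_, hC.1⟩
        intro hx
        rw [← List.mem_toFinset, hC.2] at hx
        simp [hT] at hx
      · rw [List.toFinset_cons, hC.2, hT]
        ext a
        simp only [mem_insert, mem_sdiff, mem_univ, mem_singleton, true_and, iff_true]
        exact em _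
    · intro P hP hP'
      have : P.head? ≠ some S.x := by
        intro hh
        apply hP'
        cases P with
        | nil => simp at hh
        | cons a C =>
          rw [List.head?_cons, Option.some.injEq] at hh
          subst hh
          refine Finset.mem_image.2 ⟨C, ?_, rfl⟩
          rw [mem_perms] at hP ⊢
          rw [List.nodup_cons] at hP
          refine ⟨hP.1.2, ?_⟩
          ext a
          have ha := Finset.ext_iff.1 hP.2 a
          simp only [List.toFinset_cons, mem_insert, List.mem_toFinset, mem_univ, iff_true] at ha
          simp only [hT, List.mem_toFinset, mem_sdiff, mem_univ, mem_singleton, true_and]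
          constructor
          · intro h e
            exact hP.1.1 (e ▸ h)
          · intro h
            rcases ha with h' | h'
            · exact absurd h' h
            · exact h'
      rw [md, if_neg this, Nat.sub_self]
  have h3 : ∑ C ∈ perms T, (S.mode C - 1) +
      ((perms T).filter (fun C => S.Wasted C ∧ ¬ S.Out C)).card =
      (Fintype.card α - 1).factorial + ((perms T).filter (fun C => S.Out C)).card := by
    have hcT : (perms T).card = (Fintype.card α - 1).factorial := by
      rw [card_perms, hT, Finset.card_sdiff_of_subset (Finset.subset_univ _),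
        Finset.card_singleton, Finset.card_univ]
    rw [← hcT, Finset.card_eq_sum_ones (perms T), Finset.card_filter, Finset.card_filter,
      ← Finset.sum_add_distrib, ← Finset.sum_add_distrib]
    refine Finset.sum_congr rfl fun C _ => ?_
    unfold mode
    by_cases ho : S.Out C
    · simp [ho]
    · by_cases hw : S.Wasted C
      · simp [ho, hw]
      · simp [ho, hw]
  have h4 := S.SysCount_card_out
  have h5 := S.SysCount_card_wasted
  rw [← hT] at h4 h5
  have h6 : ∑ C ∈ perms T, (S.mode C - 1) + 2 * S.cntL (univ \ {S.x, S.z}) ≤
      (Fintype.card α - 1).factorial + (Fintype.card α - 2).factorial := by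
    have : ((perms T).filter (fun C => S.Out C)).card ≤ (Fintype.card α - 2).factorial := by
      convert h4
    have h5' : 2 * S.cntL (univ \ {S.x, S.z}) ≤
        ((perms T).filter (fun C => S.Wasted C ∧ ¬ S.Out C)).card := by
      convert h5
    omega
  rw [h1, h2]
  omega

end Sys

end Pool.Agent.Lib.MP_e0d433_co
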