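import Pool.Agent.Lib.MP_e0d433_co.Sys
import Pool.Agent.Lib.MP_e0d433_co.Count

/-!
# MP_e0d433_co: cardinalities for a system, second part

TASK S2.  The statements of `sum_md`, `card_EW`, `card_EV`, `card_KV` must stay; helper lemmas may
be added freely.  (`n = Fintype.card α`.)

## Proof of `sum_md`
`md P = 1` unless `P = x :: C`, `C ∈ perms (univ \ {x})`; so the sum is
`n! + ∑_C (mode C - 1) = n! + (n-1)! + #{C : Out C} - #{C : Wasted C, not Out C}`.
General lemma (re-anchoring): let `q₁ q₂ : List α → α` and a predicate `F` be invariant under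
rotation of the words `C ∈ perms T`, with `q₁ C, q₂ C ∈ T`.  Then
`#{C ∈ perms T | C.head? = some (q₁ C) ∧ F C} = #{C ∈ perms T | C.head? = some (q₂ C) ∧ F C}`
(bijection: rotate the word until `q₂ C` comes first, `C ↦ C.rotate (C.idxOf (q₂ C))`).
With `q₂ = z` this is `#{l ∈ perms (T \ {z}) | F (z :: l)}`.
* `Out C` holds iff (direction right and `C.head? = some q`) or (direction left and
  `(C.rotate 1).head? = some q`), `q` the mover; so `#Out ≤ #{l ∈ perms (univ \ {x, z})} = (n-2)!`
  (only `≤` is needed).
* `Wasted C` iff direction left and (`C.head? = some q` or the last letter is `q`, i.e.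
  `(C.rotate (n-2)).head? = some q`); these two are disjoint (more than one letter) and also
  disjoint from `Out C` (for direction left: `Out` iff `q` is the second letter; at least 3 letters),
  so there are `2 * cntL (univ \ {x, z})` of them (only `≥` is needed).

## Proof of `card_EW`
`EW` is contained in the image of the set of triples `(l, side, k)`,
`l ∈ perms (univ \ {x, w, z})` with mover going left, `side : Bool`, `k < n - 1`, under the map
`w :: (ins side (z :: l)).rotate k` where `ins` inserts `x` immediately before/after the mover `q`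
in the word `z :: l` (use `filt` and `rot` to see that the mover of `Q` is the mover of `z :: l`,
when `Q` is a rotation of such a word: `x ∉ A`).  Similarly for `card_EV`: image of `(l, k)` under
`w :: (x :: (l ++ [y, z])).rotate k`.
-/

namespace Pool.Agent.Lib.MP_e0d433_co

open Finset

private theorem sysCount_mem_perms_of_perm {α : Type*} [DecidableEq α] [Fintype α]
    {P l ex : List α} (hP : P ∈ perms (univ : Finset α)) (h : P.Perm (ex ++ l)) :
    l ∈ perms (univ \ ex.toFinset : Finset α) := by
  have hnd : (ex ++ l).Nodup := h.nodup_iff.1 (nodup_of_mem_perms hP)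
  rw [mem_perms]
  refine ⟨(List.nodup_append.1 hnd).2.1, ?_⟩
  ext a
  have hmem : a ∈ ex ++ l := h.mem_iff.1 ((mem_iff_of_mem_perms hP a).2 (mem_univ a))
  rw [List.mem_append] at hmem
  have hdis := List.disjoint_of_nodup_append hnd
  simp only [List.mem_toFinset, mem_sdiff, mem_univ, true_and]
  constructor
  · intro ha hex
    exact hdis hex ha
  · intro ha
    exact hmem.resolve_left ha

private theorem sysCount_length {α : Type*} [DecidableEq α] [Fintype α]
    {a : α} {Q : List α} (hP : a :: Q ∈ perms (univ : Finset α)) :
    Q.length = Fintype.card α - 1 := by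
  have := length_of_mem_perms hP
  rw [List.length_cons, card_univ] at this
  omega

private theorem sysCount_exists_rotate {α : Type*} {Q R : List α} (h : Q ~r R) (hQ : Q ≠ []) :
    ∃ k < Q.length, R.rotate k = Q := by
  obtain ⟨k, hk⟩ := h.symm
  have hl : R.length = Q.length := h.perm.length_eq.symm
  have hpos : 0 < Q.length := List.length_pos_iff.2 hQ
  exact ⟨k % R.length, by rw [hl]; exact Nat.mod_lt _ hpos, by rw [List.rotate_mod, hk]⟩

/-- insert `x` before (`false`) or after (`true`) the letter `q`. -/
private def sysCount_ins {α : Type*} [DecidableEq α] (x q : α) (side : Bool) : List α → List α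
  | [] => []
  | a :: L => if a = q then (if side then a :: x :: L else x :: a :: L) else
      a :: sysCount_ins x q side L

private theorem sysCount_ins_append {α : Type*} [DecidableEq α] (x q : α) (side : Bool) :
    ∀ u v : List α, q ∉ u → sysCount_ins x q side (u ++ q :: v) =
      u ++ (if side then q :: x :: v else x :: q :: v) := by
  intro u v
  induction u with
  | nil => intro _; simp [sysCount_ins]
  | cons a u ih =>
    intro h
    have h1 : a ≠ q := fun e => h (by simp [e])
    have h2 : q ∉ u := fun e => h (by simp [e])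
    simp only [List.cons_append, sysCount_ins, if_neg h1, ih h2]


namespace Sys

variable {α : Type*} [DecidableEq α] [Fintype α] (S : Sys α)

omit [Fintype α] in
private theorem sysCount_info_rotate (C : List α) (hC : C.Nodup) (hA : ∀ a ∈ S.A, a ∈ C) (k : ℕ) :
    S.info (C.rotate k) = S.info C := by
  induction k with
  | zero => simp
  | succ k ih =>
    rw [← ih, ← List.rotate_rotate]
    exact S.rot _ (List.nodup_rotate.2 hC) fun a ha => List.mem_rotate.2 (hA a ha)

omit [Fintype α] in
private theorem sysCount_info_isRotated {C D : List α} (h : C ~r D) (hC : C.Nodup)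
    (hA : ∀ a ∈ S.A, a ∈ C) : S.info D = S.info C := by
  obtain ⟨k, rfl⟩ := h
  exact S.sysCount_info_rotate C hC hA k

/-- The common core of the two cases of `card_EW`. -/
private theorem sysCount_EW_aux {Q l : List α} {q : α} (side : Bool)
    (hP : S.w :: Q ∈ perms (univ : Finset α)) (hq : S.info Q = (q, false))
    (hrot : Q ~r ((if side then [q, S.x] else [S.x, q]) ++ l)) :
    ∃ l' ∈ (perms (univ \ {S.x, S.w, S.z} : Finset α)).filter
        (fun l => (S.info (S.z :: l)).2 = false), ∃ k < Fintype.card α - 1,
      S.w :: (sysCount_ins S.x (S.info (S.z :: l')).1 side (S.z :: l')).rotate k = S.w :: Q := by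
  have hnd : Q.Nodup := (List.nodup_cons.1 (nodup_of_mem_perms hP)).2
  have hxz : S.x ≠ S.z := fun e => S.x_notMem (e ▸ S.z_mem)
  have hA : ∀ a ∈ S.A, a ∈ Q := by
    intro a ha
    have h1 : a ∈ S.w :: Q := (mem_iff_of_mem_perms hP a).2 (mem_univ a)
    rcases List.mem_cons.1 h1 with h1 | h1
    · exact absurd (h1 ▸ ha) S.w_notMem
    · exact h1
  have hqz : q ≠ S.z := by
    have := (S.mem Q hnd hA).2
    rwa [hq] at this
  set R : List α := (if side then [q, S.x] else [S.x, q]) ++ l with hR
  have hRnd : R.Nodup := (List.IsRotated.nodup_iff hrot).1 hnd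
  have hperm : R.Perm (S.x :: q :: l) := by
    rw [hR]
    cases side
    · simp
    · simpa using List.Perm.swap S.x q l
  have hnd' : (S.x :: q :: l).Nodup := hperm.nodup_iff.1 hRnd
  have hinfo : S.info (q :: l) = (q, false) := by
    rw [← hq, ← S.sysCount_info_isRotated hrot hnd hA, ← S.filt (q :: l), ← S.filt R]
    congr 1
    rw [hR]
    cases side <;> simp [S.x_notMem, List.filter_cons]
  have hzl : S.z ∈ l := by
    have h1 : S.z ∈ S.x :: q :: l := hperm.mem_iff.1 ((hrot.mem_iff).1 (hA _ S.z_mem))
    simp only [List.mem_cons] at h1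
    rcases h1 with h1 | h1 | h1
    · exact absurd h1.symm hxz
    · exact absurd h1.symm hqz
    · exact h1
  obtain ⟨v, u, hl⟩ := List.append_of_mem hzl
  have hql : q ∉ l := by
    intro h
    rw [List.nodup_cons, List.nodup_cons] at hnd'
    exact hnd'.2.1 h
  have hqu : q ∉ S.z :: u := by
    intro h
    apply hql
    rw [hl]
    exact List.mem_append_right _ h
  have hrot2 : (q :: l) ~r (S.z :: (u ++ q :: v)) := by
    rw [hl]
    have := List.isRotated_append (l := q :: v) (l' := S.z :: u)
    simpa using this
  have hAl : ∀ a ∈ S.A, a ∈ q :: l := by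
    intro a ha
    have h1 : a ∈ S.x :: q :: l := hperm.mem_iff.1 ((hrot.mem_iff).1 (hA _ ha))
    rcases List.mem_cons.1 h1 with h1 | h1
    · exact absurd (h1 ▸ ha) S.x_notMem
    · exact h1
  have hinfo2 : S.info (S.z :: (u ++ q :: v)) = (q, false) := by
    rw [S.sysCount_info_isRotated hrot2 (List.nodup_cons.1 hnd').2 hAl, hinfo]
  have hins : sysCount_ins S.x q side (S.z :: (u ++ q :: v)) =
      (S.z :: u) ++ (if side then q :: S.x :: v else S.x :: q :: v) := by
    have := sysCount_ins_append S.x q side (S.z :: u) v hqu
    simpa using this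
  have hrot3 : Q ~r ((S.z :: u) ++ (if side then q :: S.x :: v else S.x :: q :: v)) := by
    refine hrot.trans ?_
    rw [hR, hl]
    cases side
    · have := List.isRotated_append (l := S.x :: q :: v) (l' := S.z :: u)
      simpa using this
    · have := List.isRotated_append (l := q :: S.x :: v) (l' := S.z :: u)
      simpa using this
  have hQne : Q ≠ [] := by
    intro h
    have := hA _ S.z_mem
    rw [h] at this
    simp at this
  obtain ⟨k, hk, hkQ⟩ := sysCount_exists_rotate hrot3 hQne
  refine ⟨u ++ q :: v, ?_, k, ?_, ?_⟩
  · rw [mem_filter]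
    refine ⟨?_, by rw [hinfo2]⟩
    have h1 : ({S.x, S.w, S.z} : Finset α) = ([S.x, S.w, S.z] : List α).toFinset := by simp
    rw [h1]
    apply sysCount_mem_perms_of_perm hP
    have h2 : Q.Perm (S.x :: q :: l) := hrot.perm.trans hperm
    refine (List.Perm.cons _ h2).trans ?_
    rw [hl]
    have h3 : (S.w :: S.x :: q :: (v ++ S.z :: u)).Perm (S.x :: S.w :: (q :: (v ++ S.z :: u))) :=
      List.Perm.swap _ _ _
    refine h3.trans ?_
    simp only [List.cons_append, List.nil_append]
    apply List.Perm.cons
    apply List.Perm.cons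
    have h4 : (q :: (v ++ S.z :: u)).Perm ((S.z :: u) ++ (q :: v)) := by
      have := List.perm_append_comm (l₁ := q :: v) (l₂ := S.z :: u)
      simpa using this
    simpa using h4
  · rw [← sysCount_length hP]
    exact hk
  · rw [hinfo2]
    simp only
    rw [hins, hkQ]

theorem card_EW :
    S.EW.card ≤ 2 * (Fintype.card α - 1) * S.cntL (univ \ {S.x, S.w, S.z}) := by
  classical
  have hsub : S.EW ⊆ (((perms (univ \ {S.x, S.w, S.z} : Finset α)).filter
      (fun l => (S.info (S.z :: l)).2 = false)) ×ˢ
        ((univ : Finset Bool) ×ˢ range (Fintype.card α - 1))).image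
      (fun t => S.w :: (sysCount_ins S.x (S.info (S.z :: t.1)).1 t.2.1 (S.z :: t.1)).rotate
        t.2.2) := by
    intro P hP
    simp only [EW, mem_filter] at hP
    obtain ⟨hP, Q, rfl, hdir, l, hl⟩ := hP
    have hq : S.info Q = ((S.info Q).1, false) := Prod.ext rfl hdir
    rw [mem_image]
    rcases hl with hl | hl
    · obtain ⟨l', hl', k, hk, h⟩ := S.sysCount_EW_aux (l := l) false hP hq (by simpa using hl)
      exact ⟨(l', false, k), by simp only [mem_product, mem_univ, true_and, mem_range]; exact
        ⟨hl', hk⟩, h⟩
    · obtain ⟨l', hl', k, hk, h⟩ := S.sysCount_EW_aux (l := l) true hP hq (by simpa using hl)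
      exact ⟨(l', true, k), by simp only [mem_product, mem_univ, true_and, mem_range]; exact
        ⟨hl', hk⟩, h⟩
  refine (card_le_card hsub).trans (card_image_le.trans ?_)
  rw [card_product, card_product, card_range, card_univ, Fintype.card_bool, cntL]
  exact (Nat.mul_comm _ _).le

theorem card_EV (y : α) (hy : y ≠ S.x ∧ y ≠ S.w ∧ y ≠ S.z) (V : List α → Prop)
    [DecidablePred V] :
    (S.EV y V).card ≤
      (Fintype.card α - 1) * ((perms (univ \ {S.x, S.w, y, S.z} : Finset α)).filter V).card := by
  classical
  have hsub : S.EV y V ⊆ (((perms (univ \ {S.x, S.w, y, S.z} : Finset α)).filter V) ×ˢ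
      range (Fintype.card α - 1)).image
      (fun t => S.w :: (S.x :: (t.1 ++ [y, S.z])).rotate t.2) := by
    intro P hP
    simp only [EV, mem_filter] at hP
    obtain ⟨hP, Q, l, rfl, hrot, hV⟩ := hP
    rw [mem_image]
    have hQne : Q ≠ [] := by
      intro h
      rw [h] at hrot
      have := hrot.perm.length_eq
      simp at this
    obtain ⟨k, hk, hkQ⟩ := sysCount_exists_rotate hrot hQne
    refine ⟨(l, k), ?_, by simp only [hkQ]⟩
    simp only [mem_product, mem_filter, mem_range]
    refine ⟨⟨?_, hV⟩, by rw [← sysCount_length hP]; exact hk⟩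
    have h1 : ({S.x, S.w, y, S.z} : Finset α) = ([S.x, S.w, y, S.z] : List α).toFinset := by simp
    rw [h1]
    apply sysCount_mem_perms_of_perm hP
    refine (List.Perm.cons _ hrot.perm).trans ?_
    refine (List.Perm.swap _ _ _).trans ?_
    simp only [List.cons_append, List.nil_append]
    apply List.Perm.cons
    apply List.Perm.cons
    have := List.perm_append_comm (l₁ := l) (l₂ := [y, S.z])
    simpa using this
  refine (card_le_card hsub).trans (card_image_le.trans ?_)
  rw [card_product, card_range]
  exact (Nat.mul_comm _ _).le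

theorem card_KV (y : α) (V : List α → Prop) [DecidablePred V] :
    (S.KV y V).card ≤ ((perms (univ \ {S.x, S.w, y, S.z} : Finset α)).filter V).card := by
  exact card_image_le

end Sys

end Pool.Agent.Lib.MP_e0d433_co
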