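import Pool.Agent.Lib.MP_e0d433_co.SysStep
import Pool.Agent.Lib.MP_e0d433_co.SysCount
import Pool.Agent.Lib.MP_e0d433_co.SysCount2
import Pool.Agent.Lib.MP_e0d433_co.SysReach

/-!
# MP_e0d433_co: the superpermutation of a system
-/

namespace Pool.Agent.Lib.MP_e0d433_co

open Finset

namespace Sys

variable {α : Type*} [DecidableEq α] [Fintype α] (S : Sys α)

theorem cls_mem {l : List α} (hl : l ∈ perms (univ \ {S.x, S.z})) :
    S.cls l ∈ perms (univ : Finset α) := by
  rw [mem_perms] at hl ⊢
  obtain ⟨hn, ht⟩ := hl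
  have hmem : ∀ a, a ∈ l ↔ a ≠ S.x ∧ a ≠ S.z := by
    intro a
    rw [← List.mem_toFinset, ht]
    simp
  have hxz : S.x ≠ S.z := fun h => S.x_notMem (h ▸ S.z_mem)
  refine ⟨?_, ?_⟩
  · unfold cls
    rw [List.nodup_cons, List.nodup_append]
    refine ⟨?_, hn, by simp, ?_⟩
    · simp [hmem, hxz]
    · intro a ha b hb
      rw [List.mem_singleton] at hb
      subst hb
      exact ((hmem a).1 ha).2
  · ext a
    simp only [cls, List.mem_toFinset, List.mem_cons, List.mem_append, hmem, List.not_mem_nil,
      or_false, mem_univ, iff_true]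
    tauto

omit [Fintype α] in
theorem CStep_perm {l l' : List α} (h : S.CStep l l') : l'.Perm l := by
  cases h with
  | right l₁ l₂ b c h => exact List.Perm.append_left _ (List.Perm.swap _ _ _)
  | left l₁ l₂ b c h => exact List.Perm.append_left _ (List.Perm.swap _ _ _)
  | wrap l₁ b h => exact (List.perm_append_singleton b l₁).symm

theorem conn_reflTransGen (E : Finset (List α)) {l l' : List α}
    (hl : l ∈ perms (univ \ {S.x, S.z})) (h : Relation.ReflTransGen S.CStep l l') :
    l' ∈ perms (univ \ {S.x, S.z}) ∧ S.Conn E (S.cls l) (S.cls l') := by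
  induction h with
  | refl => exact ⟨hl, Relation.EqvGen.refl _⟩
  | tail _ h ih =>
    exact ⟨perm_mem_perms ih.1 (S.CStep_perm h),
      Relation.EqvGen.trans _ _ _ ih.2 (S.conn_cstep E ih.1 h)⟩

theorem bound (y : α) (hy : y ≠ S.x ∧ y ≠ S.w ∧ y ≠ S.z) (V : List α → Prop) [DecidablePred V]
    (hreach : ∀ l ∈ perms (univ \ {S.x, S.z}), ∃ l₁ l₂ : List α,
      Relation.ReflTransGen S.CStep l (l₁ ++ S.w :: (l₂ ++ [y])) ∧ V (l₁ ++ l₂)) :
    ∃ wd : List α, (∀ P ∈ perms (univ : Finset α), P <:+: wd) ∧
      wd.length + 2 * S.cntL (univ \ {S.x, S.z}) ≤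
        (Fintype.card α).factorial + (Fintype.card α - 1).factorial +
          (Fintype.card α - 2).factorial +
        2 * (Fintype.card α - 1) * S.cntL (univ \ {S.x, S.w, S.z}) +
        2 * (Fintype.card α - 1) *
          ((perms (univ \ {S.x, S.w, y, S.z} : Finset α)).filter V).card := by
  classical
  have hxz : S.x ≠ S.z := fun h => S.x_notMem (h ▸ S.z_mem)
  have hwz : S.w ≠ S.z := fun h => S.w_notMem (h ▸ S.z_mem)
  have hcard : 3 ≤ Fintype.card α := by
    have : ({S.x, S.w, S.z} : Finset α).card = 3 := by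
      rw [card_insert_of_notMem, card_insert_of_notMem, card_singleton]
      · simpa using hwz
      · simp [S.x_ne_w, hxz]
    rw [← this]
    exact card_le_univ _
  set n := Fintype.card α with hn
  obtain ⟨wd, hwd, hlen⟩ := superword n (by omega) (perms (univ : Finset α))
    (fun P hP => by rw [length_of_mem_perms hP, card_univ])
    S.step S.bijOn_step S.md
    (fun P _ => ⟨S.md_pos P, (S.md_le P).trans hcard⟩) (fun P _ => S.drop_md_prefix P)
    (S.EW ∪ S.EV y V) (S.KV y V)
    (union_subset (filter_subset _ _) (filter_subset _ _))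
    (by
      intro P hP
      rcases mem_union.1 hP with h | h
      · exact mem_union_left _ (S.lrot_EW P h)
      · exact mem_union_right _ (S.lrot_EV y V P h))
    (by
      intro P hP
      obtain ⟨l, hl, rfl⟩ := mem_image.1 hP
      rw [mem_filter] at hl
      obtain ⟨hln, hlt⟩ := mem_perms.1 hl.1
      have hmem : ∀ a, a ∈ l ↔ a ≠ S.x ∧ a ≠ S.w ∧ a ≠ y ∧ a ≠ S.z := by
        intro a
        rw [← List.mem_toFinset, hlt]
        simp
      rw [mem_perms]
      refine ⟨?_, ?_⟩
      · rw [List.nodup_cons, List.nodup_cons, List.nodup_append]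
        refine ⟨?_, ?_, hln, ?_, ?_⟩
        · simp [hmem, S.x_ne_w, hy.1.symm, hxz]
        · simp [hmem, hy.2.1.symm, hwz]
        · simp [hy.2.2]
        · intro a ha b hb
          simp only [List.mem_cons, List.not_mem_nil, or_false] at hb
          rcases hb with rfl | rfl
          · exact ((hmem a).1 ha).2.2.1
          · exact ((hmem a).1 ha).2.2.2
      · ext a
        simp only [List.mem_toFinset, List.mem_cons, List.mem_append, hmem, List.not_mem_nil,
          or_false, mem_univ, iff_true]
        tauto)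
    (by
      intro P hP
      obtain ⟨l, hl, hc⟩ := S.exists_cls (S.EW ∪ S.EV y V) subset_union_left hP
      obtain ⟨l₁, l₂, hr, hV⟩ := hreach l hl
      obtain ⟨hl', hc'⟩ := S.conn_reflTransGen (S.EW ∪ S.EV y V) hl hr
      have hrow := S.conn_row (S.EW ∪ S.EV y V) l₁ (l₂ ++ [y]) hl' (by
        intro k
        refine mem_union_right _ ?_
        rw [EV, mem_filter]
        refine ⟨?_, _, l₁ ++ l₂, rfl, ?_, hV⟩
        · have h1 := S.cls_mem hl'
          refine perm_mem_perms h1 ?_
          refine (List.Perm.cons _ (List.rotate_perm _ _)).trans ?_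
          unfold cls
          refine (List.Perm.swap _ _ _).trans (List.Perm.cons _ ?_)
          have : l₁ ++ S.w :: (l₂ ++ [y]) ++ [S.z] = l₁ ++ S.w :: (l₂ ++ [y] ++ [S.z]) := by simp
          rw [this]
          refine List.Perm.trans ?_ List.perm_middle.symm
          simp
        · have : S.x :: (l₁ ++ (l₂ ++ [y]) ++ [S.z]) = S.x :: (l₁ ++ l₂ ++ [y, S.z]) := by simp
          rw [this]
          exact (List.IsRotated.symm ⟨k, rfl⟩))
      refine ⟨S.cls (S.w :: (l₁ ++ (l₂ ++ [y]))), ?_, ?_⟩
      · refine mem_image.2 ⟨l₁ ++ l₂, ?_, ?_⟩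
        · rw [mem_filter]
          refine ⟨?_, hV⟩
          obtain ⟨hn', ht'⟩ := mem_perms.1 hl'
          have hp : (S.w :: y :: (l₁ ++ l₂)).Perm (l₁ ++ S.w :: (l₂ ++ [y])) := by
            refine List.Perm.trans (List.Perm.cons _ ?_) List.perm_middle.symm
            rw [← List.append_assoc]
            exact (List.perm_append_singleton y (l₁ ++ l₂)).symm
          have hnd : (S.w :: y :: (l₁ ++ l₂)).Nodup := hp.nodup_iff.2 hn'
          rw [mem_perms]
          refine ⟨(List.nodup_cons.1 (List.nodup_cons.1 hnd).2).2, ?_⟩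
          ext a
          have ha : a ∈ S.w :: y :: (l₁ ++ l₂) ↔ a ∈ univ \ {S.x, S.z} := by
            rw [hp.mem_iff, ← List.mem_toFinset, ht']
          simp only [List.mem_cons, mem_sdiff, mem_univ, mem_insert, mem_singleton, true_and,
            not_or] at ha
          simp only [List.mem_toFinset, mem_sdiff, mem_univ, mem_insert, mem_singleton, true_and,
            not_or]
          have hw1 : S.w ∉ y :: (l₁ ++ l₂) := (List.nodup_cons.1 hnd).1
          have hy1 : y ∉ l₁ ++ l₂ := (List.nodup_cons.1 (List.nodup_cons.1 hnd).2).1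
          constructor
          · intro h
            refine ⟨(ha.1 (Or.inr (Or.inr h))).1, ?_, ?_, (ha.1 (Or.inr (Or.inr h))).2⟩
            · rintro rfl
              exact hw1 (List.mem_cons_of_mem _ h)
            · rintro rfl
              exact hy1 h
          · rintro ⟨h1, h2, h3, h4⟩
            rcases ha.2 ⟨h1, h4⟩ with h | h | h
            · exact absurd h h2
            · exact absurd h h3
            · exact h
        · simp [cls]
      · exact Relation.EqvGen.trans _ _ _ hc (Relation.EqvGen.trans _ _ _ hc' hrow))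
  refine ⟨wd, hwd, ?_⟩
  have h1 := S.sum_md
  have h2 := S.card_EW
  have h3 := S.card_EV y hy V
  have h4 := S.card_KV y V
  have h5 : (S.EW ∪ S.EV y V).card ≤ S.EW.card + (S.EV y V).card := card_union_le _ _
  rw [← hn] at *
  have h6 : (n - 1) * (S.KV y V).card ≤
      (n - 1) * ((perms (univ \ {S.x, S.w, y, S.z} : Finset α)).filter V).card :=
    Nat.mul_le_mul_left _ h4
  have h7 : 2 * (n - 1) * ((perms (univ \ {S.x, S.w, y, S.z} : Finset α)).filter V).card =
      (n - 1) * ((perms (univ \ {S.x, S.w, y, S.z} : Finset α)).filter V).card +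
      (n - 1) * ((perms (univ \ {S.x, S.w, y, S.z} : Finset α)).filter V).card := by ring
  rw [h7]
  omega

end Sys

end Pool.Agent.Lib.MP_e0d433_co
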