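import Pool.Agent.Lib.MP_e0d433_co.Infl
import Pool.Agent.Lib.MP_e0d433_co.Sys

/-!
# MP_e0d433_co: the concrete system

TASK I2.  The statement of `exists_sys` must stay; helper lemmas may be added freely (you may use the
sorried theorems of `Infl.lean`).

## Proof
`A = insert z (insert y B)`, `info C = infl K B y (anch z C)`.
* `anch z (z :: l) = l` if... (always: `dropWhile (· ≠ z) (z :: l) = z :: l`, `takeWhile = []`).
* For `z ∉ m₁`: `anch z (m₁ ++ z :: m₂) = m₂ ++ m₁`.
* `rot`: write `C = m₁ ++ z :: m₂`, `z ∉ m₁` ; if `m₁ = a :: m₁'` then `C.rotate 1 =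
  m₁' ++ z :: (m₂ ++ [a])` and both anchored words are `m₂ ++ a :: m₁'`; if `m₁ = []` then
  `C.rotate 1 = m₂ ++ [z]`, both anchored words are `m₂`.
* `filt`: `anch z (C.filter p) = (anch z C).filter p` if `p z`, for all lists `C`; and
  `infl K B y (l.filter (· ∈ A)) = infl K B y l` since `B ⊆ A`, `y ∈ A`.
* `mem`, `left_z`: `infl_mem`, `infl_left`.
* `switch`: if `z ∈ l`, `l = m₁ ++ z :: m₂`, then `anch z (b :: c :: l) = m₂ ++ b :: c :: m₁`: use
  `infl_switch`.  If `c = z`: `anch z (b :: z :: l) = l ++ [b]`, `anch z (z :: b :: l) = b :: l`; the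
  mover is not `z`; use `infl_wrap`.  If `b = z`: `anch z (z :: c :: l) = c :: l`; the mover is neither
  `z` nor `(c, false)` by `infl_left`.
-/

namespace Pool.Agent.Lib.MP_e0d433_co

variable {G : Type*} [AddCommGroup G] [DecidableEq G] {M : ℕ} (K : Code G M)
variable {α : Type*} [LinearOrder α]

/-- The anchored word of a cyclic word: read after `z`. -/
def anch (z : α) (C : List α) : List α :=
  (C.dropWhile (· ≠ z)).tail ++ C.takeWhile (· ≠ z)

private theorem SysInst_anch_append (z : α) (m₁ m₂ : List α) (h : z ∉ m₁) :
    anch z (m₁ ++ z :: m₂) = m₂ ++ m₁ := by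
  have h1 : ∀ a ∈ m₁, (decide (a ≠ z)) = true := by
    intro a ha
    simp only [decide_eq_true_eq]
    rintro rfl
    exact h ha
  unfold anch
  rw [List.dropWhile_append_of_pos h1, List.takeWhile_append_of_pos h1]
  simp

private theorem SysInst_anch_cons (z : α) (l : List α) : anch z (z :: l) = l := by
  have := SysInst_anch_append z [] l (by simp)
  simpa using this

private theorem SysInst_dropWhile_filter (z : α) (p : α → Bool) (hp : p z = true) (C : List α) :
    (C.filter p).dropWhile (· ≠ z) = (C.dropWhile (· ≠ z)).filter p := by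
  induction C with
  | nil => rfl
  | cons a C ih =>
    by_cases ha : a = z
    · subst ha
      simp [hp]
    · by_cases hpa : p a = true
      · rw [List.filter_cons_of_pos hpa]
        simp only [List.dropWhile_cons, ne_eq, ha, not_false_eq_true, decide_true, if_true]
        exact ih
      · rw [List.filter_cons_of_neg hpa]
        simp only [List.dropWhile_cons, ne_eq, ha, not_false_eq_true, decide_true, if_true]
        exact ih

private theorem SysInst_takeWhile_filter (z : α) (p : α → Bool) (hp : p z = true) (C : List α) :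
    (C.filter p).takeWhile (· ≠ z) = (C.takeWhile (· ≠ z)).filter p := by
  induction C with
  | nil => rfl
  | cons a C ih =>
    by_cases ha : a = z
    · subst ha
      simp [hp]
    · by_cases hpa : p a = true
      · rw [List.filter_cons_of_pos hpa]
        simp only [List.takeWhile_cons, ne_eq, ha, not_false_eq_true, decide_true, if_true]
        rw [List.filter_cons_of_pos hpa]
        congr 1
      · rw [List.filter_cons_of_neg hpa]
        simp only [List.takeWhile_cons, ne_eq, ha, not_false_eq_true, decide_true, if_true]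
        rw [List.filter_cons_of_neg hpa]
        exact ih

private theorem SysInst_dropWhile_shape (z : α) (C : List α) :
    C.dropWhile (· ≠ z) = [] ∨ ∃ m, C.dropWhile (· ≠ z) = z :: m := by
  induction C with
  | nil => exact Or.inl rfl
  | cons a C ih =>
    by_cases ha : a = z
    · subst ha
      right
      exact ⟨C, by simp⟩
    · simp only [List.dropWhile_cons, ne_eq, ha, not_false_eq_true, decide_true, if_true]
      exact ih

private theorem SysInst_anch_filter (z : α) (p : α → Bool) (hp : p z = true) (C : List α) :
    anch z (C.filter p) = (anch z C).filter p := by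
  unfold anch
  rw [SysInst_dropWhile_filter z p hp, SysInst_takeWhile_filter z p hp, List.filter_append]
  congr 1
  rcases SysInst_dropWhile_shape z C with h | ⟨m, h⟩
  · rw [h]
    rfl
  · rw [h, List.filter_cons_of_pos hp]
    rfl

private theorem SysInst_infl_filter (B : Finset α) (y : α) (A : Finset α) (hBA : B ⊆ A)
    (hy : y ∈ A) (l : List α) :
    infl K B y (l.filter (· ∈ A)) = infl K B y l := by
  have hff : ∀ m : List α, (m.filter (· ∈ A)).filter (· ∈ B) = m.filter (· ∈ B) := by
    intro m
    rw [List.filter_filter]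
    apply List.filter_congr
    intro a _
    by_cases ha : a ∈ B
    · simp [ha, hBA ha]
    · simp [ha]
  unfold infl gap
  rw [hff, SysInst_takeWhile_filter y _ (by simpa using hy), hff]

private theorem SysInst_split (z : α) (C : List α) (hC : C.Nodup) (hz : z ∈ C) :
    ∃ m₁ m₂ : List α, C = m₁ ++ z :: m₂ ∧ z ∉ m₁ := by
  obtain ⟨m₁, m₂, rfl⟩ := List.append_of_mem hz
  refine ⟨m₁, m₂, rfl, ?_⟩
  intro h
  rw [List.nodup_append] at hC
  exact hC.2.2 z h z (by simp) rfl

private theorem SysInst_anch_rotate (z : α) (C : List α) (hC : C.Nodup) (hz : z ∈ C) :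
    anch z (C.rotate 1) = anch z C := by
  obtain ⟨m₁, m₂, rfl, h⟩ := SysInst_split z C hC hz
  cases m₁ with
  | nil =>
    have h2 : z ∉ m₂ := by
      simp only [List.nil_append, List.nodup_cons] at hC
      exact hC.1
    have h3 : (([] : List α) ++ z :: m₂).rotate 1 = m₂ ++ z :: [] := by
      rw [List.nil_append, List.rotate_cons_succ, List.rotate_zero]
    rw [h3, SysInst_anch_append z m₂ [] h2, SysInst_anch_append z [] m₂ (by simp)]
    simp
  | cons a m₁ =>
    have ha : a ≠ z := by
      rintro rfl
      exact h (by simp)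
    have h1 : z ∉ m₁ := fun h1 => h (by simp [h1])
    have h3 : ((a :: m₁) ++ z :: m₂).rotate 1 = m₁ ++ z :: (m₂ ++ [a]) := by
      rw [List.cons_append, List.rotate_cons_succ, List.rotate_zero]
      simp
    rw [h3, SysInst_anch_append z m₁ _ h1, SysInst_anch_append z (a :: m₁) m₂ h]
    simp

private theorem SysInst_full (B : Finset α) (z y : α) (hzy : z ≠ y) (hzB : z ∉ B) (C : List α)
    (hC : C.Nodup) (hA : ∀ a ∈ insert z (insert y B), a ∈ C) : Full B y (anch z C) := by
  obtain ⟨m₁, m₂, rfl, h⟩ := SysInst_split z C hC (hA z (by simp))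
  rw [SysInst_anch_append z m₁ m₂ h]
  have hperm : (m₁ ++ z :: m₂).Perm (z :: (m₂ ++ m₁)) :=
    (List.perm_append_comm (l₁ := m₁) (l₂ := z :: m₂))
  have hn : (z :: (m₂ ++ m₁)).Nodup := hperm.nodup_iff.1 hC
  have hmem : ∀ a ∈ insert z (insert y B), a ≠ z → a ∈ m₂ ++ m₁ := by
    intro a ha haz
    have := hperm.mem_iff.1 (hA a ha)
    rcases List.mem_cons.1 this with h' | h'
    · exact absurd h' haz
    · exact h'
  refine ⟨(List.nodup_cons.1 hn).2, hmem y (by simp) hzy.symm, ?_⟩
  intro b hb
  refine hmem b (by simp [hb]) ?_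
  rintro rfl
  exact hzB hb

theorem exists_sys (B : Finset α) (x w z y : α) (hB : B.card = 5 * M - 1) (hM : 2 ≤ M)
    (hxw : x ≠ w) (hxz : x ≠ z) (hxy : x ≠ y) (hwz : w ≠ z) (hwy : w ≠ y) (hzy : z ≠ y)
    (hxB : x ∉ B) (hwB : w ∉ B) (hzB : z ∉ B) (hyB : y ∉ B) :
    ∃ S : Sys α, S.x = x ∧ S.w = w ∧ S.z = z ∧ S.A = insert z (insert y B) ∧
      ∀ C : List α, S.info C = infl K B y (anch z C) := by
  have hmem : ∀ C : List α, C.Nodup → (∀ a ∈ insert z (insert y B), a ∈ C) →
      (infl K B y (anch z C)).1 ∈ insert z (insert y B) ∧ (infl K B y (anch z C)).1 ≠ z := by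
    intro C hC hA
    have h := infl_mem K hB hM hyB (SysInst_full B z y hzy hzB C hC hA)
    refine ⟨Finset.mem_insert_of_mem h, ?_⟩
    intro h1
    rw [h1] at h
    rcases Finset.mem_insert.1 h with h2 | h2
    · exact hzy h2
    · exact hzB h2
  refine ⟨{
    x := x
    w := w
    z := z
    A := insert z (insert y B)
    info := fun C => infl K B y (anch z C)
    x_notMem := by simp [hxz, hxy, hxB]
    w_notMem := by simp [hwz, hwy, hwB]
    x_ne_w := hxw
    z_mem := by simp
    filt := ?_
    rot := ?_
    mem := hmem
    left_z := ?_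
    switch := ?_ }, rfl, rfl, rfl, rfl, fun _ => rfl⟩
  · intro C
    change infl K B y (anch z (C.filter (· ∈ insert z (insert y B)))) = infl K B y (anch z C)
    rw [SysInst_anch_filter z _ (by simp)]
    exact SysInst_infl_filter K B y (insert z (insert y B))
      (fun a ha => by simp [ha]) (by simp) (anch z C)
  · intro C hC hA
    change infl K B y (anch z (C.rotate 1)) = infl K B y (anch z C)
    rw [SysInst_anch_rotate z C hC (hA z (by simp))]
  · intro l hl hA h
    have hF := SysInst_full B z y hzy hzB (z :: l) hl hA
    rw [SysInst_anch_cons] at hF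
    change (infl K B y (anch z (z :: l))).2 = false at h
    change l.head? ≠ some (infl K B y (anch z (z :: l))).1 ∧
      l.getLast? ≠ some (infl K B y (anch z (z :: l))).1
    rw [SysInst_anch_cons] at h ⊢
    exact infl_left K hB hM hyB hF h
  · intro b c l hn hA h
    change infl K B y (anch z (b :: c :: l)) = (b, true) ∨
      infl K B y (anch z (b :: c :: l)) = (c, false) at h
    change infl K B y (anch z (c :: b :: l)) = (b, true) ∨
      infl K B y (anch z (c :: b :: l)) = (c, false)
    have hF := SysInst_full B z y hzy hzB (b :: c :: l) hn hA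
    have hm := hmem (b :: c :: l) hn hA
    by_cases hbz : b = z
    · subst hbz
      rcases h with h | h
      · rw [h] at hm
        exact absurd rfl hm.2
      · rw [SysInst_anch_cons] at h hF
        have := (infl_left K hB hM hyB hF (by rw [h])).1
        rw [h] at this
        simp at this
    · by_cases hcz : c = z
      · subst hcz
        have h1 : anch c (b :: c :: l) = l ++ [b] :=
          SysInst_anch_append c [b] l (by simpa using (Ne.symm hbz))
        rcases h with h | h
        · left
          rw [SysInst_anch_cons]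
          rw [h1] at h hF
          exact infl_wrap K hB hM hyB hF h
        · rw [h] at hm
          exact absurd rfl hm.2
      · have hzl : z ∈ l := by
          have := hA z (by simp)
          rcases List.mem_cons.1 this with h' | h'
          · exact absurd h'.symm hbz
          · rcases List.mem_cons.1 h' with h'' | h''
            · exact absurd h''.symm hcz
            · exact h''
        obtain ⟨m₁, m₂, rfl, hm₁⟩ := SysInst_split z l
          (List.nodup_cons.1 (List.nodup_cons.1 hn).2).2 hzl
        have h1 : anch z (b :: c :: (m₁ ++ z :: m₂)) = m₂ ++ b :: c :: m₁ :=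
          SysInst_anch_append z (b :: c :: m₁) m₂
            (by simp [Ne.symm hbz, Ne.symm hcz, hm₁])
        have h2 : anch z (c :: b :: (m₁ ++ z :: m₂)) = m₂ ++ c :: b :: m₁ :=
          SysInst_anch_append z (c :: b :: m₁) m₂
            (by simp [Ne.symm hbz, Ne.symm hcz, hm₁])
        rw [h1] at h hF
        rw [h2]
        exact infl_switch K hB hM hyB hF h

end Pool.Agent.Lib.MP_e0d433_co
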