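import Pool.Agent.Lib.MP_e0d433_co.ReachSys
import Pool.Agent.Lib.MP_e0d433_co.SysBound
import Pool.Agent.Lib.MP_e0d433_co.Count2

/-!
# MP_e0d433_co: the upper bound
-/

namespace Pool.Agent.Lib.MP_e0d433_co

open Finset

theorem superLen_le {n : ℕ} {w : List (Fin n)} (h : IsSuperperm n w) : superLen n ≤ w.length :=
  Nat.sInf_le ⟨w, h, rfl⟩

/-- For `n ≥ 5 * 2 ^ a - 2` there is a superpermutation of length at most
`n! + (n-1)! + (n-2)! + 4 (n-2) (n-4)! / 2 ^ a`. -/
theorem upper_pow {a n : ℕ} (ha : 2 ≤ a) (hn : 5 * 2 ^ a - 2 ≤ n) :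
    ∃ wd : List (Fin n), IsSuperperm n wd ∧
    2 ^ a * wd.length ≤ 2 ^ a * (n.factorial + (n - 1).factorial + (n - 2).factorial) +
      4 * (n - 2) * (n - 4).factorial := by
  classical
  obtain ⟨G, _, _, _, hG, ⟨K⟩⟩ := exists_code a
  have h4 : 4 ≤ 2 ^ a := by
    calc 4 = 2 ^ 2 := by norm_num
      _ ≤ 2 ^ a := Nat.pow_le_pow_right (by norm_num) ha
  set M := 2 ^ a - 1 with hMdef
  have hM : 2 ≤ M := by omega
  have hn18 : 18 ≤ n := by omega
  have hnM : 5 * M + 3 ≤ n := by omega
  have : NeZero n := ⟨by omega⟩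
  -- letters
  let f : ℕ → Fin n := fun i => Fin.ofNat n i
  have hf : ∀ i < n, (f i).val = i := by
    intro i hi
    simp [f, Nat.mod_eq_of_lt hi]
  have hfinj : ∀ i < n, ∀ j < n, f i = f j → i = j := by
    intro i hi j hj h
    rw [← hf i hi, ← hf j hj, h]
  let B : Finset (Fin n) := (range (5 * M - 1)).image (fun i => f (i + 4))
  have hBcard : B.card = 5 * M - 1 := by
    rw [card_image_of_injOn, card_range]
    intro i hi j hj h
    rw [coe_range, Set.mem_Iio] at hi hj
    have := hfinj (i + 4) (by omega) (j + 4) (by omega) h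
    omega
  have hnotB : ∀ i < 4, f i ∉ B := by
    intro i hi h
    obtain ⟨j, hj, h'⟩ := mem_image.1 h
    rw [mem_range] at hj
    have := hfinj (j + 4) (by omega) i (by omega) h'
    omega
  have hne : ∀ i < 4, ∀ j < 4, i ≠ j → f i ≠ f j := by
    intro i hi j hj hij h
    exact hij (hfinj i (by omega) j (by omega) h)
  obtain ⟨S, hx, hw, hz, hA, hinfo⟩ := exists_sys K B (f 0) (f 1) (f 2) (f 3) hBcard hM
    (hne 0 (by omega) 1 (by omega) (by omega)) (hne 0 (by omega) 2 (by omega) (by omega))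
    (hne 0 (by omega) 3 (by omega) (by omega)) (hne 1 (by omega) 2 (by omega) (by omega))
    (hne 1 (by omega) 3 (by omega) (by omega)) (hne 2 (by omega) 3 (by omega) (by omega))
    (hnotB 0 (by omega)) (hnotB 1 (by omega)) (hnotB 2 (by omega)) (hnotB 3 (by omega))
  have hinfo' : ∀ l : List (Fin n), S.info (S.z :: l) = infl K B (f 3) l := by
    intro l
    rw [hinfo, hz, anch_cons]
  obtain ⟨wd, hwd, hlen⟩ := S.bound (f 3)
    ⟨by rw [hx]; exact hne 3 (by omega) 0 (by omega) (by omega),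
      by rw [hw]; exact hne 3 (by omega) 1 (by omega) (by omega),
      by rw [hz]; exact hne 3 (by omega) 2 (by omega) (by omega)⟩
    (fun l => K.Phi (l.filter (· ∈ B)) = K.X 0)
    (fun l hl => reach_sys K S hBcard hM (hnotB 3 (by omega)) (by rw [hz]; exact hnotB 2 (by omega))
      (by rw [hz]; exact hne 2 (by omega) 3 (by omega) (by omega))
      (by rw [hw]; exact hnotB 1 (by omega))
      (by rw [hw]; exact hne 1 (by omega) 3 (by omega) (by omega))
      (by rw [hw, hz]; exact hne 1 (by omega) 2 (by omega) (by omega))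
      (by rw [hx]; exact hnotB 0 (by omega))
      (by rw [hx]; exact hne 0 (by omega) 3 (by omega) (by omega)) hinfo' hl)
  have hsuper : IsSuperperm n wd := by
    intro p hp hpl
    refine hwd p ?_
    rw [mem_perms]
    refine ⟨hp, ?_⟩
    refine eq_univ_of_card _ ?_
    rw [List.toFinset_card_of_nodup hp, hpl, Fintype.card_fin]
  refine ⟨wd, hsuper, ?_⟩
  rw [Fintype.card_fin] at hlen
  -- cardinalities
  have hB' : ∀ b ∈ B, b ≠ S.x ∧ b ≠ S.w ∧ b ≠ S.z ∧ b ≠ f 3 := by
    intro b hb
    refine ⟨?_, ?_, ?_, ?_⟩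
    · rintro rfl; rw [hx] at hb; exact hnotB 0 (by omega) hb
    · rintro rfl; rw [hw] at hb; exact hnotB 1 (by omega) hb
    · rintro rfl; rw [hz] at hb; exact hnotB 2 (by omega) hb
    · rintro rfl; exact hnotB 3 (by omega) hb
  have h3x : f 3 ≠ S.x := by rw [hx]; exact hne 3 (by omega) 0 (by omega) (by omega)
  have h3w : f 3 ≠ S.w := by rw [hw]; exact hne 3 (by omega) 1 (by omega) (by omega)
  have h3z : f 3 ≠ S.z := by rw [hz]; exact hne 3 (by omega) 2 (by omega) (by omega)
  have hxw : S.x ≠ S.w := S.x_ne_w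
  have hxz : S.x ≠ S.z := by rw [hx, hz]; exact hne 0 (by omega) 2 (by omega) (by omega)
  have hwz : S.w ≠ S.z := by rw [hw, hz]; exact hne 1 (by omega) 2 (by omega) (by omega)
  have hc2 : (univ \ {S.x, S.z} : Finset (Fin n)).card = n - 2 := by
    rw [card_sdiff_of_subset (subset_univ _), card_univ, Fintype.card_fin, card_pair hxz]
  have hc3 : (univ \ {S.x, S.w, S.z} : Finset (Fin n)).card = n - 3 := by
    rw [card_sdiff_of_subset (subset_univ _), card_univ, Fintype.card_fin,
      card_insert_of_notMem (by simp [hxw, hxz]), card_pair hwz]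
  have hc4 : (univ \ {S.x, S.w, f 3, S.z} : Finset (Fin n)).card = n - 4 := by
    rw [card_sdiff_of_subset (subset_univ _), card_univ, Fintype.card_fin,
      card_insert_of_notMem (by simp [hxw, hxz, h3x.symm]),
      card_insert_of_notMem (by simp [hwz, h3w.symm]), card_pair h3z]
  have hL : ∀ T : Finset (Fin n), insert (f 3) B ⊆ T → 2 ^ a * S.cntL T = T.card.factorial := by
    intro T hT
    have := count_left K (B := B) (T := T) (y := f 3) (by omega) hBcard (hnotB 3 (by omega)) hT
    rw [hG] at this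
    rw [← this, Sys.cntL]
    congr 2
    ext l
    simp only [mem_filter]
    rw [hinfo']
  have h2 := hL (univ \ {S.x, S.z}) (by
    intro b hb
    rw [mem_insert] at hb
    simp only [mem_sdiff, mem_univ, mem_insert, mem_singleton, true_and, not_or]
    rcases hb with rfl | hb
    · exact ⟨h3x, h3z⟩
    · exact ⟨(hB' b hb).1, (hB' b hb).2.2.1⟩)
  have h3 := hL (univ \ {S.x, S.w, S.z}) (by
    intro b hb
    rw [mem_insert] at hb
    simp only [mem_sdiff, mem_univ, mem_insert, mem_singleton, true_and, not_or]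
    rcases hb with rfl | hb
    · exact ⟨h3x, h3w, h3z⟩
    · exact ⟨(hB' b hb).1, (hB' b hb).2.1, (hB' b hb).2.2.1⟩)
  have h4' := count_level K (B := B) (T := univ \ {S.x, S.w, f 3, S.z}) (by omega) hBcard (by
    intro b hb
    simp only [mem_sdiff, mem_univ, mem_insert, mem_singleton, true_and, not_or]
    exact ⟨(hB' b hb).1, (hB' b hb).2.1, (hB' b hb).2.2.2, (hB' b hb).2.2.1⟩) (K.X 0)
  rw [hG, hc4] at h4'
  rw [hc2] at h2
  rw [hc3] at h3
  generalize (filter (fun l => K.Phi (List.filter (fun x => decide (x ∈ B)) l) = K.X 0)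
    (perms (univ \ {S.x, S.w, f 3, S.z}))).card = v at hlen h4'
  generalize S.cntL (univ \ {S.x, S.z}) = c2 at hlen h2
  generalize S.cntL (univ \ {S.x, S.w, S.z}) = c3 at hlen h3
  obtain ⟨m, rfl⟩ : ∃ m, n = m + 4 := ⟨n - 4, by omega⟩
  simp only [Nat.add_sub_cancel, show m + 4 - 1 = m + 3 by omega, show m + 4 - 2 = m + 2 by omega,
    show m + 4 - 3 = m + 1 by omega] at *
  have e2 : (m + 2).factorial = (m + 2) * ((m + 1) * m.factorial) := by
    rw [Nat.factorial_succ, Nat.factorial_succ]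
  have e3 : (m + 1).factorial = (m + 1) * m.factorial := Nat.factorial_succ m
  have key : 2 ^ a * wd.length + 2 * (m + 2).factorial ≤
      2 ^ a * ((m + 4).factorial + (m + 3).factorial + (m + 2).factorial) +
      2 * (m + 3) * (m + 1).factorial + 2 * (m + 3) * m.factorial := by
    calc 2 ^ a * wd.length + 2 * (m + 2).factorial
        = 2 ^ a * (wd.length + 2 * c2) := by rw [← h2]; ring
      _ ≤ 2 ^ a * ((m + 4).factorial + (m + 3).factorial + (m + 2).factorial +
          2 * (m + 3) * c3 + 2 * (m + 3) * v) := Nat.mul_le_mul_left _ hlen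
      _ = _ := by rw [← h3, ← h4']; ring
  have key2 : 2 * (m + 3) * (m + 1).factorial + 2 * (m + 3) * m.factorial =
      2 * (m + 2).factorial + 4 * (m + 2) * m.factorial := by
    rw [e2, e3]; ring
  omega

theorem upper {n : ℕ} (hn : 18 ≤ n) :
    ∃ wd : List (Fin n), IsSuperperm n wd ∧
      wd.length ≤ n.factorial + (n - 1).factorial + (n - 2).factorial +
        40 * (n - 4).factorial := by
  -- choose `a` with `5 * 2 ^ a ≤ n + 2 < 5 * 2 ^ (a + 1)`
  set a := Nat.log 2 ((n + 2) / 5) with ha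
  have h0 : (n + 2) / 5 ≠ 0 := by omega
  have h1 : 2 ^ a ≤ (n + 2) / 5 := Nat.pow_log_le_self 2 h0
  have h2 : (n + 2) / 5 < 2 ^ (a + 1) := Nat.lt_pow_succ_log_self (by norm_num) _
  have ha2 : 2 ≤ a := by
    rw [ha]
    exact (Nat.le_log_iff_pow_le (by norm_num) h0).2 (by omega)
  obtain ⟨wd, hwd, h3⟩ := upper_pow (a := a) (n := n) ha2 (by omega)
  refine ⟨wd, hwd, ?_⟩
  have h4 : n + 2 < 5 * 2 ^ (a + 1) := by omega
  rw [pow_succ] at h4
  have h5 : 4 * (n - 2) * (n - 4).factorial ≤ 2 ^ a * (40 * (n - 4).factorial) := by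
    have : 4 * (n - 2) ≤ 2 ^ a * 40 := by omega
    calc 4 * (n - 2) * (n - 4).factorial ≤ 2 ^ a * 40 * (n - 4).factorial :=
          Nat.mul_le_mul_right _ this
      _ = _ := by ring
  have h6 : 2 ^ a * wd.length ≤
      2 ^ a * (n.factorial + (n - 1).factorial + (n - 2).factorial + 40 * (n - 4).factorial) := by
    rw [Nat.mul_add]
    exact h3.trans (Nat.add_le_add_left h5 _)
  exact Nat.le_of_mul_le_mul_left h6 (by positivity)

end Pool.Agent.Lib.MP_e0d433_co
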